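import Pool.Agent.Lib.HN9.Blue

/-! The commutator of two small elements is small. -/

open scoped Topology
open Set Filter Metric

noncomputable section

namespace Pool.Agent.Lib.HN9

open Pool.Agent.Lib.HS95

namespace COMK

variable {ι : Type} [Fintype ι] [DecidableEq ι] {g : Geo ι} (a : Act g) (j : g.J)

theorem symm_T {f : g.Y → g.Y} {w : ι → ℂ} (h : f ((g.c j).symm w) ∈ (g.c j).source) :
    (g.c j).symm (g.T f j j w) = f ((g.c j).symm w) := (g.c j).left_inv h

theorem T_mul (α β : a.Γ) {w : ι → ℂ} (h : a.f β ((g.c j).symm w) ∈ (g.c j).source) :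
    g.T (a.f α) j j (g.T (a.f β) j j w) = g.T (a.f (α * β)) j j w := by
  rw [Geo.T, symm_T j h]; simp only [Geo.T, Act.f, mul_smul]

theorem T_one {w : ι → ℂ} (h : w ∈ (g.c j).target) : g.T (a.f 1) j j w = w := by
  simp only [Geo.T, Act.f, one_smul]; exact (g.c j).right_inv h

theorem lip {f : g.Y → g.Y} (hf : g.Iso f) {z w u : ι → ℂ} {R e : ℝ}
    (hR : closedBall z R ⊆ (g.c j).target) (h : g.Near f j z R e) (hw : dist w z ≤ R / 2)
    (hu : u ∈ ball w (R / 2)) :
    ‖(g.T f j j u - u) - (g.T f j j w - w)‖ ≤ 2 * e / (R / 2) * ‖u - w‖ := by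
  have hs : ball w (R / 2) ⊆ ball z R := ball_subset_ball' (by linarith)
  refine SV.H85.norm_sub_le_of_bound (f := fun v => g.T f j j v - v) (fun v hv => ?_)
    (fun v hv => (h v (hs hv)).2) hu
  have ht := hR (ball_subset_closedBall (hs hv))
  have := (hf.loc j j _ ((g.c j).map_target ht) (h v (hs hv)).1).hol
  rw [(g.c j).right_inv ht] at this
  exact (this.sub differentiableAt_id).differentiableWithinAt

end COMK

open COMK

theorem st_COM (h1 : St_J0) (h2 : St_TB) : St_COM := by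
  intro ι _ _ g a j z hz
  obtain ⟨R, hR, hRt, hT⟩ := h2 ι g j z hz
  obtain ⟨r0, hr0, L, -, hr, hrt, -, hJ⟩ := h1 ι g j j z hz z hz (R / 4) (by linarith)
  have inv : ∀ (α : a.Γ) (e : ℝ), e < r0 → g.Near (a.f α) j z R e → g.Near (a.f α⁻¹) j z r0 e := by
    intro α e he h w hw
    obtain ⟨s, n⟩ := h z (mem_ball_self hR)
    have e1 : g.T (a.f α⁻¹) j j (g.T (a.f α) j j z) = z := by
      rw [T_mul a j _ _ s, inv_mul_cancel, T_one a j hz]
    obtain ⟨s', n', -⟩ := (hJ _ (a.iso α⁻¹) (g.T (a.f α) j j z)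
      (by rw [mem_ball, dist_eq_norm]; linarith)
      (by rw [symm_T j s]; simpa using (g.c j).map_target hz)
      (by rw [e1]; exact mem_ball_self hr0)).1 w hw
    refine ⟨s', ?_⟩
    have := (h _ (ball_subset_ball (by linarith) n')).2
    rwa [T_mul a j _ _ s', mul_inv_cancel, T_one a j (hrt (ball_subset_closedBall hw)),
      norm_sub_rev] at this
  refine ⟨r0 / 2, by linarith, (closedBall_subset_closedBall (by linarith)).trans hrt,
    fun r hr1 hr2 => ?_⟩
  obtain ⟨C, hC, d0, hd0, hN⟩ := hT r hr1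
  refine ⟨min d0 (min (r0 / (4 * C + 1)) (R / (8 * C ^ 2 + 1))), by positivity,
    fun d hd hd1 α β hα hβ w hw => ?_⟩
  have k1 : C * d < r0 / 2 := by
    have := (le_div_iff₀ (by positivity)).1 (hd1.trans ((min_le_right _ _).trans (min_le_left _ _)))
    nlinarith
  have k2 : d * (8 * C ^ 2 + 1) ≤ R :=
    (le_div_iff₀ (by positivity)).1 (hd1.trans ((min_le_right _ _).trans (min_le_right _ _)))
  have k0 : 0 ≤ C * d := by positivity
  have hb : ball z r ⊆ ball z R := ball_subset_ball (by linarith)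
  have A := hN _ (a.iso α) z d hb hd (hd1.trans (min_le_left _ _)) hα
  have B := hN _ (a.iso β) z d hb hd (hd1.trans (min_le_left _ _)) hβ
  have hw' : dist w z < r := hw
  obtain ⟨s1, n1⟩ := inv β _ (by linarith) B w (mem_ball.2 (by linarith))
  have m1 := dist_triangle (g.T (a.f β⁻¹) j j w) w z
  rw [dist_eq_norm _ w] at m1
  obtain ⟨s2, n2⟩ := inv α _ (by linarith) A (g.T (a.f β⁻¹) j j w) (mem_ball.2 (by linarith))
  have m2 := dist_triangle (g.T (a.f α⁻¹) j j (g.T (a.f β⁻¹) j j w)) (g.T (a.f β⁻¹) j j w) z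
  rw [dist_eq_norm _ (g.T (a.f β⁻¹) j j w)] at m2
  have e1 : g.T (a.f α) j j (g.T (a.f α⁻¹) j j (g.T (a.f β⁻¹) j j w)) = g.T (a.f β⁻¹) j j w := by
    rw [T_mul a j _ _ s2, mul_inv_cancel]; exact T_one a j ((g.c j).map_source s1)
  have e2 : g.T (a.f β) j j (g.T (a.f β⁻¹) j j w) = w := by
    rw [T_mul a j _ _ s1, mul_inv_cancel, T_one a j (hRt (ball_subset_closedBall (hb hw)))]
  have e3 : (g.c j).symm (g.T (a.f α⁻¹) j j (g.T (a.f β⁻¹) j j w)) =
      (α⁻¹ * β⁻¹) • (g.c j).symm w := by rw [symm_T j s2, symm_T j s1, mul_smul]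
  set v := g.T (a.f α⁻¹) j j (g.T (a.f β⁻¹) j j w)
  obtain ⟨s3, n3⟩ := B v (mem_ball.2 (by linarith))
  obtain ⟨-, n4⟩ := A v (mem_ball.2 (by linarith))
  have m3 := dist_triangle (g.T (a.f β) j j v) v z
  rw [dist_eq_norm _ v] at m3
  obtain ⟨s5, -⟩ := A (g.T (a.f β) j j v) (mem_ball.2 (by linarith))
  have e4 : a.f α ((g.c j).symm (g.T (a.f β) j j v)) =
      a.f (α * β * α⁻¹ * β⁻¹) ((g.c j).symm w) := by
    rw [symm_T j s3, e3]; simp only [Act.f, mul_smul]
  refine ⟨e4 ▸ s5, ?_⟩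
  have l1 := lip j (a.iso α) hRt A (w := v) (u := g.T (a.f β) j j v) (by linarith)
    (by rw [mem_ball, dist_eq_norm]; linarith)
  have l2 := lip j (a.iso β) hRt B (w := v) (u := g.T (a.f α) j j v) (by linarith)
    (by rw [mem_ball, dist_eq_norm]; linarith)
  have e5 : g.T (a.f (α * β * α⁻¹ * β⁻¹)) j j w - w =
      ((g.T (a.f α) j j (g.T (a.f β) j j v) - g.T (a.f β) j j v) - (g.T (a.f α) j j v - v)) -
      ((g.T (a.f β) j j (g.T (a.f α) j j v) - g.T (a.f α) j j v) - (g.T (a.f β) j j v - v)) := by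
    have : g.T (a.f α) j j (g.T (a.f β) j j v) = g.T (a.f (α * β * α⁻¹ * β⁻¹)) j j w :=
      congrArg (g.c j) e4
    have e6 : g.T (a.f β) j j (g.T (a.f α) j j v) = w := by rw [e1, e2]
    rw [this, e6]; abel
  have p : 0 ≤ 2 * (C * d) / (R / 2) := by positivity
  have q : 2 * (C * d) / (R / 2) * (C * d) ≤ d / 2 := by
    rw [div_mul_eq_mul_div, div_le_iff₀ (by positivity)]; nlinarith
  rw [e5]
  exact (norm_sub_le _ _).trans (by
    linarith [mul_le_mul_of_nonneg_left n3 p, mul_le_mul_of_nonneg_left n4 p])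

end Pool.Agent.Lib.HN9
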