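import Pool.Agent.Lib.HN9.Blue

/-! Project hn, compact leaves: holonomy. -/

open scoped Topology ContDiff ComplexOrder Matrix
open Set Filter Metric Complex

set_option linter.unusedVariables false
set_option linter.unusedSectionVars false

noncomputable section

namespace Pool.Agent.Lib.HN9

open Pool.Agent.Lib.HS95

namespace HOLK

section euc

variable {ι : Type} [Fintype ι] [DecidableEq ι]

theorem jm_eq (φ : (ι → ℂ) → ι → ℂ) (z : ι → ℂ) :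
    jm φ z = LinearMap.toMatrix' (fderiv ℂ φ z : (ι → ℂ) →ₗ[ℂ] ι → ℂ) := by
  ext a b
  simp [jm, LinearMap.toMatrix'_apply]

theorem iso_comp {G G' G'' : (ι → ℂ) → Matrix ι ι ℂ} {φ ψ : (ι → ℂ) → ι → ℂ} {z : ι → ℂ}
    (h : IsoAt G G' φ z) (h' : IsoAt G' G'' ψ (φ z)) : IsoAt G G'' (ψ ∘ φ) z := by
  refine ⟨h'.hol.comp z h.hol, ?_⟩
  have e : jm (ψ ∘ φ) z = jm ψ (φ z) * jm φ z := by
    rw [jm_eq, jm_eq, jm_eq, fderiv_comp z h'.hol h.hol, ← LinearMap.toMatrix'_comp]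
    rfl
  rw [e, ← h.iso, ← h'.iso, Matrix.conjTranspose_mul]
  simp only [Matrix.mul_assoc, Function.comp_apply]

theorem iso_id (G : (ι → ℂ) → Matrix ι ι ℂ) (z : ι → ℂ) : IsoAt G G id z := by
  refine ⟨differentiableAt_id, ?_⟩
  have e : jm (id : (ι → ℂ) → ι → ℂ) z = 1 := by
    rw [jm_eq, fderiv_id, ← LinearMap.toMatrix'_id]
    rfl
  simp [e]

end euc

variable {V ι X : Type} [NormedAddCommGroup V] [InnerProductSpace ℂ V] [Fintype ι]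
  [DecidableEq ι] [TopologicalSpace X] [T2Space X] (S : Split V ι X)

theorem box (h1 : St_LFU) {j : S.I} {B : V ≃ₗᵢ[ℂ] V} {v₁ t₁ v : V} {y : ι → ℂ} {ρ : ℝ}
    (ht : ∀ t ∈ ball t₁ ρ, (t, y) ∈ (S.e j).target) {ℓ : V → X} (hl : S.Lf ℓ univ)
    (hv : v ∈ ball v₁ ρ)
    (he : ∀ᶠ w in 𝓝 v, ℓ w ∈ (S.e j).source ∧ S.e j (ℓ w) = (B (w - v₁) + t₁, y)) :
    ∀ w ∈ ball v₁ ρ, ℓ w ∈ (S.e j).source ∧ S.e j (ℓ w) = (B (w - v₁) + t₁, y) := by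
  have hm : ∀ w ∈ ball v₁ ρ, (B (w - v₁) + t₁, y) ∈ (S.e j).target := fun w hw =>
    ht _ (by rwa [mem_ball, dist_eq_norm, add_sub_cancel_right, B.norm_map, ← dist_eq_norm])
  have hl' : S.Lf (fun w => (S.e j).symm (B (w - v₁) + t₁, y)) (ball v₁ ρ) := by
    refine fun u hu => ⟨j, B, ?_⟩
    filter_upwards [isOpen_ball.mem_nhds hu] with w hw
    refine ⟨(S.e j).map_target (hm w hw), ?_⟩
    rw [(S.e j).right_inv (hm w hw), (S.e j).right_inv (hm u hu), ← add_assoc, ← map_add,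
      sub_add_sub_cancel]
  have := (h1 V ι X S).2.2.2.2 ℓ _ _ v isOpen_ball (convex_ball v₁ ρ).isPreconnected
    (fun u _ => hl u trivial) hl' hv (he.mono fun w hw => by
      simp only [← hw.2, (S.e j).left_inv hw.1])
  intro w hw
  rw [this hw]
  exact ⟨(S.e j).map_target (hm w hw), (S.e j).right_inv (hm w hw)⟩

theorem rad {j : S.I} {t : V} {y : ι → ℂ} (h : (t, y) ∈ (S.e j).target) :
    ∃ ρ > 0, ∀ y' ∈ ball y ρ, ∀ t' ∈ ball t ρ, (t', y') ∈ (S.e j).target := by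
  obtain ⟨ρ, h0, hρ⟩ := Metric.isOpen_iff.1 (S.e j).open_target _ h
  exact ⟨ρ, h0, fun y' hy t' ht => hρ (by rw [← ball_prod_same]; exact ⟨ht, hy⟩)⟩

/-- The conclusion at `v` in the chart `i'`. -/
def Hl (L : (ι → ℂ) → V → X) (i : S.I) (z₀ : ι → ℂ) (v : V) (i' : S.I) (A' : V ≃ₗᵢ[ℂ] V) : Prop :=
  ∃ φ, (∀ᶠ z in 𝓝 z₀, IsoAt (S.G i) (S.G i') φ z) ∧
    ∀ᶠ p : (ι → ℂ) × V in 𝓝 (z₀, v), L p.1 p.2 ∈ (S.e i').source ∧
      S.e i' (L p.1 p.2) = (A' (p.2 - v) + (S.e i' (L z₀ v)).1, φ p.1)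

variable {S} {L : (ι → ℂ) → V → X} {i : S.I} {z₀ : ι → ℂ}

theorem Hl.fr {v : V} {j : S.I} {B : V ≃ₗᵢ[ℂ] V} (h : Hl S L i z₀ v j B) : S.Fr (L z₀) j B v := by
  obtain ⟨φ, -, h⟩ := h
  have e := congrArg Prod.snd h.self_of_nhds.2
  filter_upwards [(Continuous.prodMk_right z₀).continuousAt.eventually h] with w hw
  exact ⟨hw.1, hw.2.trans (by rw [e])⟩

theorem Hl.chg (h1 : St_LFU) {v : V} {j j' : S.I} {B B' : V ≃ₗᵢ[ℂ] V} (h : Hl S L i z₀ v j B)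
    (hf : S.Fr (L z₀) j' B' v) : Hl S L i z₀ v j' B' := by
  obtain ⟨φ, hφ, h⟩ := h
  have h0 := h.self_of_nhds
  have hx' := hf.self_of_nhds.1
  obtain ⟨C, ψ, hC, hψ⟩ := S.tr j j' _ h0.1 hx'
  have cφ : ContinuousAt φ z₀ := hφ.self_of_nhds.hol.continuousAt
  have e : (S.e j (L z₀ v)).2 = φ z₀ := congrArg Prod.snd h0.2
  have cL : Tendsto (fun p : (ι → ℂ) × V => L p.1 p.2) (𝓝 (z₀, v)) (𝓝 (L z₀ v)) := by
    have c1 : ContinuousAt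
        (fun p : (ι → ℂ) × V => (B (p.2 - v) + (S.e j (L z₀ v)).1, φ p.1)) (z₀, v) :=
      ContinuousAt.prodMk (by fun_prop) (ContinuousAt.comp (g := φ) cφ continuousAt_fst)
    have c2 := (S.e j).continuousAt_symm ((S.e j).map_source h0.1)
    have c3 := ContinuousAt.comp_of_eq c2 c1 h0.2.symm
    refine ContinuousAt.congr c3 (h.mono fun p hp => ?_)
    simp only [Function.comp_apply, ← hp.2, (S.e j).left_inv hp.1]
  have k : Hl S L i z₀ v j' (B.trans C) := by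
    refine ⟨ψ ∘ φ, ?_, ?_⟩
    · rw [e] at hψ
      filter_upwards [hφ, cφ.eventually hψ] with z a b using iso_comp a b
    · filter_upwards [h, cL.eventually hC,
        cL.eventually ((S.e j').open_source.mem_nhds hx')] with p a b c
      refine ⟨c, b.trans ?_⟩
      rw [a.2]
      simp
  rwa [(h1 V ι X S).2.1 _ _ _ _ _ hf k.fr]

theorem Hl.mv (h1 : St_LFU) (hL : ∀ᶠ z in 𝓝 z₀, S.Lf (L z) univ) {v₁ : V} {j : S.I}
    {B : V ≃ₗᵢ[ℂ] V} (hf : S.Fr (L z₀) j B v₁) : ∃ ρ > 0, ∀ v ∈ ball v₁ ρ,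
      S.Fr (L z₀) j B v ∧ ∀ v' ∈ ball v₁ ρ, Hl S L i z₀ v j B → Hl S L i z₀ v' j B := by
  obtain ⟨ρ₁, p1, hρ⟩ := rad S (t := (S.e j (L z₀ v₁)).1) (y := (S.e j (L z₀ v₁)).2)
    ((S.e j).map_source hf.self_of_nhds.1)
  obtain ⟨ρ₂, p2, h2⟩ := Metric.eventually_nhds_iff_ball.1 (((h1 V ι X S).2.2.1 _ _ _ _ hf).2.and hf)
  refine ⟨min ρ₁ ρ₂, lt_min p1 p2, fun v hv => ?_⟩
  have hv2 := h2 v (ball_subset_ball (min_le_right _ _) hv)
  refine ⟨hv2.1, fun v' hv' ⟨φ, hφ, h⟩ => ⟨φ, hφ, ?_⟩⟩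
  have hv2' := h2 v' (ball_subset_ball (min_le_right _ _) hv')
  have cφ : ContinuousAt φ z₀ := hφ.self_of_nhds.hol.continuousAt
  have e : φ z₀ = (S.e j (L z₀ v₁)).2 :=
    (Prod.ext_iff.1 (h.self_of_nhds.2.symm.trans hv2.2.2)).2
  have b1 : ∀ᶠ z in 𝓝 z₀, φ z ∈ ball (S.e j (L z₀ v₁)).2 ρ₁ :=
    cφ.eventually (ball_mem_nhds _ p1 |> (e ▸ ·))
  have b2 : ∀ᶠ z in 𝓝 z₀, ∀ w ∈ ball v₁ ρ₁, L z w ∈ (S.e j).source ∧
      S.e j (L z w) = (B (w - v₁) + (S.e j (L z₀ v₁)).1, φ z) := by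
    rw [nhds_prod_eq] at h
    filter_upwards [hL, b1, h.curry] with z a b c
    refine box S h1 (hρ _ b) a (ball_subset_ball (min_le_left _ _) hv) (c.mono fun w hw => ?_)
    refine ⟨hw.1, hw.2.trans ?_⟩
    rw [hv2.2.2, ← add_assoc, ← map_add, sub_add_sub_cancel]
  rw [nhds_prod_eq]
  filter_upwards [b2.prod_mk (isOpen_ball.mem_nhds (ball_subset_ball (min_le_left _ _) hv'))]
    with p hp
  refine ⟨(hp.1 _ hp.2).1, (hp.1 _ hp.2).2.trans ?_⟩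
  rw [hv2'.2.2, ← add_assoc, ← map_add, sub_add_sub_cancel]

end HOLK

open HOLK in
theorem st_HOL (h1 : St_LFU) : St_HOL := by
  intro V ι X _ _ _ _ _ _ S L i A t₀ v₀ z₀ h0 hL v
  obtain ⟨ρ, p0, hρ⟩ := rad S h0
  have hb : ∀ᶠ z in 𝓝 z₀, z ∈ ball z₀ ρ := ball_mem_nhds _ p0
  have hz : ∀ z ∈ ball z₀ ρ, (t₀, z) ∈ (S.e i).target := fun z hz => hρ z hz _ (mem_ball_self p0)
  have hl : ∀ᶠ z in 𝓝 z₀, S.Lf (L z) univ := hb.mono fun z h => (hL z (hz z h)).1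
  have base : Hl S L i z₀ v₀ i A := by
    refine ⟨id, Eventually.of_forall fun z => iso_id _ z, ?_⟩
    rw [nhds_prod_eq]
    filter_upwards [hb.prod_mk (ball_mem_nhds v₀ p0)] with p hp
    obtain ⟨a, b, c⟩ := hL _ (hz _ hp.1)
    rw [(hL _ h0).2.1, (S.e i).right_inv h0]
    refine box S h1 (hρ _ hp.1) a (mem_ball_self p0) (c.mono fun w hw => ⟨hw.1, ?_⟩) _ hp.2
    rw [hw.2, b, (S.e i).right_inv (hz _ hp.1)]
  have key := PreconnectedSpace.induction₂' (α := V)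
    (fun u u' => (∀ j B, S.Fr (L z₀) j B u → Hl S L i z₀ u j B) →
      ∀ j B, S.Fr (L z₀) j B u' → Hl S L i z₀ u' j B) (fun u => ?_)
    ⟨fun _ _ _ a b c => b (a c)⟩ v₀ v
  · exact key fun j B hf => base.chg h1 hf
  · obtain ⟨j, B, hf⟩ := (hL _ h0).1 u trivial
    obtain ⟨r, r0, hr⟩ := Hl.mv (i := i) h1 hl hf
    have hu := mem_ball_self (x := u) r0
    filter_upwards [ball_mem_nhds u r0] with u' hu'
    exact ⟨fun a j' B' hf' => ((hr u hu).2 u' hu' (a j B hf)).chg h1 hf',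
      fun a j' B' hf' => ((hr u' hu').2 u hu (a j B (hr u' hu').1)).chg h1 hf'⟩

end Pool.Agent.Lib.HN9
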