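import Pool.Agent.Lib.HN9.Blue2
import Pool.Agent.Lib.HS95.R_TI
import Pool.Agent.Lib.HS95.R_IN

/-! Project hn, compact leaves: the split atlas. -/

open scoped Topology ContDiff ComplexOrder Matrix
open Set Filter Metric Complex MeasureTheory

noncomputable section

namespace Pool.Agent.Lib.HN9

open Pool.Agent.Lib.HS95
open Pool.Agent.Lib.SV (E)
open Pool.Agent.Lib.HS32 (Mat Mf pr nq hess dz dzb HolN ClM)

namespace TI9

variable {n k : ℕ} {U : Set (E n)} {G : E n → Mat n} (ho : IsOpen U)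
  (h : ∀ z ∈ U, HS32.SmM G z ∧ (G z).PosDef ∧ (∀ i : Fin n, i.val < k → HS32.dM i G z = 0) ∧
    G z * pr k = pr k)

include ho h

theorem d_zero {z : E n} (hz : z ∈ U) {i : Fin n} (hi : i.val < k) :
    HS32.dM i G z = 0 ∧ HS32.dMb i G z = 0 := by
  have e := (h z hz).2.2.1 i hi
  refine ⟨e, ?_⟩
  rw [HS32.dMb_herm (h z hz).1 ((ho.eventually_mem hz).mono fun w hw => (h w hw).2.1.isHermitian), e,
    Matrix.conjTranspose_zero]

theorem const (hc : Convex ℝ U) {z z' : E n} (hz : z ∈ U) (hz' : z' ∈ U) (e : up k z = up k z') :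
    G z = G z' := by
  ext a b
  have hm : ∀ t ∈ Icc (0 : ℝ) 1, z + t • (z' - z) ∈ U := fun t ht => hc.add_smul_sub_mem hz hz' ht
  have hd : ∀ t ∈ Icc (0 : ℝ) 1, HasDerivAt (fun t : ℝ => G (z + t • (z' - z)) a b) 0 t := by
    intro t ht
    have h1 : HasDerivAt (fun t : ℝ => z + t • (z' - z)) (z' - z) t := by
      simpa using ((hasDerivAt_id t).smul_const (z' - z)).const_add z
    have h2 := ((h _ (hm t ht)).1.diff a b).hasFDerivAt.comp_hasDerivAt t h1
    rw [HS32.fderiv_eq_sum, Finset.sum_eq_zero fun j _ => ?_] at h2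
    · exact h2
    by_cases hj : j.val < k
    · obtain ⟨h3, h4⟩ := d_zero ho h (hm t ht) hj
      rw [← HS32.dM_apply, ← HS32.dMb_apply, h3, h4]
      simp
    · have : (z' - z) j = 0 := sub_eq_zero.2 (congrFun e ⟨j, hj⟩).symm
      simp [this]
  have := constant_of_has_deriv_right_zero
    (fun t ht => (hd t ht).continuousAt.continuousWithinAt)
    (fun t ht => (hd t (Ico_subset_Icc_self ht)).hasDerivWithinAt) 1 (right_mem_Icc.2 zero_le_one)
  simpa using this.symm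

open Classical in
theorem ti (h1 : St_HB) (h2 : St_LD1) (hc : Convex ℝ U) :
    ∃ G' : (Hi n k → ℂ) → Matrix (Hi n k) (Hi n k) ℂ, ∀ z ∈ U, G' (up k z) = lb k (G z) ∧
      SmM G' (up k z) ∧ (G' (up k z)).PosDef ∧
      ∀ v, lv (ld G') (up k z) (up k v) = 4 * nq (hess (HS32.ld G) z) v := by
  set G' : (Hi n k → ℂ) → Matrix (Hi n k) (Hi n k) ℂ := fun y =>
    if hy : ∃ z ∈ U, up k z = y then lb k (G hy.choose) else 0 with hG'
  have e0 : ∀ z ∈ U, G' (up k z) = lb k (G z) := fun z hz => by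
    have hy : ∃ w ∈ U, up k w = up k z := ⟨z, hz, rfl⟩
    simp only [hG', dif_pos hy, const ho h hc hy.choose_spec.1 hz hy.choose_spec.2]
  have hp : ∀ z ∈ U, (G' (up k z)).PosDef := fun z hz =>
    e0 z hz ▸ (h z hz).2.1.submatrix Subtype.val_injective
  refine ⟨G', fun z hz => ?_⟩
  have hj : ContDiff ℝ ∞ fun y : Hi n k → ℂ => jn k (lo k z) y :=
    (((spl k).symm.contDiff (n := ∞)).restrict_scalars ℝ).comp (contDiff_const.prodMk contDiff_id)
  have hU : ∀ᶠ y in 𝓝 (up k z), jn k (lo k z) y ∈ U :=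
    hj.continuous.continuousAt.eventually (by
      simpa only [jn_lo_up] using ho.eventually_mem hz)
  have hs : SmM G' (up k z) := fun a b => by
    have : ContDiffAt ℝ ∞ (fun w => G w a.1 b.1) (jn k (lo k z) (up k z)) := by
      rw [jn_lo_up]; exact (h z hz).1 _ _
    refine (this.comp _ hj.contDiffAt).congr_of_eventuallyEq (hU.mono fun y hy => ?_)
    have := e0 _ hy
    rw [up_jn] at this
    exact congrFun₂ this a b
  refine ⟨e0 z hz, hs, hp z hz, fun v => ?_⟩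
  have hl := (h2 _ _ G' (up k z) hs (hU.mono fun y hy => by
    have := hp _ hy
    rwa [up_jn] at this)).1
  rw [(h1 n k (HS32.ld G) z).1 (ld G') hl ((ho.eventually_mem hz).mono fun x hx => ?_) v]
  simp only [HS32.ld, ld, e0 x hx]
  rw [TIK.det_eq (ε := 1) (by rw [one_smul]; exact (h x hx).2.2.2), one_pow, ofReal_one, one_mul]

end TI9

open INK in
theorem st_IN (hT : HS32.St_TR) (h1 : St_IN0) (h2 : St_HB) (h4 : St_LD1) (h3 : St_IN2) :
    St_IN := by
  intro n M h P k hh hP hA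
  choose G' hG using fun i : {e : M.Ch // M.Prod h P k e ∧ Convex ℝ e.target} =>
    TI9.ti (G := h i.1) (k := k) i.1.open_target (fun z hz =>
      ⟨hh.sm _ i.2.1.mem z hz, hh.pos _ i.2.1.mem z hz, i.2.1.cst z hz, i.2.1.blk z hz⟩) h2 h4 i.2.2
  refine ⟨⟨_, fun i => i.1.transHomeomorph (spl k).toHomeomorph, G', fun x => ?_,
    fun i p hq => ?_, fun i j x hi hj => ?_⟩,
    ⟨⟨Subtype.val, Subtype.val_injective, fun i => i.2.1, fun i => i.2.2, fun _ => rfl,
      fun i z hz => (hG i z hz).1, fun i z hz => (hG i z hz).2.2.2⟩⟩⟩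
  · obtain ⟨e, he, hx, hc⟩ := h1 n M h P k hh.toTen hP hA x
    exact ⟨⟨e, he, hc⟩, hx⟩
  · have hz : jn k p.1 p.2 ∈ i.1.target := hq
    obtain ⟨-, a2, a3, -⟩ := hG i _ hz
    rw [up_jn] at a2 a3
    exact ⟨a2, a3⟩
  · have hi' : x ∈ i.1.source := hi
    have hj' : x ∈ j.1.source := hj
    obtain ⟨t1, -, -, t2, -⟩ := (hT n M).2.1 _ j.2.1.mem _ i.2.1.mem x hj' hi'
    have t3 : ∀ᶠ w in 𝓝 (i.1 x), w ∈ i.1.target ∧ (j.1 ∘ i.1.symm) w ∈ j.1.target ∧
        HS32.jm (j.1 ∘ i.1.symm) w * pr k = pr k * HS32.jm (j.1 ∘ i.1.symm) w ∧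
        (∀ T, M.Ten T → T i.1 w = (HS32.jm (j.1 ∘ i.1.symm) w)ᴴ * T j.1 ((j.1 ∘ i.1.symm) w) *
          HS32.jm (j.1 ∘ i.1.symm) w) := by
      filter_upwards [t2] with w ⟨c1, c2, c3, c4, _, c6, c7⟩
      refine ⟨c1, c4, ?_, fun T hT' => ?_⟩
      · have := hP.cmp _ j.2.1.mem _ i.2.1.mem _ c2 c3
        beta_reduce at this
        rwa [c6, c7, i.2.1.prj w c1, j.2.1.prj _ c4] at this
      · have := hT'.cmp _ j.2.1.mem _ i.2.1.mem _ c2 c3
        beta_reduce at this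
        rwa [c6, c7] at this
    obtain ⟨A, φ, hA⟩ := h3 n k _ _ t1 (t3.mono fun w ⟨c1, c2, c3, c4⟩ =>
      ⟨c3, unit c3 (j.2.1.blk _ c2) (i.2.1.blk _ c1) (c4 h hh.toTen)⟩)
    refine ⟨A, φ, ?_, ?_⟩
    · filter_upwards [(i.1.continuousAt hi').eventually hA, i.1.open_source.mem_nhds hi']
        with y hy hy'
      obtain ⟨d1, d2, -⟩ := hy
      simp only [Function.comp_apply, i.1.left_inv hy', i.1.left_inv hi'] at d1 d2
      exact Prod.ext d1 d2
    · have hc : Tendsto (fun y => jn k (lo k (i.1 x)) y) (𝓝 (up k (i.1 x))) (𝓝 (i.1 x)) := by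
        have := ((continuous_jn k).comp (Continuous.prodMk_right (lo k (i.1 x)))).tendsto
          (up k (i.1 x))
        simpa only [Function.comp_def, jn_lo_up] using this
      refine (hc.eventually (t3.and hA)).mono fun y ⟨⟨c1, c2, c3, c4⟩, _, d2, d3, d4⟩ => ?_
      have e1 := (hG i _ c1).1
      have e2 := (hG j _ c2).1
      rw [d2] at e2
      rw [up_jn] at e1 e2 d3 d4
      refine ⟨d3, ?_⟩
      show (jm φ y)ᴴ * G' j (φ y) * jm φ y = G' i y
      rw [d4, e1, e2, c4 h hh.toTen, lb_conj c3]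

end Pool.Agent.Lib.HN9
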