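import Pool.Agent.Lib.HN9.Blue

/-! Project hn, compact leaves: change of chart and uniqueness for leaves. -/

open scoped Topology
open Set Filter

namespace Pool.Agent.Lib.HN9

open Pool.Agent.Lib.HS95

namespace LFUK

variable {V ι X : Type} [NormedAddCommGroup V] [InnerProductSpace ℂ V] [Fintype ι]
  [DecidableEq ι] [TopologicalSpace X] {S : Split V ι X} {ℓ ℓ' : V → X} {i : S.I}
  {A B : V ≃ₗᵢ[ℂ] V} {v : V}

theorem cont (h : S.Fr ℓ i A v) : ContinuousAt ℓ v := by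
  have h0 := h.self_of_nhds.1
  have hc : ContinuousAt (fun w => (A (w - v) + (S.e i (ℓ v)).1, (S.e i (ℓ v)).2)) v := by
    fun_prop
  have h1 : ContinuousAt (S.e i).symm (A (v - v) + (S.e i (ℓ v)).1, (S.e i (ℓ v)).2) := by
    rw [sub_self, map_zero, zero_add]
    exact (S.e i).continuousAt_symm ((S.e i).map_source h0)
  refine (ContinuousAt.comp
    (f := fun w => (A (w - v) + (S.e i (ℓ v)).1, (S.e i (ℓ v)).2)) h1 hc).congr ?_
  filter_upwards [h] with w hw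
  rw [Function.comp_apply, ← hw.2, (S.e i).left_inv hw.1]

theorem ev (h : S.Fr ℓ i A v) : ∀ᶠ w in 𝓝 v, S.Fr ℓ i A w := by
  filter_upwards [h.eventually_nhds, h] with w h1 h2
  filter_upwards [h1] with w' h3
  refine ⟨h3.1, ?_⟩
  rw [h3.2, h2.2, ← add_assoc, ← map_add, sub_add_sub_cancel]

theorem chg (h : S.Fr ℓ i A v) {j : S.I} (hj : ℓ v ∈ (S.e j).source) : ∃ B, S.Fr ℓ j B v := by
  obtain ⟨A', φ, h1, -⟩ := S.tr i j _ h.self_of_nhds.1 hj
  have h2 : (S.e j (ℓ v)).2 = φ (S.e i (ℓ v)).2 := congrArg Prod.snd h1.self_of_nhds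
  refine ⟨A.trans A', ?_⟩
  filter_upwards [h, (cont h).eventually h1,
    (cont h).eventually ((S.e j).open_source.mem_nhds hj)] with w a1 a2 a3
  refine ⟨a3, ?_⟩
  rw [a2, a1.2, h2, add_sub_cancel_right]
  rfl

theorem uniq (h : S.Fr ℓ i A v) (h' : S.Fr ℓ i B v) : A = B := by
  have h1 : ∀ᶠ w in 𝓝 v, A (w - v) = B (w - v) := by
    filter_upwards [h, h'] with w a b
    exact add_right_cancel (congrArg Prod.fst (a.2.symm.trans b.2))
  ext u
  have h2 : Tendsto (fun t : ℂ => t • u + v) (𝓝[≠] 0) (𝓝 v) := by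
    have : Continuous fun t : ℂ => t • u + v := by fun_prop
    have := this.tendsto 0
    rw [zero_smul, zero_add] at this
    exact this.mono_left nhdsWithin_le_nhds
  obtain ⟨t, a, b⟩ := ((h2.eventually h1).and self_mem_nhdsWithin).exists
  rw [add_sub_cancel_right, map_smul, map_smul] at a
  exact smul_right_injective V b a

theorem germ (h : S.Fr ℓ i A v) (h' : S.Fr ℓ' i A v) (e : ℓ v = ℓ' v) : ℓ =ᶠ[𝓝 v] ℓ' := by
  filter_upwards [h, h'] with w a b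
  exact (S.e i).injOn a.1 b.1 (by rw [a.2, b.2, e])

theorem fr_congr (h : S.Fr ℓ i A v) (e : ℓ =ᶠ[𝓝 v] ℓ') : S.Fr ℓ' i A v := by
  filter_upwards [h, e] with w a b
  rwa [← b, ← e.eq_of_nhds]

theorem ext [T2Space X] {U : Set V} (hU : IsPreconnected U) (h : S.Lf ℓ U) (h' : S.Lf ℓ' U)
    (hv : v ∈ U) (e : ℓ =ᶠ[𝓝 v] ℓ') : EqOn ℓ ℓ' U := by
  have key : U ⊆ {w | ℓ =ᶠ[𝓝 w] ℓ'} := by
    refine hU.subset_of_closure_inter_subset isOpen_setOfPred_eventually_nhds ⟨v, hv, e⟩ ?_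
    rintro w ⟨hw, hwU⟩
    obtain ⟨i, A, a⟩ := h w hwU
    obtain ⟨i', A', a'⟩ := h' w hwU
    have fq : ∃ᶠ x in 𝓝 w, ℓ =ᶠ[𝓝 x] ℓ' := mem_closure_iff_frequently.1 hw
    have e1 : ℓ w = ℓ' w :=
      tendsto_nhds_unique_of_frequently_eq (cont a) (cont a') (fq.mono fun x hx => hx.eq_of_nhds)
    obtain ⟨B, b⟩ := chg a' (j := i) (e1 ▸ a.self_of_nhds.1)
    obtain ⟨x, x1, x2, x3⟩ := (fq.and_eventually ((ev a).and (ev b))).exists
    obtain rfl : A = B := uniq (fr_congr x2 x1) x3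
    exact germ a b e1
  exact fun w hw => (key hw).eq_of_nhds

end LFUK

theorem st_LFU : St_LFU := fun _ _ _ _ _ _ _ _ _ _ =>
  ⟨fun _ _ _ _ _ h hj => LFUK.chg h hj, fun _ _ _ _ _ h h' => LFUK.uniq h h',
    fun _ _ _ _ h => ⟨LFUK.cont h, LFUK.ev h⟩, fun _ _ _ _ _ h h' e => LFUK.germ h h' e,
    fun _ _ _ _ _ hU h h' hv e => LFUK.ext hU h h' hv e⟩

end Pool.Agent.Lib.HN9
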