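import Pool.Agent.Lib.HN9.Blue

/-! Project hn, compact leaves: limits of rescaled displacements are commuting holomorphic Killing
fields. -/

open scoped Topology ContDiff ComplexOrder Matrix
open Set Filter Metric Complex Asymptotics

set_option linter.unusedSectionVars false

noncomputable section

namespace Pool.Agent.Lib.HN9

open Pool.Agent.Lib.HS95

namespace LIM2K

theorem tend_zero {F : Type} [NormedAddCommGroup F] [NormedSpace ℝ F] {l : Filter ℕ} {r : ℕ → ℝ}
    {u : ℕ → F} {v : F} (hr : Tendsto r l atTop) (h : Tendsto (fun m => r m • u m) l (𝓝 v)) :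
    Tendsto u l (𝓝 0) := by
  have h1 := (tendsto_inv_atTop_zero.comp hr).smul h
  rw [zero_smul] at h1
  refine h1.congr' ?_
  filter_upwards [hr.eventually_gt_atTop 0] with m hm
  simp only [Function.comp_apply]
  rw [smul_smul, inv_mul_cancel₀ hm.ne', one_smul]

theorem tend_of_sub {F : Type} [NormedAddCommGroup F] [NormedSpace ℝ F] {l : Filter ℕ} {r : ℕ → ℝ}
    {u : ℕ → F} {x v : F} (hr : Tendsto r l atTop)
    (h : Tendsto (fun m => r m • (u m - x)) l (𝓝 v)) : Tendsto u l (𝓝 x) :=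
  tendsto_sub_nhds_zero_iff.1 (tend_zero hr h)

theorem rescale {E F : Type} [NormedAddCommGroup E] [NormedSpace ℝ E] [NormedAddCommGroup F]
    [NormedSpace ℝ F] {l : Filter ℕ} {r : ℕ → ℝ} {u : ℕ → E} {x v : E} {f : E → F}
    {f' : E →L[ℝ] F} (hf : HasFDerivAt f f' x) (hr : Tendsto r l atTop)
    (h : Tendsto (fun m => r m • (u m - x)) l (𝓝 v)) :
    Tendsto (fun m => r m • (f (u m) - f x)) l (𝓝 (f' v)) := by
  have hu := tend_of_sub hr h
  have h1 : (fun m => f (u m) - f x - f' (u m - x)) =o[l] fun m => u m - x :=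
    (hasFDerivAt_iff_isLittleO.1 hf).comp_tendsto hu
  have h2 : (fun m => r m • (f (u m) - f x - f' (u m - x))) =o[l] fun m => r m • (u m - x) :=
    (isBigO_refl r l).smul_isLittleO h1
  have h3 : Tendsto (fun m => r m • (f (u m) - f x - f' (u m - x))) l (𝓝 0) :=
    (isLittleO_one_iff ℝ).1 (h2.trans_isBigO (h.isBigO_one ℝ))
  have h4 := h3.add ((f'.continuous.tendsto v).comp h)
  rw [zero_add] at h4
  refine h4.congr fun m => ?_
  rw [Function.comp_apply, map_smul, ← smul_add, sub_add_cancel]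

variable {ι : Type} [Fintype ι] [DecidableEq ι]

theorem rescaleC {l : Filter ℕ} {r : ℕ → ℝ} {u : ℕ → ι → ℂ} {x v : ι → ℂ}
    {f : (ι → ℂ) → ι → ℂ} (hf : DifferentiableAt ℂ f x) (hr : Tendsto r l atTop)
    (h : Tendsto (fun m => r m • (u m - x)) l (𝓝 v)) :
    Tendsto (fun m => r m • (f (u m) - f x)) l (𝓝 (fderiv ℂ f x v)) :=
  rescale (hf.hasFDerivAt.restrictScalars ℝ) hr h

/-- The local data of a limit field at a point of a chart. -/
theorem loc {g : Geo ι} {a : Act g} {ξ : g.Y → ι → ℂ} {l : Filter ℕ} [l.NeBot] {γ : ℕ → a.Γ}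
    {r : ℕ → ℝ}
    (h : ∀ j, ∀ z ∈ (g.c j).target,
      (∃ ρ > 0, ∃ C, ∀ᶠ m in l, ∀ w ∈ ball z ρ, γ m • (g.c j).symm w ∈ (g.c j).source ∧
        ‖r m • (g.T (a.f (γ m)) j j w - w)‖ ≤ C) ∧
      Tendsto (fun m => r m • (g.T (a.f (γ m)) j j z - z)) l (𝓝 (g.cmp ξ j z)))
    (j : g.J) (z : ι → ℂ) (hz : z ∈ (g.c j).target) :
    (∀ᶠ m in l, γ m • (g.c j).symm z ∈ (g.c j).source) ∧ DifferentiableAt ℂ (g.cmp ξ j) z ∧
      Tendsto (fun m => r m • (fderiv ℂ (g.T (a.f (γ m)) j j) z - ContinuousLinearMap.id ℂ _)) l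
        (𝓝 (fderiv ℂ (g.cmp ξ j) z)) := by
  obtain ⟨⟨ρ, hρ, C, hC⟩, -⟩ := h j z hz
  obtain ⟨R, hR, hRs⟩ := Metric.mem_nhds_iff.1
    (inter_mem (ball_mem_nhds z hρ) ((g.c j).open_target.mem_nhds hz))
  have hd : ∀ᶠ m in l, ∀ w ∈ ball z R, DifferentiableAt ℂ (g.T (a.f (γ m)) j j) w := by
    filter_upwards [hC] with m hm w hw
    have h1 := ((a.iso (γ m)).loc j j ((g.c j).symm w) ((g.c j).map_target (hRs hw).2)
      (hm w (hRs hw).1).1).hol
    rwa [(g.c j).right_inv (hRs hw).2] at h1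
  have key := Pool.Agent.Lib.SV.H85.hasFDerivAt_of_tendsto (l := l)
    (f := fun m w => r m • (g.T (a.f (γ m)) j j w - w)) (g := g.cmp ξ j) (c := z) (M := C) hR
    (by
      filter_upwards [hC, hd] with m h1 h2
      refine ⟨fun w hw => ?_, fun w hw => (h1 w (hRs hw).1).2⟩
      exact (((h2 w hw).sub differentiableAt_id).const_smul (r m)).differentiableWithinAt)
    (fun w hw => (h j w (hRs hw).2).2)
  refine ⟨hC.mono fun m hm => (hm z (mem_ball_self hρ)).1, key.1, key.2.congr' ?_⟩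
  filter_upwards [hd] with m hm
  exact ((((hm z (mem_ball_self hR)).hasFDerivAt).sub (hasFDerivAt_id z)).const_smul (r m)).fderiv

/-- Matrix of a linear map. -/
def mat (A : (ι → ℂ) →L[ℂ] (ι → ℂ)) : Matrix ι ι ℂ := Matrix.of fun a b => A (Pi.single b 1) a

theorem mat_cont : Continuous (mat (ι := ι)) := by
  refine continuous_pi fun a => continuous_pi fun b => ?_
  exact (continuous_apply a).comp (ContinuousLinearMap.apply ℂ (ι → ℂ) (Pi.single b 1)).continuous

theorem mat_smul_sub (t : ℝ) (A : (ι → ℂ) →L[ℂ] (ι → ℂ)) :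
    mat (t • (A - ContinuousLinearMap.id ℂ _)) = t • (mat A - 1) := by
  ext a b
  simp [mat, Matrix.one_apply, Pi.single_apply]

theorem mat_id : mat (ContinuousLinearMap.id ℂ (ι → ℂ)) = 1 := by
  ext a b
  simp [mat, Matrix.one_apply, Pi.single_apply]

/-- The Killing equation for the limit. -/
theorem kil {l : Filter ℕ} [l.NeBot] {r : ℕ → ℝ} {G : (ι → ℂ) → Matrix ι ι ℂ}
    {T : ℕ → (ι → ℂ) → ι → ℂ} {X : (ι → ℂ) → ι → ℂ} {z : ι → ℂ} (hG : SmM G z)
    (hr : Tendsto r l atTop) (hi : ∀ᶠ m in l, IsoAt G G (T m) z)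
    (h0 : Tendsto (fun m => r m • (T m z - z)) l (𝓝 (X z)))
    (h1 : Tendsto (fun m => r m • (fderiv ℂ (T m) z - ContinuousLinearMap.id ℂ _)) l
      (𝓝 (fderiv ℂ X z))) : Kil G X z := by
  have hJ1 : Tendsto (fun m => r m • (jm (T m) z - 1)) l (𝓝 (jm X z)) := by
    have := (mat_cont.tendsto _).comp h1
    refine this.congr fun m => ?_
    exact mat_smul_sub _ _
  have hJ : Tendsto (fun m => jm (T m) z) l (𝓝 1) := by
    have := (mat_cont.tendsto _).comp (tend_of_sub hr h1)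
    rw [mat_id] at this
    exact this
  have hT := tend_of_sub hr h0
  have hGd : ∀ a b, DifferentiableAt ℝ (fun w => G w a b) z := fun a b =>
    (hG a b).differentiableAt (by simp)
  have hG0 : Tendsto (fun m => G (T m z)) l (𝓝 (G z)) := by
    refine tendsto_pi_nhds.2 fun a => tendsto_pi_nhds.2 fun b => ?_
    exact (hGd a b).continuousAt.tendsto.comp hT
  have hG1 : Tendsto (fun m => r m • (G (T m z) - G z)) l (𝓝 (dM G z (X z))) := by
    refine tendsto_pi_nhds.2 fun a => tendsto_pi_nhds.2 fun b => ?_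
    exact rescale (hGd a b).hasFDerivAt hr h0
  have hH : Tendsto (fun m => (r m • (jm (T m) z - 1))ᴴ) l (𝓝 (jm X z)ᴴ) :=
    ((continuous_id.matrix_conjTranspose).tendsto _).comp hJ1
  have hs := (((hH.mul hG0).mul hJ).add (hG0.mul hJ1)).add hG1
  rw [Matrix.mul_one] at hs
  refine tendsto_nhds_unique hs (tendsto_const_nhds.congr' ?_)
  filter_upwards [hi] with m hm
  have h2 := hm.iso
  rw [Matrix.conjTranspose_smul, star_trivial, Matrix.conjTranspose_sub, Matrix.conjTranspose_one,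
    Matrix.smul_mul, Matrix.smul_mul, Matrix.mul_smul, ← smul_add, ← smul_add, Matrix.sub_mul,
    Matrix.sub_mul, h2, Matrix.one_mul, Matrix.mul_sub, Matrix.mul_one]
  simp

/-- An element that commutes with the sequence preserves the limit field. -/
theorem inv {g : Geo ι} {a : Act g} {ξ : g.Y → ι → ℂ} {l : Filter ℕ} [l.NeBot] {γ : ℕ → a.Γ}
    {r : ℕ → ℝ} (hr : Tendsto r l atTop)
    (h : ∀ j, ∀ z ∈ (g.c j).target,
      (∃ ρ > 0, ∃ C, ∀ᶠ m in l, ∀ w ∈ ball z ρ, γ m • (g.c j).symm w ∈ (g.c j).source ∧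
        ‖r m • (g.T (a.f (γ m)) j j w - w)‖ ≤ C) ∧
      Tendsto (fun m => r m • (g.T (a.f (γ m)) j j z - z)) l (𝓝 (g.cmp ξ j z)))
    (δ : a.Γ) (hδ : ∀ m, γ m * δ = δ * γ m) (j : g.J) (z : ι → ℂ) (hz : z ∈ (g.c j).target)
    (hs : δ • (g.c j).symm z ∈ (g.c j).source) :
    fderiv ℂ (g.T (a.f δ) j j) z (g.cmp ξ j z) = g.cmp ξ j (g.T (a.f δ) j j z) := by
  have hd : DifferentiableAt ℂ (g.T (a.f δ) j j) z := by
    have h1 := ((a.iso δ).loc j j ((g.c j).symm z) ((g.c j).map_target hz) hs).hol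
    rwa [(g.c j).right_inv hz] at h1
  have h1 := rescaleC hd hr (h j z hz).2
  have h2 := (h j (g.T (a.f δ) j j z) ((g.c j).map_source hs)).2
  refine tendsto_nhds_unique h1 (h2.congr' ?_)
  filter_upwards [(loc h j z hz).1] with m hm
  have h3 : g.T (a.f (γ m)) j j (g.T (a.f δ) j j z) = g.T (a.f δ) j j (g.T (a.f (γ m)) j j z) := by
    simp only [Geo.T, Act.f]
    rw [(g.c j).left_inv hs, (g.c j).left_inv hm, smul_smul, smul_smul, hδ m]
  rw [h3]

end LIM2K

open LIM2K in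
theorem st_LIM2 : St_LIM2 := by
  intro ι _ _ g a P ξ hξ
  obtain ⟨l, γ, r, hl, hP, hr, h⟩ := hξ
  refine ⟨fun j z hz => (loc h j z hz).2.1, fun j z hz => ?_, ?_⟩
  · refine kil (g.met j z hz).sm hr ?_ (h j z hz).2 (loc h j z hz).2.2
    filter_upwards [(loc h j z hz).1] with m hm
    have h1 := (a.iso (γ m)).loc j j ((g.c j).symm z) ((g.c j).map_target hz) hm
    rwa [(g.c j).right_inv hz] at h1
  · rintro hc η ⟨l', δ, r', hl', hP', hr', h'⟩ j z hz
    have h1 := rescaleC (loc h j z hz).2.1 hr' (h' j z hz).2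
    have h2 := ((ContinuousLinearMap.apply ℂ (ι → ℂ) (g.cmp ξ j z)).continuous.tendsto _).comp
      (loc h' j z hz).2.2
    refine tendsto_nhds_unique h1 (h2.congr' ?_)
    filter_upwards [(loc h' j z hz).1] with n hn
    rw [← inv hr h (δ n) (fun m => hc _ _ (hP m) (hP' n)) j z hz hn]
    simp

end Pool.Agent.Lib.HN9
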