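import Pool.Agent.Lib.HN9.R_PT
import Pool.Agent.Lib.HS95.R_LAPB
import Pool.Agent.Lib.HS95.R_IN
import Pool.Agent.Lib.HS95.R_NG2
import Pool.Agent.Lib.HW86.Vol

/-! Project hn, compact leaves: no flat bundle of holomorphic fields transverse to the leaves. -/

open scoped Topology ContDiff ComplexOrder Matrix
open Set Filter Metric Complex MeasureTheory

noncomputable section

namespace Pool.Agent.Lib.HN9

open Pool.Agent.Lib.HS95
open Pool.Agent.Lib.HS32 (Mat Mf pr mTR mINV mMU mCOH mCOV)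
open Pool.Agent.Lib.HS32.Mf

namespace NEG9

open LAPBK

variable {n k : ℕ}

theorem mul_em' {J : Mat n} (h : J * pr k = pr k * J) : J * em n k = em n k * lb k J := by
  ext i a
  rw [mul_em, em_mul_apply]
  split_ifs with hi
  · exact INK.off h ⟨i, hi⟩ a
  · rfl

theorem hj_eq {M : Mf n} {h P : M.Fam (Mat n)} {S : Split (Vk n k) (Hi n k) M.X}
    (L : Lnk M h P k S) {i j : S.I} {w : M.X} (hi : w ∈ (L.ch i).source)
    (hj : w ∈ (L.ch j).source) : S.hj i j w = lb k (M.J (L.ch j) (L.ch i) w) := by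
  have hd := ((mTR n M).2.1 _ (L.mem j) _ (L.mem i) w hj hi).1.self_of_nhds.hasFDerivAt
  have h1 := (spl k).symm.hasFDerivAt.comp (up k (L.ch i w))
    (hasFDerivAt_prodMk_right (𝕜 := ℂ) (lo k (L.ch i w)) (up k (L.ch i w)))
  have h2 := ((upL k).hasFDerivAt.comp _ (HasFDerivAt.comp (up k (L.ch i w))
    (by simpa only [Function.comp_apply, spl_symm, jn_lo_up] using hd) h1)).fderiv
  ext a b
  simp only [Split.hj, jm, L.symm, L.app, Matrix.of_apply]
  refine (congrFun (congrArg (fun T => T (Pi.single b 1)) h2) a).trans ?_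
  have : jn k 0 (Pi.single b (1 : ℂ)) = Pi.single b.1 1 := by
    ext c
    by_cases hc : c.val < k
    · have : c ≠ b.1 := fun e => b.2 (e ▸ hc)
      simp [jn, hc, this]
    · simp [jn, hc, Pi.single_apply, Subtype.ext_iff]
  simp [this, up, lb, Mf.J, HS32.jm]

theorem gram {ρ : ℕ} {G H : Mat n} {X : Matrix (Fin n) (Fin ρ) ℂ} (hG : G.PosDef)
    (h : 0 < (Xᴴ * H * X).det.re) : 0 < (Xᴴ * G * X).det.re := by
  refine HS76.det_re_pos (hG.conjTranspose_mul_mul_same fun u v e => ?_)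
  refine sub_eq_zero.1 (Matrix.eq_zero_of_mulVec_eq_zero (M := Xᴴ * H * X)
    (fun k => by simp [k] at h) ?_)
  rw [← Matrix.mulVec_mulVec, Matrix.mulVec_sub, e, sub_self, Matrix.mulVec_zero]

theorem tr_int {M : Mf n} [M.Cpt] {H B : M.Fam (Mat n)} (hH : M.Kae H) (hB : M.Clo B) {ε : ℝ}
    {u : M.X → ℝ} (hu : M.SolB H B ε u) :
    ∫ x, M.tr (M.gB H B ε u) H x ∂M.mu (M.gB H B ε u) ≤ M.vB H B (ε + 1) := by
  obtain ⟨-, -, -, -, hi, -, hc⟩ := mMU n M H hH.toMet
  have hG := hu.kae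
  have e : (ε + 1) • H + (B - M.ric H) + M.hs u = M.gB H B ε u + H := by
    rw [K88.gB_eq, add_smul, one_smul]
    abel
  have hI := mINV n M H hH.toMet
  rw [(hc _ hG.toMet).2.1, vB, ← mCOH n M H _ u hH.toMet
    ((hH.toClo.smul _).add (K88.clo_tw hH hB)) hu.sm, e]
  refine integral_mono (hi ℝ _ ((hI.1 _ hG.toTen).2.2.2.1.mul
    ((mINV n M _ hG.toMet).1 _ hH.toTen).2.1).continuous)
    (hi ℝ _ (hI.1 _ (hG.toTen.add hH.toTen)).2.2.2.1.continuous) fun x => ?_
  have a1 := (AllOn.ch (hI.2.1 _ hG.toForm) x).2.2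
  have a2 := (AllOn.ch (hI.2.1 _ (hG.toForm.add hH.toForm)) x).2.2
  have a3 := HS76.det_add_ge (hG.toMet.ev_pos x) (hH.toMet.ev_pos x).posSemidef
  have a4 := pd_det_re (hH.toMet.ev_pos x)
  have a5 := (hI.2.2.2.2.2.2.2 _ hG.toMet).1 x
  rw [ch_symm] at a1 a2
  refine le_of_mul_le_mul_right ?_ a4
  simp only [ev, tr, Pi.add_apply] at a1 a2 a3 a4 ⊢
  rw [← a2]
  rw [a1] at a3
  nlinarith [mul_pos a5 a4]

end NEG9

open NEG9 LAPBK NG2K in
theorem st_NEG (h1 : St_NG2) (h2 : St_LOC) (h3 : St_SUB) : St_NEG := by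
  intro n M _ H h P k S hn hH hP hB hN hv L ρ O i Ξ c a hρ hO hhol htr hco x₀ hli
  have hs : ∀ x, ∀ w ∈ O x, w ∈ (L.ch (i x)).source := fun x w hw => L.src _ ▸ (hO x).2.2 hw
  set X : M.X → SV.E n → Matrix (Fin n) (Fin ρ) ℂ := fun x z => em n k * Ξ x (up k z) with hX
  set D : M.Fam (Mat n) → M.X → M.X → ℝ := fun G x w =>
    ((X x (L.ch (i x) w))ᴴ * G (L.ch (i x)) (L.ch (i x) w) * X x (L.ch (i x) w)).det.re with hD
  have hsub := fun G (hG : M.Kae G) x w (hw : w ∈ O x) => fun N B =>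
    h3 n ρ (G (L.ch (i x))) (X x) (L.ch (i x) w) N B (by
      have := hhol x w hw
      rw [L.snd] at this
      filter_upwards [(continuous_up k).continuousAt.eventually this,
        (L.ch (i x)).open_target.mem_nhds ((L.ch (i x)).map_source (hs x w hw))] with z a1 a2
      refine ⟨hG.sm _ (L.mem _) z a2, hG.pos _ (L.mem _) z a2, hG.cl _ (L.mem _) z a2,
        fun p q => ?_⟩
      simp only [hX, em_mul_apply]
      split_ifs with hp
      · exact differentiableAt_const _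
      · exact (a1 _ q).comp z (upL k).differentiableAt)
  have hev : ∀ G x w, w ∈ O x → D G x ∘ (L.ch (i x)).symm =ᶠ[𝓝 (L.ch (i x) w)]
      fun z => ((X x z)ᴴ * G (L.ch (i x)) z * X x z).det.re := fun G x w hw => by
    filter_upwards [(L.ch (i x)).open_target.mem_nhds ((L.ch (i x)).map_source (hs x w hw))]
      with z hz
    simp only [hD, Function.comp_apply, (L.ch (i x)).right_inv hz]
  have hsm : ∀ G, M.Kae G → ∀ x, ∀ w ∈ O x, SmAt M (D G x) w := fun G hG x w hw =>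
    ⟨_, L.mem _, hs x w hw, (hsub G hG x w hw 0 0).1.congr_of_eventuallyEq (hev G x w hw)⟩
  have hch : ∀ G, M.Ten G → ∀ x x' w, w ∈ O x → w ∈ O x' →
      D G x' w = Real.exp (a x x' w) * D G x w := fun G hG x x' w hw hw' => by
    obtain ⟨-, a1, a2⟩ := htr x x' w hw hw'
    have a3 := hP.cmp _ (L.mem (i x')) _ (L.mem (i x)) w (hs _ _ hw') (hs _ _ hw)
    have a4 := hG.cmp _ (L.mem (i x')) _ (L.mem (i x)) w (hs _ _ hw') (hs _ _ hw)
    beta_reduce at a3 a4
    rw [(L.prod _).prj _ ((L.ch _).map_source (hs _ _ hw)),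
      (L.prod _).prj _ ((L.ch _).map_source (hs _ _ hw'))] at a3
    rw [hj_eq L (hs _ _ hw) (hs _ _ hw'), L.snd, L.snd] at a2
    have a5 : M.J (L.ch (i x')) (L.ch (i x)) w * X x (L.ch (i x) w) =
        X x' (L.ch (i x') w) * (c x x' w).map ((↑) : ℝ → ℂ) := by
      simp only [hX]
      rw [← Matrix.mul_assoc, mul_em' a3, Matrix.mul_assoc, a2, Matrix.mul_assoc]
    have a6 : ((c x x' w).map ((↑) : ℝ → ℂ)).det = ((c x x' w).det : ℝ) :=
      (Complex.ofRealHom.map_det _).symm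
    have a7 : ∀ (J G' : Mat n) (Y : Matrix (Fin n) (Fin ρ) ℂ),
        Yᴴ * (Jᴴ * G' * J) * Y = (J * Y)ᴴ * G' * (J * Y) := fun J G' Y => by
      simp only [Matrix.conjTranspose_mul, Matrix.mul_assoc]
    have a8 : ∀ (G' : Mat n) (Y : Matrix (Fin n) (Fin ρ) ℂ) (C : Matrix (Fin ρ) (Fin ρ) ℂ),
        (Y * C)ᴴ * G' * (Y * C) = Cᴴ * (Yᴴ * G' * Y) * C := fun G' Y C => by
      simp only [Matrix.conjTranspose_mul, Matrix.mul_assoc]
    simp only [hD]
    rw [a4, a7, a5, a8, Matrix.det_mul (_ * _) (Matrix.map _ _), Matrix.det_mul (Matrix.map _ _)ᴴ,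
      Matrix.det_conjTranspose, a6, Complex.re_mul_ofReal, Complex.star_def, Complex.conj_ofReal,
      Complex.re_ofReal_mul]
    linear_combination (-(_ : ℝ)) * a1
  have h0 : 0 < D H x₀ x₀ := by
    refine HS76.det_re_pos ((AllOn.at hH.pos (L.mem _)
      (hs _ _ (hO x₀).2.1)).conjTranspose_mul_mul_same fun u v e => ?_)
    rw [L.snd] at hli
    refine Matrix.mulVec_injective_iff.2 hli ?_
    have e1 : (em n k)ᴴ * X x₀ (L.ch (i x₀) x₀) = Ξ x₀ (up k (L.ch (i x₀) x₀)) := by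
      ext p q
      rw [em_mul]
      exact (em_mul_apply k _ _ _).trans (dif_neg p.2)
    rw [← e1, ← Matrix.mulVec_mulVec, e, Matrix.mulVec_mulVec]
  obtain ⟨U, u1, u2, u3⟩ := mem_nhds_iff.1 (((smAt_cont (hsm H hH x₀ x₀ (hO x₀).2.1)).eventually
    (lt_mem_nhds h0)).and ((hO x₀).1.mem_nhds (hO x₀).2.1))
  obtain ⟨κ, k1, k2, k3, k4⟩ := (mCOV n M).2.2.2.2.2 {x₀} U isClosed_singleton u2
    (singleton_subset_iff.2 u3)
  obtain ⟨c₀, c0, hc⟩ := PT9.fam hn hH hB hN hv
  obtain ⟨C, -, hC⟩ := K88.phi hH hB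
  obtain ⟨-, hf, ho, -, -, -, hm⟩ := mMU n M H hH.toMet
  have t1 : Tendsto (fun ε : ℝ => ε * M.vB H (h * P) (ε + 1)) (𝓝 0)
      (𝓝 (0 * M.vB H (h * P) (0 + 1))) :=
    (continuous_id.mul ((K88.vol_cont hH.toMet (K88.clo_tw hH hB).toForm).comp
      (continuous_add_const 1))).tendsto 0
  rw [zero_mul] at t1
  have := W86.vanish (M.mu H) k1.continuous (fun x => (k2 x).1) (C := C) (fun δ hδ => by
    obtain ⟨ε, ⟨u, hu, ha⟩, h4, hε⟩ := (hc.and (((t1.eventually (gt_mem_nhds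
      (mul_pos c0 hδ))).filter_mono nhdsWithin_le_nhds).and
        (Ioc_mem_nhdsGT (zero_lt_one' ℝ)))).exists
    obtain ⟨A, hA, -⟩ := hC ε hε u hu
    have hG := hu.kae
    have hI := (mINV n M _ hG.toMet).1 _ (hH.toTen.smul ε)
    have q := h1 n M _ hG 1 (M.tr (M.gB H (h * P) ε u) (ε • H)) κ O (D _) a zero_le_one
      hI.2.1.continuous (hG.toMet.tr_nonneg (hH.toMet.smul hε.1).nonneg)
      (fun x => ⟨(hO x).1, (hO x).2.1⟩)
      (fun x x' w hw hw' => ⟨(htr x x' w hw hw').1, hch _ hG.toTen x x' w hw hw'⟩) hco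
      (fun x w hw => ⟨(Complex.le_def.1 ((AllOn.at hG.pos (L.mem _)
        (hs x w hw)).posSemidef.conjTranspose_mul_mul_same _).det_nonneg).1, hsm _ hG x w hw,
        fun d0 => ?_⟩) k1.continuous fun x => ⟨(k2 x).1, (k2 x).2, fun hx => ?_⟩
    · refine ⟨fun x => u x - A, hu.sm.continuous.sub continuous_const, ?_, hA.sub⟩
      rw [one_mul, (hm _ hG.toMet).2.1] at q
      simp only [hu.det, tr_smul] at q
      rw [integral_const_mul] at q
      simp only [Real.exp_sub, div_mul_eq_mul_div]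
      rw [integral_div, div_le_iff₀' (Real.exp_pos _)]
      have q2 := mul_le_mul_of_nonneg_left (tr_int hH hB hu) hε.1.le
      have q3 := mul_le_mul_of_nonneg_right (ha A hA.le) hδ.le
      linarith
    · have hz := (L.ch (i x)).map_source (hs x w hw)
      rw [((h2 n M _ hG.toMet w fun y => Real.log (D _ x y)).2 (by
        filter_upwards [(hO x).1.mem_nhds hw, (smAt_cont (hsm _ hG x w hw)).eventually
          (lt_mem_nhds d0)] with y a1 a2 using smAt_log (hsm _ hG x y a1) a2.ne')).2 _ (L.mem _)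
        (hs x w hw), hI.1.at (L.mem _) (hs x w hw)]
      have r := (hsub _ hG x w hw ((ε • H) _ _) ((h * P) _ _)).2
        (pd_rsmul (hH.pos _ (L.mem _) _ hz) hε.1).posSemidef
        (by
          simp only [hX, Pi.mul_apply]
          rw [(L.prod _).prj _ hz, Matrix.mul_assoc, ← Matrix.mul_assoc (pr k), pr_em,
            Matrix.zero_mul, Matrix.mul_zero])
        (by
          have := GH.G34.sol_ric hH hu _ (L.mem (i x)) _ hz
          exact (neg_eq_iff_eq_neg.1 this).trans (neg_sub _ _)) d0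
      rw [← HS32.hess_congr (f := M.lc (fun y => Real.log (D (M.gB H (h * P) ε u) x y)) _)
        ((hev _ x w hw).mono fun z e => congrArg (fun t => ((Real.log t : ℝ) : ℂ)) e)] at r
      have : (1 : ℝ) ≤ ρ := Nat.one_le_cast.2 hρ
      linarith
    · obtain ⟨a1, a2⟩ := u1 (k4 (subset_tsupport _ hx))
      rw [hch _ hG.toTen x₀ x x a2 (hO x).2.1]
      exact mul_pos (Real.exp_pos _) (gram (AllOn.at hG.pos (L.mem _) (hs _ _ a2)) a1)) x₀
  rw [k3.self_of_nhdsSet x₀ rfl] at this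
  linarith

end Pool.Agent.Lib.HN9
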