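import Pool.Agent.Lib.HN9.Blue2
import Pool.Agent.Lib.HS95.R_NG1
import Pool.Agent.Lib.HS95.R_NG2

/-! Project hn, compact leaves: the integral argument. -/

open scoped Topology ContDiff ComplexOrder Matrix
open Set Filter Metric Complex MeasureTheory

set_option linter.unusedVariables false

noncomputable section

namespace Pool.Agent.Lib.HN9

open Pool.Agent.Lib.HS95
open Pool.Agent.Lib.SV (E)
open Pool.Agent.Lib.HS32 (Mat Mf pr nq hess dz dzb HolN ClM)

theorem NGK.lim1 {a : ℝ} (ha : 0 < a) :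
    Tendsto (fun j : ℕ => a / (a + 1 / ((j : ℝ) + 1))) atTop (𝓝 1) := by
  have h1 : Tendsto (fun j : ℕ => a / (a + 1 / ((j : ℝ) + 1))) atTop (𝓝 (a / (a + 0))) :=
    tendsto_const_nhds.div (tendsto_const_nhds.add tendsto_one_div_add_atTop_nhds_zero_nat)
      (by rw [add_zero]; exact ha.ne')
  rwa [add_zero, div_self ha.ne'] at h1

open NG1K in
theorem st_NG1 (h1 : St_NG0) (h2 : St_LOC) (hL : HS32.St_LAP) (hG : HS32.St_GRN)
    (hM : HS32.St_MU) : St_NG1 := by
  intro n M _ G t F b κ c hK ht hF h0 hc hb b0 hlap hκ κ0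
  obtain ⟨s1, s2, s3⟩ := h1 n M G t hK ht
  obtain ⟨-, hfin, hop, -, hint, -⟩ := hM n M G hK.toMet
  obtain ⟨D, hD, hbd⟩ := s2.exists_bound
  have hI : ∀ f : M.X → ℝ, M.Sm f → Integrable f (M.mu G) := fun f hf => hint ℝ f hf.continuous
  have hne : ∀ η : ℝ, 0 < η → ∀ y, F y + η ≠ 0 := fun η h y =>
    (add_pos_of_nonneg_of_pos (h0 y) h).ne'
  have hp : ∀ η : ℝ, 0 < η → M.Sm fun y => F y / (F y + η) := fun η h =>
    hF.div (hF.add (Mf.sm_const η)) (hne η h)
  have hq : ∀ η : ℝ, 0 < η → M.Sm fun y => F y / (F y + η) * (1 - F y / (F y + η)) := fun η h =>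
    (hp η h).mul ((Mf.sm_const 1).sub (hp η h))
  have hr : ∀ η : ℝ, 0 < η → Continuous fun x => c * (κ x * (F x / (F x + η))) -
      D / 4 * (F x / (F x + η) * (1 - F x / (F x + η))) := fun η h =>
    (continuous_const.mul (hκ.mul (hp η h).continuous)).sub
      (continuous_const.mul (hq η h).continuous)
  have key : ∀ η : ℝ, 0 < η → ∫ x, (c * (κ x * (F x / (F x + η))) -
      D / 4 * (F x / (F x + η) * (1 - F x / (F x + η)))) ∂M.mu G ≤ ∫ x, b x ∂M.mu G := by
    intro η h
    have hu : M.Sm fun y => Real.log (F y + η) := (hF.add (Mf.sm_const η)).log (hne η h)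
    have su := ((hL n M _ _ hu hu).2.2 G hK.toMet).1
    obtain ⟨s4, e1⟩ := s3 _ (hp η h)
    have e2 := ((hG n M).2 G _ _ hK hu hu).1
    have i1 := hI _ su
    have i2 := hI _ ((hp η h).mul s1)
    have i3 := hI _ s4
    have i4 := hint ℝ _ (hr η h)
    have i5 := hint ℝ _ hb
    have e3 : ∫ x, (M.lap G (fun y => Real.log (F y + η)) x - F x / (F x + η) * M.lap G (t x) x -
        M.gr G (t x) (fun y => F y / (F y + η)) x) ∂M.mu G = 0 := by
      rw [integral_sub (hI _ (su.sub ((hp η h).mul s1))) i3, integral_sub i1 i2, e1, e2]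
      ring
    have e4 := integral_mono (i4.sub i5) ((i1.sub i2).sub i3) fun x => by
      have a1 := pt h2 hL hK.toMet (ht.sm x) hF h0 h (hlap x)
      obtain ⟨q0, q1⟩ := quot_mem (h0 x) h
      have a2 := mul_le_mul_of_nonneg_left (mul_le_of_le_one_left q0 (κ0 x).2.1) hc
      have a3 := mul_le_of_le_one_right (b0 x) q1
      have a4 := mul_le_mul_of_nonneg_left ((le_abs_self _).trans (hbd x))
        (mul_nonneg q0 (sub_nonneg.2 q1))
      simp only [Pi.sub_apply]
      nlinarith [a1, a2, a3, a4]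
    simp only [Pi.sub_apply] at e4
    rw [e3, integral_sub i4 i5] at e4
    linarith
  have hpos : ∀ j : ℕ, (0 : ℝ) < 1 / ((j : ℝ) + 1) := fun j => by positivity
  have hT := tendsto_integral_of_dominated_convergence (μ := M.mu G)
    (F := fun (j : ℕ) x => c * (κ x * (F x / (F x + 1 / ((j : ℝ) + 1)))) -
      D / 4 * (F x / (F x + 1 / ((j : ℝ) + 1)) * (1 - F x / (F x + 1 / ((j : ℝ) + 1)))))
    (f := fun x => c * κ x) (fun _ => c + D / 4) (fun j => (hr _ (hpos j)).aestronglyMeasurable)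
    (integrable_const _)
    (fun j => Eventually.of_forall fun x => by
      obtain ⟨q0, q1⟩ := quot_mem (h0 x) (hpos j)
      generalize F x / (F x + 1 / ((j : ℝ) + 1)) = p at q0 q1
      have a1 := mul_nonneg hc (mul_nonneg (κ0 x).1 q0)
      have a2 := mul_le_of_le_one_right hc (mul_le_one₀ (κ0 x).2.1 q0 q1)
      have a3 := mul_nonneg hD.le (mul_nonneg q0 (sub_nonneg.2 q1))
      have a4 := mul_le_of_le_one_right hD.le (mul_le_one₀ q1 (sub_nonneg.2 q1) (by linarith))
      rw [Real.norm_eq_abs, abs_le]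
      constructor <;> linarith)
    (Eventually.of_forall fun x => by
      have a1 := (lim (h0 x)).const_mul (D / 4)
      have a2 : Tendsto (fun j : ℕ => c * (κ x * (F x / (F x + 1 / ((j : ℝ) + 1))))) atTop
          (𝓝 (c * κ x)) := by
        by_cases hx : κ x = 0
        · simp only [hx, zero_mul, mul_zero]
          exact tendsto_const_nhds
        · simpa only [mul_one] using ((NGK.lim1 ((κ0 x).2.2 hx)).const_mul (κ x)).const_mul c
      simpa only [mul_zero, sub_zero] using a2.sub a1)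
  rw [integral_const_mul] at hT
  exact le_of_tendsto' hT fun j => key _ (hpos j)

open NG2K in
theorem st_NG2 (h1 : St_NG1) (h2 : St_LOC) (hL : HS32.St_LAP) (hV : HS32.St_COV)
    (hT : HS32.St_TR) : St_NG2 := by
  intro n M _ G hG c b₀ κ O D a hc hb b0 hO ha hco hD hκ κ0
  have hOn : ∀ x, ∀ w ∈ O x, ∀ᶠ y in 𝓝 w, y ∈ O x := fun x w hw => (hO x).1.mem_nhds hw
  obtain ⟨V, hV⟩ := (hV n M).2.1 M.C O Mf.sub_all fun x => hOn x x (hO x).2
  choose p hp using fun b => (hV b).2
  set τ : M.X → M.X → ℝ := fun x w => ∑ b, V.χ b w ^ 2 * a x (p b) w with hτ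
  have hadd : ∀ x x' w, w ∈ O x → w ∈ O x' → τ x w = a x x' w + τ x' w := by
    intro x x' w hw hw'
    rw [← one_mul (a x x' w), ← V.sum w, Finset.sum_mul, ← Finset.sum_add_distrib]
    refine Finset.sum_congr rfl fun b _ => ?_
    by_cases h : w ∈ O (p b)
    · rw [hco x x' (p b) w hw hw' h, mul_add]
    · rw [(chi_ev V b fun h' => h (hp b h')).self_of_nhds]; simp
  have hsm : ∀ x, ∃ g, M.Sm g ∧ τ x =ᶠ[𝓝 x] g := by
    intro x
    refine ⟨fun w => ∑ b, V.χ b w ^ 2 * a x (p b) x,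
      Mf.Sm.sum fun b _ => ((V.sm b).pow 2).mul (Mf.sm_const _), ?_⟩
    have : ∀ b, ∀ᶠ w in 𝓝 x, V.χ b w ^ 2 * a x (p b) w = V.χ b w ^ 2 * a x (p b) x := by
      intro b
      by_cases h : x ∈ O (p b)
      · exact (ha x (p b) x (hO x).2 h).1.mono fun w hw => by rw [hw]
      · exact (chi_ev V b fun h' => h (hp b h')).mono fun w hw => by rw [hw]; simp
    exact (eventually_all.2 this).mono fun w hw => Finset.sum_congr rfl fun b _ => hw b
  choose t ht hte using hsm
  have hF : ∀ x, ∀ᶠ w in 𝓝 x, D w w * Real.exp (τ w w) = D x w * Real.exp (t x w) := by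
    intro x
    filter_upwards [hOn x x (hO x).2, hte x] with w hw he
    rw [← he, hadd x w w hw (hO w).2, (ha x w w hw (hO w).2).2, Real.exp_add]
    ring
  refine h1 n M G t (fun w => D w w * Real.exp (τ w w)) b₀ κ c hG ⟨ht, fun x => ?_⟩ ?_
    (fun x => mul_nonneg (hD x x (hO x).2).1 (Real.exp_pos _).le) hc hb b0 ?_ hκ fun x =>
      ⟨(κ0 x).1, (κ0 x).2.1, fun h => mul_pos ((κ0 x).2.2 h) (Real.exp_pos _)⟩
  · filter_upwards [hOn x x (hO x).2, (hte x).eventually_nhds] with w hw he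
    refine ⟨-a x w w, ?_⟩
    filter_upwards [he, hte w, hOn x w hw, hOn w w (hO w).2, (ha x w w hw (hO w).2).1]
      with y e1 e2 e3 e4 e5
    rw [← e1, ← e2, hadd x w y e3 e4, e5]
    ring
  · refine ((hT n M).2.2.2.1 ℝ _).2.2 fun x => ?_
    obtain ⟨e, he, hx, h⟩ := (hD x x (hO x).2).2.1
    exact ⟨e, he, hx, (h.mul ((ht x).exp e he _ (e.map_source hx))).congr_of_eventuallyEq
      (ev_symm hx (hF x))⟩
  · intro x hx
    have h0 : 0 < D x x := (mul_pos_iff_of_pos_right (Real.exp_pos _)).1 hx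
    have hpos : ∀ᶠ w in 𝓝 x, 0 < D x w :=
      (smAt_cont (hD x x (hO x).2).2.1).eventually (lt_mem_nhds h0)
    obtain ⟨⟨g, hg, hge⟩, -⟩ := (h2 n M G hG.toMet x fun y => Real.log (D x y)).2 (by
      filter_upwards [hOn x x (hO x).2, hpos] with w hw h using smAt_log (hD x w hw).2.1 h.ne')
    have e1 := ((h2 n M G hG.toMet x _).1 g hge).1
    have e2 := ((h2 n M G hG.toMet x fun y => Real.log (D y y * Real.exp (τ y y))).1
      (fun y => g y + t x y) (by
        filter_upwards [hF x, hpos, hge] with w e3 e4 e5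
        rw [e3, Real.log_mul e4.ne' (Real.exp_pos _).ne', Real.log_exp, ← e5])).1
    have e3 := (((hL n M g (t x) hg (ht x)).2.2 G hG.toMet).2.2.1 x 0).2.1
    have e4 := (hD x x (hO x).2).2.2 h0
    rw [e2, e3, ← e1]
    linarith

end Pool.Agent.Lib.HN9
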