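import Pool.Agent.Lib.HN9.Kit

/-! Project hn, compact leaves: there is no bad family. -/

open scoped Topology ContDiff ComplexOrder Matrix
open Set Filter Metric Complex

set_option linter.unusedVariables false

noncomputable section

namespace Pool.Agent.Lib.HN9

open Pool.Agent.Lib.HS95

namespace NODK

variable {ι : Type} [Fintype ι] [DecidableEq ι]

variable (g : Geo ι) {ρ : ℕ} (ξ : Fin ρ → g.Y → ι → ℂ)

/-- The fields in the preferred chart. -/
def X0 (y : g.Y) : Matrix ι (Fin ρ) ℂ := Matrix.of fun a s => ξ s y a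

/-- The fields in the chart `j`. -/
def Xc (j : g.J) (w : ι → ℂ) : Matrix ι (Fin ρ) ℂ := Matrix.of fun a s => g.cmp (ξ s) j w a

/-- The Gram matrix. -/
def Gr (y : g.Y) : Matrix (Fin ρ) (Fin ρ) ℂ :=
  (X0 g ξ y)ᴴ * g.G (g.pc y) (g.c (g.pc y) y) * X0 g ξ y

theorem mul_X0 (φ : (ι → ℂ) → ι → ℂ) (z : ι → ℂ) (y : g.Y) (a : ι) (s : Fin ρ) :
    (jm φ z * X0 g ξ y) a s = fderiv ℂ φ z (ξ s y) a := by
  rw [← jm_mulVec]
  simp [X0, Matrix.mul_apply, Matrix.mulVec, dotProduct]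

theorem gram_chart (j : g.J) (w : ι → ℂ) (hw : w ∈ (g.c j).target) :
    (Xc g ξ j w)ᴴ * g.G j w * Xc g ξ j w = Gr g ξ ((g.c j).symm w) := by
  set y := (g.c j).symm w with hy
  have hys : y ∈ (g.c j).source := (g.c j).map_target hw
  have hiso := (g.chg (g.pc y) j y (g.pc_mem y) hys).iso
  have h1 : g.c j ((g.c (g.pc y)).symm (g.c (g.pc y) y)) = w := by
    rw [(g.c (g.pc y)).left_inv (g.pc_mem y), hy, (g.c j).right_inv hw]
  simp only [h1] at hiso
  have h2 : Xc g ξ j w =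
      jm (fun z => g.c j ((g.c (g.pc y)).symm z)) (g.c (g.pc y) y) * X0 g ξ y := by
    ext a s
    rw [mul_X0]
    rfl
  rw [h2, Gr, ← hiso, Matrix.conjTranspose_mul]
  simp only [Matrix.mul_assoc]

theorem Xc_pc (y : g.Y) : Xc g ξ (g.pc y) (g.c (g.pc y) y) = X0 g ξ y := by
  ext a s
  have h0 : (g.c (g.pc y)).symm (g.c (g.pc y) y) = y := (g.c (g.pc y)).left_inv (g.pc_mem y)
  have h1 : g.T id (g.pc y) (g.pc y) =ᶠ[𝓝 (g.c (g.pc y) y)] id := by
    filter_upwards [(g.c (g.pc y)).open_target.mem_nhds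
      ((g.c (g.pc y)).map_source (g.pc_mem y))] with w hw
    exact (g.c (g.pc y)).right_inv hw
  simp only [Xc, X0, Matrix.of_apply, Geo.cmp, h0]
  rw [h1.fderiv_eq, fderiv_id]
  rfl

theorem gram_act (a : Act g) (γ : a.Γ) (c : Fin ρ → Fin ρ → ℝ)
    (hc : ∀ s, a.push γ (ξ s) = ∑ t, c s t • ξ t) (y : g.Y) :
    (Gr g ξ y).det.re = (Matrix.of c).det ^ 2 * (Gr g ξ (γ • y)).det.re := by
  have hiso := ((a.iso γ).loc (g.pc y) (g.pc (γ • y)) y (g.pc_mem y) (g.pc_mem _)).iso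
  have h1 : g.T (fun y => γ • y) (g.pc y) (g.pc (γ • y)) (g.c (g.pc y) y)
      = g.c (g.pc (γ • y)) (γ • y) := by
    simp only [Geo.T]
    rw [(g.c (g.pc y)).left_inv (g.pc_mem y)]
  rw [h1] at hiso
  set C : Matrix (Fin ρ) (Fin ρ) ℂ := ((Matrix.of c)ᵀ).map ((↑) : ℝ → ℂ) with hC
  have h2 : jm (g.T (fun y => γ • y) (g.pc y) (g.pc (γ • y))) (g.c (g.pc y) y) * X0 g ξ y
      = X0 g ξ (γ • y) * C := by
    ext b s
    rw [mul_X0]
    have h3 := congrFun (congrFun (hc s) (γ • y)) b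
    simp only [Act.push, inv_smul_smul] at h3
    refine h3.trans ?_
    simp [X0, hC, Matrix.mul_apply, Finset.sum_apply, mul_comm]
  have h4 : Gr g ξ y = Cᴴ * Gr g ξ (γ • y) * C := by
    rw [Gr, ← hiso, Gr]
    calc _ = (jm (g.T (fun y => γ • y) (g.pc y) (g.pc (γ • y))) (g.c (g.pc y) y) * X0 g ξ y)ᴴ *
          g.G (g.pc (γ • y)) (g.c (g.pc (γ • y)) (γ • y)) *
          (jm (g.T (fun y => γ • y) (g.pc y) (g.pc (γ • y))) (g.c (g.pc y) y) * X0 g ξ y) := by
            rw [Matrix.conjTranspose_mul]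
            simp only [Matrix.mul_assoc]
      _ = _ := by
            rw [h2, Matrix.conjTranspose_mul]
            simp only [Matrix.mul_assoc]
  have h5 : C.det = (((Matrix.of c).det : ℝ) : ℂ) := by
    rw [hC, ← Matrix.det_transpose (Matrix.of c)]
    exact (Complex.ofRealHom.map_det _).symm
  rw [h4, Matrix.det_mul, Matrix.det_mul, Matrix.det_conjTranspose, h5]
  simp
  ring

/-- The character attached to an invariant family. -/
theorem char (a : Act g) (c : a.Γ → Fin ρ → Fin ρ → ℝ)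
    (hc : ∀ γ s, a.push γ (ξ s) = ∑ t, c γ s t • ξ t) {y₁ : g.Y}
    (hy : LinearIndependent ℂ fun s => ξ s y₁) : ∃ χ : a.Γ → ℝ,
    (∀ γ δ, χ (γ * δ) = χ γ + χ δ) ∧ (∀ γ, Real.exp (χ γ) * (Matrix.of (c γ)).det ^ 2 = 1) ∧
    ∀ (γ : a.Γ) j, γ • y₁ ∈ (g.c j).source →
      LinearIndependent ℂ fun q p => Xc g ξ j (g.c j (γ • y₁)) p q := by
  have hpos : 0 < (Gr g ξ y₁).det.re :=
    (Complex.lt_def.1 ((g.met _ _ ((g.c _).map_source (g.pc_mem y₁))).pos.conjTranspose_mul_mul_same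
      (B := X0 g ξ y₁) (Matrix.mulVec_injective_iff.2 hy)).det_pos).1
  have hact := fun γ => gram_act g ξ a γ (c γ) (hc γ)
  have he : ∀ γ, 0 < (Matrix.of (c γ)).det ^ 2 := fun γ => by
    rcases (sq_nonneg (Matrix.of (c γ)).det).eq_or_lt with h | h
    · have := hact γ y₁
      rw [← h, zero_mul] at this
      exact absurd this hpos.ne'
    · exact h
  have hinv : ∀ (γ : a.Γ) y, (Gr g ξ (γ • y)).det.re =
      Real.exp (-Real.log ((Matrix.of (c γ)).det ^ 2)) * (Gr g ξ y).det.re := fun γ y => by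
    rw [Real.exp_neg, Real.exp_log (he γ), hact γ y, ← mul_assoc, inv_mul_cancel₀ (he γ).ne',
      one_mul]
  refine ⟨fun γ => -Real.log ((Matrix.of (c γ)).det ^ 2), fun γ δ => ?_, fun γ => ?_,
    fun γ j hj => ?_⟩
  · apply Real.exp_injective
    have h2 := hinv (γ * δ) y₁
    rw [mul_smul, hinv γ, hinv δ, ← mul_assoc, ← Real.exp_add] at h2
    exact (mul_right_cancel₀ hpos.ne' h2).symm
  · rw [Real.exp_neg, Real.exp_log (he γ), inv_mul_cancel₀ (he γ).ne']
  · have h1 := gram_chart g ξ j _ ((g.c j).map_source hj)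
    rw [(g.c j).left_inv hj] at h1
    have h2 : (Gr g ξ (γ • y₁)).det ≠ 0 := fun h => by
      have := hinv γ y₁
      rw [h, Complex.zero_re] at this
      exact (mul_pos (Real.exp_pos _) hpos).ne this
    rw [← h1] at h2
    refine (Matrix.mulVec_injective_iff (M := Xc g ξ j (g.c j (γ • y₁)))).1 fun u u' hu => ?_
    refine (Matrix.mulVec_injective_iff_isUnit.2
      ((Matrix.isUnit_iff_isUnit_det _).2 h2.isUnit)) ?_
    simp only [← Matrix.mulVec_mulVec, hu]

end NODK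

open NODK in
theorem st_NOD (h1 : St_PC) : St_NOD := by
  intro V ι X _ _ _ _ _ _ _ _ S g T D hN ⟨ρ, ξ, hρ, hhol, hpush, y₀, hy₀⟩
  choose c hc using hpush
  obtain ⟨χ, hχ, hχ', hli⟩ := char g ξ T.toAct c hc hy₀
  obtain ⟨hfree, hloc, -, -⟩ := h1 V ι X S g T D
  choose i hi using S.cov
  choose B v j hG ht hq using fun x => D.sec (i x) x (hi x)
  let s : X → X → V × g.Y := fun x w =>
    (B x (S.e (i x) w).1 + v x, (g.c (j x)).symm (S.e (i x) w).2)
  let O : X → Set X := fun x => interior {w | w ∈ (S.e (i x)).source ∧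
    (S.e (i x) w).2 ∈ (g.c (j x)).target ∧ D.q (s x w) = w}
  have hO : ∀ x w, w ∈ O x → w ∈ (S.e (i x)).source ∧
      (S.e (i x) w).2 ∈ (g.c (j x)).target ∧ D.q (s x w) = w := fun x w h =>
    interior_subset (s := {w | w ∈ (S.e (i x)).source ∧
      (S.e (i x) w).2 ∈ (g.c (j x)).target ∧ D.q (s x w) = w}) h
  have hOn : ∀ x w, w ∈ O x → ∀ᶠ w' in 𝓝 w, w' ∈ O x := fun x w h =>
    isOpen_interior.mem_nhds h
  have hmem : ∀ x, x ∈ O x := fun x => by
    refine mem_interior_iff_mem_nhds.2 ?_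
    have h2 : ∀ᶠ w in 𝓝 x, w ∈ (S.e (i x)).source := (S.e (i x)).open_source.mem_nhds (hi x)
    have h3 : ∀ᶠ w in 𝓝 x, (S.e (i x) w).2 ∈ (g.c (j x)).target :=
      ((S.e (i x)).continuousAt (hi x)).snd.eventually ((g.c (j x)).open_target.mem_nhds (ht x))
    exact h2.and (h3.and (hq x))
  have hs : ∀ x w, w ∈ O x → ContinuousAt (s x) w := fun x w h => by
    obtain ⟨h2, h3, -⟩ := hO x w h
    have h4 := (S.e (i x)).continuousAt h2
    exact (((B x).continuous.continuousAt.comp h4.fst).add continuousAt_const).prodMk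
      (ContinuousAt.comp (f := fun w => (S.e (i x) w).2)
        ((g.c (j x)).continuousAt_symm h3) h4.snd)
  have hex : ∀ x x' w, ∃ γ : T.Γ, w ∈ O x → w ∈ O x' → s x' w = T.mv γ (s x w) := by
    intro x x' w
    by_cases h : w ∈ O x ∧ w ∈ O x'
    · obtain ⟨γ, hγ⟩ := D.orb (s x w) (s x' w)
        ((hO x w h.1).2.2.trans (hO x' w h.2).2.2.symm)
      exact ⟨γ, fun _ _ => hγ⟩
    · exact ⟨1, fun h2 h3 => (h ⟨h2, h3⟩).elim⟩
  choose γ hγ using hex
  have hmul : ∀ (α β : T.Γ) p, T.mv (α * β) p = T.mv α (T.mv β p) := fun α β p => by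
    simp only [Tr.mv, T.bmul, map_mul, LinearIsometryEquiv.coe_mul, Function.comp_apply, map_add,
      mul_smul]
    congr 1
    abel
  have hev : ∀ x x' w, w ∈ O x → w ∈ O x' → ∀ᶠ w' in 𝓝 w, s x' w' = T.mv (γ x x' w) (s x w') :=
    fun x x' w h h' => hloc (s x) (s x') w (γ x x' w) (hs x w h) (hs x' w h')
      (((hOn x w h).and (hOn x' w h')).mono fun w' h3 =>
        ⟨(hO x w' h3.1).2.2, (hO x' w' h3.2).2.2⟩) (hγ x x' w h h')
  have key := hN ρ O i (fun x => Xc g ξ (j x)) (fun x x' w => (Matrix.of (c (γ x x' w)))ᵀ)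
    (fun x x' w => χ (γ x x' w)) hρ
    (fun x => ⟨isOpen_interior, hmem x, fun w h => (hO x w h).1⟩) ?_ ?_ ?_
  · obtain ⟨δ, hδ⟩ := D.orb (0, y₀) (s (D.q (0, y₀)) (D.q (0, y₀)))
      (hO _ _ (hmem _)).2.2.symm
    have h2 := key (D.q (0, y₀))
    have h3 : (g.c (j (D.q (0, y₀)))).symm (S.e (i (D.q (0, y₀))) (D.q (0, y₀))).2 = δ • y₀ :=
      congrArg Prod.snd hδ
    have h4 := hli δ (j (D.q (0, y₀))) (h3 ▸ (g.c _).map_target (ht _))
    rw [← h3, (g.c _).right_inv (ht _)] at h4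
    exact h2 h4
  · intro x w h
    filter_upwards [g.ev_target (hO x w h).2.1] with z hz p q
    exact differentiableAt_pi.1 (hhol q (j x) z hz) p
  · intro x x' w h h'
    refine ⟨?_, by rw [Matrix.det_transpose]; exact hχ' _, ?_⟩
    · filter_upwards [hev x x' w h h', hOn x w h, hOn x' w h'] with w' h3 h4 h5
      rw [hfree _ _ _ ((hγ x x' w' h4 h5).symm.trans h3)]
    · obtain ⟨a1, a2, -⟩ := hO x w h
      obtain ⟨b1, b2, -⟩ := hO x' w h'
      have e1 : S.hj (i x) (i x') w =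
          jm (g.T (T.toAct.f (γ x x' w)) (j x) (j x')) (S.e (i x) w).2 := by
        refine jm_congr ?_
        have t0 : Tendsto (fun y => ((S.e (i x) w).1, y)) (𝓝 (S.e (i x) w).2) (𝓝 (S.e (i x) w)) :=
          (Continuous.prodMk_right _).tendsto _
        have t1 : Tendsto (S.e (i x)).symm (𝓝 (S.e (i x) w)) (𝓝 w) := by
          have := (S.e (i x)).continuousAt_symm ((S.e (i x)).map_source a1)
          rwa [ContinuousAt, (S.e (i x)).left_inv a1] at this
        filter_upwards [(t1.comp t0).eventually ((hev x x' w h h').and (hOn x' w h')),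
          t0.eventually ((S.e (i x)).open_target.mem_nhds ((S.e (i x)).map_source a1))]
          with y hy hy'
        have h5 := congrArg Prod.snd hy.1
        simp only [s, Tr.mv, Function.comp_apply, (S.e (i x)).right_inv hy'] at h5
        rw [Geo.T, Act.f, ← h5]
        exact ((g.c (j x')).right_inv (hO x' _ hy.2).2.1).symm
      have e2 : (g.c (j x')).symm (S.e (i x') w).2 =
          γ x x' w • (g.c (j x)).symm (S.e (i x) w).2 := congrArg Prod.snd (hγ x x' w h h')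
      have e3 := fun q => T.toAct.cmp_push (γ x x' w) (ξ q) ((g.c (j x)).map_target a2)
        (e2 ▸ (g.c (j x')).map_target b2)
      simp only [← e2, (g.c (j x)).right_inv a2, (g.c (j x')).right_inv b2, hc, Geo.cmp_sum,
        Geo.cmp_rsmul] at e3
      ext p q
      have e4 := congrFun (e3 q) p
      rw [← jm_mulVec] at e4
      rw [e1]
      refine Eq.trans ?_ (e4.symm.trans ?_)
      · simp [Xc, Matrix.mul_apply, Matrix.mulVec, dotProduct]
      · simp [Xc, Matrix.mul_apply, Finset.sum_apply, mul_comm]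
  · intro x x' x'' w h h' h''
    have h2 : γ x x'' w = γ x' x'' w * γ x x' w := hfree _ _ (s x w) (by
      rw [hmul, ← hγ x x' w h h', ← hγ x' x'' w h' h'', ← hγ x x'' w h h''])
    simp only [h2, hχ, add_comm]

end Pool.Agent.Lib.HN9
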