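import Pool.Agent.Lib.HN9.Blue

/-! The action on the product is free, proper and cocompact. -/

open scoped Topology
open Set Filter Metric

noncomputable section

namespace Pool.Agent.Lib.HN9

open Pool.Agent.Lib.HS95

namespace PCK

variable {V ι X : Type} [NormedAddCommGroup V] [InnerProductSpace ℂ V] [Fintype ι]
  [DecidableEq ι] [TopologicalSpace X] {S : Split V ι X} {g : Geo ι} (T : Tr V g)

theorem mv_mul (γ δ : T.Γ) (p : V × g.Y) : T.mv (γ * δ) p = T.mv γ (T.mv δ p) := by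
  simp only [Tr.mv, T.bmul, map_mul, LinearIsometryEquiv.coe_mul, Function.comp_apply, map_add,
    mul_smul]
  congr 1
  abel

theorem b_one : T.b 1 = 0 := by
  have := T.bmul 1 1
  simpa using this

theorem mv_one (p : V × g.Y) : T.mv 1 p = p := by
  simp [Tr.mv, b_one]

theorem mv_inv (γ : T.Γ) (p : V × g.Y) : T.mv γ⁻¹ (T.mv γ p) = p := by
  rw [← mv_mul, inv_mul_cancel, mv_one]

theorem mv_cont (γ : T.Γ) : Continuous (T.mv γ) :=
  (((T.A γ).continuous.comp continuous_fst).add continuous_const).prodMk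
    ((T.iso γ).cont.comp continuous_snd)

variable {T}

theorem fix (D : Dev S T) (γ : T.Γ) (p : V × g.Y) (h : T.mv γ p = p) : γ = 1 := by
  obtain ⟨O, hO, hi⟩ := D.linj p
  have h1 : ∀ᶠ p' in 𝓝 p, T.mv γ p' = p' := by
    have h2 : ∀ᶠ p' in 𝓝 p, T.mv γ p' ∈ O :=
      (mv_cont T γ).continuousAt.eventually_mem (by rwa [h])
    filter_upwards [h2, hO] with p' a b
    exact hi a b (D.inv γ p')
  have h3 : ∀ᶠ v in 𝓝 (0 : V), T.A γ v = v := by
    have hc : Tendsto (fun v : V => (v + p.1, p.2)) (𝓝 0) (𝓝 p) := by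
      have : Continuous fun v : V => (v + p.1, p.2) := by fun_prop
      simpa using this.tendsto 0
    filter_upwards [hc.eventually h1] with v hv
    have a := congrArg Prod.fst hv
    have b := congrArg Prod.fst h
    simp only [Tr.mv, map_add] at a b
    rw [add_assoc, b] at a
    exact add_right_cancel a
  have h4 : ∀ v, T.A γ v = v := by
    intro v
    have hc : Tendsto (fun t : ℂ => t • v) (𝓝[≠] 0) (𝓝 0) := by
      have : Continuous fun t : ℂ => t • v := by fun_prop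
      simpa using (this.tendsto 0).mono_left nhdsWithin_le_nhds
    obtain ⟨t, ht, ht0⟩ := ((hc.eventually h3).and self_mem_nhdsWithin).exists
    rw [map_smul] at ht
    exact smul_right_injective V ht0 ht
  refine T.inj γ (LinearIsometryEquiv.ext h4) ?_
  have b := congrArg Prod.fst h
  simp only [Tr.mv, h4] at b
  simpa using b

theorem free (D : Dev S T) (γ δ : T.Γ) (p : V × g.Y) (h : T.mv γ p = T.mv δ p) : γ = δ := by
  have := fix D (δ⁻¹ * γ) p (by rw [mv_mul, h, mv_inv])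
  rw [inv_mul_eq_one] at this
  exact this.symm

theorem prp [FiniteDimensional ℂ V] [T2Space X] (D : Dev S T) : T.Prp := by
  intro K hK R
  by_contra hinf
  have := FiniteDimensional.proper_rclike ℂ V
  set Z := {γ : T.Γ | ‖T.b γ‖ ≤ R ∧ ∃ y ∈ K, γ • y ∈ K} with hZ
  have : Infinite Z := Set.infinite_coe_iff.2 hinf
  choose y hy hy' using fun γ : Z => γ.2.2
  set U : Ultrafilter Z := hyperfilter Z with hU
  obtain ⟨p, -, hp⟩ := ((isCompact_singleton (x := (0 : V))).prod hK).ultrafilter_le_nhds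
    (U.map fun γ => ((0 : V), y γ))
    (le_principal_iff.2 (mem_map.2 (Eventually.of_forall fun γ => ⟨rfl, hy γ⟩)))
  obtain ⟨p', -, hp'⟩ := ((isCompact_closedBall (0 : V) R).prod hK).ultrafilter_le_nhds
    (U.map fun γ : Z => T.mv γ ((0 : V), y γ))
    (le_principal_iff.2 (mem_map.2 (Eventually.of_forall fun γ =>
      ⟨by simpa [Tr.mv] using γ.2.1, hy' γ⟩)))
  have t1 : Tendsto (fun γ : Z => ((0 : V), y γ)) U (𝓝 p) := hp
  have t2 : Tendsto (fun γ : Z => T.mv γ ((0 : V), y γ)) U (𝓝 p') := hp'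
  have hq : D.q p = D.q p' := by
    refine tendsto_nhds_unique ((D.cont.tendsto p).comp t1) ?_
    refine ((D.cont.tendsto p').comp t2).congr fun γ => D.inv _ _
  obtain ⟨δ, hδ⟩ := D.orb p p' hq
  have t3 : Tendsto (fun γ : Z => T.mv δ⁻¹ (T.mv γ ((0 : V), y γ))) U (𝓝 p) := by
    have := ((mv_cont T δ⁻¹).tendsto p').comp t2
    rwa [hδ, mv_inv] at this
  obtain ⟨O, hO, hi⟩ := D.linj p
  have h1 : ∀ᶠ γ : Z in U, (γ : T.Γ) = δ := by
    filter_upwards [t1.eventually hO, t3.eventually hO] with γ a b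
    have := hi b a (by rw [D.inv, D.inv])
    rw [← mv_mul] at this
    have := fix D _ _ this
    rw [inv_mul_eq_one] at this
    exact this.symm
  have h2 : {γ : Z | (γ : T.Γ) = δ}.Finite :=
    Set.Subsingleton.finite fun a ha b hb => Subtype.ext (ha.trans hb.symm)
  exact h2.notMem_hyperfilter h1

theorem coc [CompactSpace X] (D : Dev S T) : T.Coc := by
  have key : ∀ x : X, ∃ K : Set g.Y, IsCompact K ∧ ∃ R : ℝ,
      {x' | ∃ p : V × g.Y, D.q p = x' ∧ ‖p.1‖ ≤ R ∧ p.2 ∈ K} ∈ 𝓝 x := by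
    intro x
    obtain ⟨i, hi⟩ := S.cov x
    obtain ⟨B, v, j, -, hz, hs⟩ := D.sec i x hi
    obtain ⟨C, hC, hC1, hC2⟩ := local_compact_nhds ((g.c j).open_target.mem_nhds hz)
    have he : ContinuousAt (S.e i) x := (S.e i).continuousAt hi
    have h1 : ∀ᶠ x' in 𝓝 x, (S.e i x').2 ∈ C := he.snd.eventually_mem hC
    have h2 : ∀ᶠ x' in 𝓝 x, ‖B (S.e i x').1 + v‖ < ‖B (S.e i x).1 + v‖ + 1 :=
      ((B.continuous.continuousAt.comp he.fst).add continuousAt_const).norm.eventually_lt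
        continuousAt_const (lt_add_one _)
    refine ⟨(g.c j).symm '' C, hC2.image_of_continuousOn ((g.c j).continuousOn_symm.mono hC1),
      ‖B (S.e i x).1 + v‖ + 1, ?_⟩
    filter_upwards [hs, h1, h2] with x' a b c
    exact ⟨_, a, c.le, mem_image_of_mem _ b⟩
  choose K hK R hR using key
  obtain ⟨t, -, ht⟩ := isCompact_univ.elim_nhds_subcover _ fun x _ => hR x
  refine ⟨⋃ x ∈ t, K x, t.isCompact_biUnion fun x _ => hK x, ∑ x ∈ t, |R x|, fun v y => ?_⟩
  obtain ⟨x, hx, p, hp, h1, h2⟩ := mem_iUnion₂.1 (ht (mem_univ (D.q (v, y))))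
  obtain ⟨γ, hγ⟩ := D.orb p (v, y) hp
  have a : v = T.A γ p.1 + T.b γ := congrArg Prod.fst hγ
  have b : y = γ • p.2 := congrArg Prod.snd hγ
  refine ⟨γ, ?_, ?_⟩
  · rw [a, sub_add_cancel_right, norm_neg, LinearIsometryEquiv.norm_map]
    exact (h1.trans (le_abs_self _)).trans
      (Finset.single_le_sum (f := fun x => |R x|) (fun _ _ => abs_nonneg _) hx)
  · rw [b, inv_smul_smul]
    exact mem_iUnion₂.2 ⟨x, hx, h2⟩

end PCK

theorem st_PC : St_PC := by
  intro V ι X _ _ _ _ _ _ _ _ S g T D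
  refine ⟨PCK.free D, fun s s' x γ hs hs' h hx => ?_, PCK.prp D, PCK.coc D⟩
  obtain ⟨O, hO, hi⟩ := D.linj (s' x)
  have h1 : ∀ᶠ x' in 𝓝 x, T.mv γ (s x') ∈ O :=
    ((PCK.mv_cont T γ).continuousAt.comp hs).eventually_mem (by rw [hx] at hO; exact hO)
  filter_upwards [h, h1, hs'.eventually_mem hO] with x' a b c
  exact hi c b (by rw [D.inv, a.1, a.2])

end Pool.Agent.Lib.HN9
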