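import Pool.Agent.Lib.HN9.Kit

/-! From one ball to a neighbourhood of every point. -/

open scoped Topology
open Set Filter Metric

noncomputable section

namespace Pool.Agent.Lib.HN9

open Pool.Agent.Lib.HS95

namespace PROPK

variable {ι : Type} [Fintype ι] [DecidableEq ι] (g : Geo ι)

/-- The displacement near `z` is controlled by the hypothesis `H`. -/
def P (H : (g.Y → g.Y) → ℝ → Prop) (j : g.J) (z : ι → ℂ) : Prop :=
  ∃ ρ > 0, ∃ C ≥ 0, ∃ d > 0, ball z ρ ⊆ (g.c j).target ∧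
    ∀ f, g.Iso f → ∀ ε, 0 ≤ ε → ε ≤ d → H f ε → g.Near f j z ρ (C * ε)

theorem mul_le_of {C ε d : ℝ} (hC : 0 ≤ C) (h0 : 0 ≤ ε) (h : ε ≤ d / (C + 1)) : C * ε ≤ d := by
  rw [le_div_iff₀ (by positivity)] at h
  nlinarith

/-- Change of chart. -/
theorem chg (h1 : St_J0) (H : (g.Y → g.Y) → ℝ → Prop) {j j' : g.J} {y : g.Y}
    (h : y ∈ (g.c j).source) (h' : y ∈ (g.c j').source) (hP : P g H j (g.c j y)) :
    P g H j' (g.c j' y) := by
  obtain ⟨ρ, hρ, C, hC, d, hd, -, hN⟩ := hP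
  have hz := (g.c j).map_source h
  have hp := (g.c j').map_source h'
  have e : (g.c j).symm (g.c j y) = y := (g.c j).left_inv h
  have e' : (g.c j').symm (g.c j' y) = y := (g.c j').left_inv h'
  obtain ⟨r, hr, L, hL, -, -, -, hJ⟩ := h1 ι g j j' _ hz _ hp 1 one_pos
  obtain ⟨hA, hB⟩ := hJ id g.iso_id (g.c j y) (mem_ball_self hr) (by rw [e]; exact h')
    (by
      show g.c j' ((g.c j).symm (g.c j y)) ∈ _
      rw [e]; exact mem_ball_self hr)
  have ht : Tendsto (g.c j').symm (𝓝 (g.c j' y)) (𝓝 y) := by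
    have := g.tendsto_symm hp
    rwa [e'] at this
  have hev : ∀ᶠ w' in 𝓝 (g.c j' y), w' ∈ (g.c j').target ∧ (g.c j').symm w' ∈ (g.c j).source ∧
      g.c j ((g.c j').symm w') ∈ ball (g.c j y) (min ρ (r / 2)) :=
    (g.ev_target hp).and ((ht.eventually ((g.c j).open_source.mem_nhds h)).and
      ((((g.c j).continuousAt h).tendsto.comp ht).eventually
        (ball_mem_nhds _ (lt_min hρ (by positivity)))))
  obtain ⟨ρ', hρ', hs⟩ := Metric.eventually_nhds_iff_ball.1 hev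
  refine ⟨ρ', hρ', L * C, by positivity, min d (r / 2 / (C + 1)), by positivity,
    fun w hw => (hs w hw).1, ?_⟩
  intro f hf ε h0 hε hH w' hw'
  obtain ⟨k1, k2, k3⟩ := hs w' hw'
  have hCe : C * ε ≤ r / 2 := mul_le_of hC h0 (hε.trans (min_le_right _ _))
  obtain ⟨m1, m2⟩ := hN f hf ε h0 (hε.trans (min_le_left _ _)) hH _
    (ball_subset_ball (min_le_left _ _) k3)
  have e1 : (g.c j).symm (g.c j ((g.c j').symm w')) = (g.c j').symm w' := (g.c j).left_inv k2
  have k4 : dist (g.c j ((g.c j').symm w')) (g.c j y) < r / 2 :=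
    lt_of_lt_of_le (mem_ball.1 k3) (min_le_right _ _)
  unfold Geo.T at m2
  rw [e1] at m1 m2
  have e2 : (g.c j).symm (g.c j (f ((g.c j').symm w'))) = f ((g.c j').symm w') :=
    (g.c j).left_inv m1
  have hu : g.c j (f ((g.c j').symm w')) ∈ ball (g.c j y) r := by
    have := dist_triangle (g.c j (f ((g.c j').symm w'))) (g.c j ((g.c j').symm w')) (g.c j y)
    rw [dist_eq_norm _ (g.c j ((g.c j').symm w'))] at this
    rw [mem_ball]
    linarith
  have hw : g.c j ((g.c j').symm w') ∈ ball (g.c j y) r := by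
    rw [mem_ball]; linarith
  have n1 := (hA _ hu).1
  have n2 := hB _ hu _ hw
  unfold Geo.T at n2
  simp only [id] at n1 n2
  rw [e2] at n1 n2
  rw [e1, (g.c j').right_inv k1] at n2
  refine ⟨n1, n2.trans ?_⟩
  rw [mul_assoc]
  exact mul_le_mul_of_nonneg_left m2 hL

/-- Propagation inside a fixed ball. -/
theorem spread (h2 : St_TB) (H : (g.Y → g.Y) → ℝ → Prop) {j : g.J} {z : ι → ℂ}
    (hz : z ∈ (g.c j).target) :
    ∃ R > 0, ∀ w₀ ∈ ball z R, ∀ w ∈ ball z R, P g H j w₀ → P g H j w := by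
  obtain ⟨R, hR, hsub, hT⟩ := h2 ι g j z hz
  refine ⟨R, hR, fun w₀ hw₀ w hw hP => ?_⟩
  obtain ⟨ρ, hρ, C, hC, d, hd, -, hN⟩ := hP
  obtain ⟨ρ₀, hρ₀, hb₀⟩ := Metric.isOpen_iff.1 isOpen_ball w₀ hw₀
  obtain ⟨ρ₁, hρ₁, hb₁⟩ := Metric.isOpen_iff.1 isOpen_ball w hw
  obtain ⟨C', hC', d', hd', hM⟩ := hT (min ρ ρ₀) (lt_min hρ hρ₀)
  refine ⟨ρ₁, hρ₁, C' * C, by positivity, min d (d' / (C + 1)), by positivity,
    hb₁.trans (ball_subset_closedBall.trans hsub), ?_⟩
  intro f hf ε h0 hε hH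
  have k1 := (hN f hf ε h0 (hε.trans (min_le_left _ _)) hH).mono
    (ball_subset_ball (min_le_left ρ ρ₀)) le_rfl
  have k2 := hM f hf w₀ (C * ε) ((ball_subset_ball (min_le_right _ _)).trans hb₀) (by positivity)
    (mul_le_of hC h0 (hε.trans (min_le_right _ _))) k1
  exact k2.mono hb₁ (by rw [mul_assoc])

end PROPK

theorem st_PROP (h1 : St_J0) (h2 : St_TB) : St_PROP := by
  intro ι _ _ g _ j₀ z₀ r₀ hr₀ hb j z hz
  set H : (g.Y → g.Y) → ℝ → Prop := fun f ε => g.Near f j₀ z₀ r₀ ε with hH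
  have hQ : IsLocallyConstant fun y : g.Y =>
      ∀ i, y ∈ (g.c i).source → PROPK.P g H i (g.c i y) := by
    refine (IsLocallyConstant.iff_eventually_eq _).2 fun y => ?_
    obtain ⟨i, hi⟩ := g.cov y
    obtain ⟨R, hR, hS⟩ := PROPK.spread g h2 H ((g.c i).map_source hi)
    filter_upwards [(g.c i).open_source.mem_nhds hi,
      ((g.c i).continuousAt hi).tendsto.eventually (ball_mem_nhds _ hR)] with y' k1 k2
    exact propext ⟨fun k i' hi' => PROPK.chg g h1 H hi hi' (hS _ k2 _ (mem_ball_self hR) (k i k1)),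
      fun k i' hi' => PROPK.chg g h1 H k1 hi' (hS _ (mem_ball_self hR) _ k2 (k i hi))⟩
  have hz₀ : z₀ ∈ (g.c j₀).target := hb (mem_ball_self hr₀)
  have h0 : ∀ i, (g.c j₀).symm z₀ ∈ (g.c i).source →
      PROPK.P g H i (g.c i ((g.c j₀).symm z₀)) := by
    intro i hi
    refine PROPK.chg g h1 H ((g.c j₀).map_target hz₀) hi ?_
    rw [(g.c j₀).right_inv hz₀]
    exact ⟨r₀, hr₀, 1, zero_le_one, 1, one_pos, hb, fun f _ ε _ _ h => by rwa [one_mul]⟩
  have h3 := (hQ.apply_eq_of_preconnectedSpace ((g.c j₀).symm z₀) ((g.c j).symm z)).mp h0 j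
    ((g.c j).map_target hz)
  rw [(g.c j).right_inv hz] at h3
  exact h3

end Pool.Agent.Lib.HN9
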