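import Pool.Agent.Lib.HN9.Blue2
import Pool.Agent.Lib.HS95.R_SUBC
import Pool.Agent.Lib.HS95.R_HB
import Pool.Agent.Lib.HS95.R_LAPB
import Pool.Agent.Lib.HS95.R_DET

/-! Project hn, compact leaves: the inequality of Bochner for the Gram determinant. -/

open scoped Topology ContDiff ComplexOrder Matrix
open Set Filter Metric Complex

noncomputable section

namespace Pool.Agent.Lib.HN9

open Pool.Agent.Lib.HS95
open Pool.Agent.Lib.SV (E)
open Pool.Agent.Lib.HS32 (Mat nq hess dz dzb ClM)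

namespace SUB9

variable {n : ℕ}

theorem d2_re {f : E n → ℝ} {z : E n} (h : ContDiffAt ℝ ∞ f z) (u v : E n) :
    d2 (fun w => (f w : ℂ)) z u v = (d2 f z u v : ℝ) := by
  have h1 : ∀ᶠ y in 𝓝 z, DifferentiableAt ℝ f y :=
    ((h.of_le (m := 1) (by exact_mod_cast le_top)).eventually (by simp)).mono
      fun y hy => hy.differentiableAt (by simp)
  have h2 : (fun w => fderiv ℝ (fun w => (f w : ℂ)) w v) =ᶠ[𝓝 z]
      fun w => ((fderiv ℝ f w v : ℝ) : ℂ) := h1.mono fun w hw => HBK.fd_re hw v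
  have h3 : DifferentiableAt ℝ (fun y => fderiv ℝ f y v) z :=
    ((h.fderiv_right (m := ∞) (by simp)).clm_apply contDiffAt_const).differentiableAt (by simp)
  rw [d2, h2.fderiv_eq, HBK.fd_re h3, d2]

theorem lv_hess {f : E n → ℝ} {z : E n} (h : ContDiffAt ℝ ∞ f z) (v : E n) :
    lv f z v = 4 * nq (hess (fun w => (f w : ℂ)) z) v := by
  have h2 := congrArg re (HBK.hess_form (HS32.cd_ofReal h) v)
  rw [d2_re h, d2_re h] at h2
  rw [nq, lv]
  simpa using h2.symm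

theorem kae {G : E n → Mat n} {z : E n} (h : ClM G z) : Kae G z := fun v w => by
  have e1 : ∀ u a b, pM G z u a b = ∑ c, u c * (2 * HS32.dM c G z a b) := fun u a b => by
    have := HBK.sum_dz (fun y => G y a b) z u
    rw [eq_div_iff two_ne_zero, Finset.sum_mul] at this
    refine Eq.trans this.symm (Finset.sum_congr rfl fun c _ => ?_)
    rw [HS32.dM_apply]
    ring
  ext a
  simp only [Matrix.mulVec, dotProduct, e1, Finset.sum_mul]
  refine Finset.sum_comm.trans (Finset.sum_congr rfl fun b _ => Finset.sum_congr rfl fun c _ => ?_)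
  rw [h a c b]
  ring

theorem tr_le {κ : Type} [Fintype κ] [DecidableEq κ] {G N : Mat n} {X : Matrix (Fin n) κ ℂ}
    (hG : G.PosDef) (hM : (Xᴴ * G * X).PosDef) (hN : N.PosSemidef) :
    ((Xᴴ * G * X)⁻¹ * (Xᴴ * N * X)).trace.re ≤ (G⁻¹ * N).trace.re := by
  set M := Xᴴ * G * X with hMd
  have uG := hG.det_pos.ne'.isUnit
  have uM := hM.det_pos.ne'.isUnit
  have a1 : (G⁻¹ - X * M⁻¹ * Xᴴ)ᴴ = G⁻¹ - X * M⁻¹ * Xᴴ := by
    rw [Matrix.conjTranspose_sub, hG.inv.1.eq, Matrix.conjTranspose_mul, Matrix.conjTranspose_mul,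
      hM.inv.1.eq, Matrix.conjTranspose_conjTranspose, Matrix.mul_assoc]
  have a2 : (G⁻¹ - X * M⁻¹ * Xᴴ)ᴴ * G * (G⁻¹ - X * M⁻¹ * Xᴴ) = G⁻¹ - X * M⁻¹ * Xᴴ := by
    have b : X * M⁻¹ * Xᴴ * G * (X * M⁻¹ * Xᴴ) = X * M⁻¹ * Xᴴ := by
      calc _ = X * (M⁻¹ * (Xᴴ * G * X)) * M⁻¹ * Xᴴ := by simp only [Matrix.mul_assoc]
        _ = _ := by rw [← hMd, Matrix.nonsing_inv_mul _ uM, Matrix.mul_one]
    rw [a1, Matrix.sub_mul, Matrix.nonsing_inv_mul _ uG, Matrix.sub_mul, Matrix.one_mul,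
      Matrix.mul_sub (X * M⁻¹ * Xᴴ * G), b, Matrix.mul_nonsing_inv_cancel_right _ _ uG, sub_self,
      sub_zero]
  have a3 : (G⁻¹ - X * M⁻¹ * Xᴴ).PosSemidef := a2 ▸ hG.posSemidef.conjTranspose_mul_mul_same _
  have a4 := SUBCK.tr_nonneg (N := N) a3 fun u => (Complex.le_def.1 (hN.dotProduct_mulVec_nonneg u)).1
  have a5 : (X * M⁻¹ * Xᴴ * N).trace = (M⁻¹ * (Xᴴ * N * X)).trace := by
    rw [Matrix.mul_assoc, Matrix.mul_assoc, Matrix.trace_mul_comm]
    simp only [Matrix.mul_assoc]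
  rw [Matrix.sub_mul, Matrix.trace_sub, Complex.sub_re, a5] at a4
  linarith

end SUB9

open SUB9 SUBCK in
theorem st_SUB (h0 : St_LD1) (h1 : St_LD2) (h2 : St_KSY) (h3 : St_GRM) : St_SUB := by
  intro n ρ G Ξ z N B h
  have hz := h.self_of_nhds
  have hsm : ∀ᶠ w in 𝓝 z, SmM (fun x => (Ξ x)ᴴ * G x * Ξ x) w :=
    h.eventually_nhds.mono fun w hw =>
      sm_gram hw.self_of_nhds.1 fun a b => hw.mono fun x hx => hx.2.2.2 a b
  have hps : ∀ᶠ w in 𝓝 z, ((Ξ w)ᴴ * G w * Ξ w).PosSemidef :=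
    h.mono fun w hw => hw.2.1.posSemidef.conjTranspose_mul_mul_same _
  refine ⟨DETK.det_smooth hsm.self_of_nhds, fun hN hB hR hd => ?_⟩
  have hpd : ∀ᶠ w in 𝓝 z, ((Ξ w)ᴴ * G w * Ξ w).PosDef := by
    filter_upwards [hps, (cont_det hsm.self_of_nhds).eventually (lt_mem_nhds hd)] with w hw hw'
    refine hw.posDef_iff_det_ne_zero.2 fun h0 => ?_
    rw [h0] at hw'
    exact lt_irrefl _ hw'
  have hM := hpd.self_of_nhds
  have t1 := tr_le hz.2.1 hM hN
  set M := (Ξ z)ᴴ * G z * Ξ z with hMd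
  have e1 := h1 _ _ _ z (hsm.and hpd)
  have e2 := h1 _ _ G z (h.mono fun w hw => ⟨hw.1, hw.2.1⟩)
  have e3 := h2 _ G z (h.mono fun w hw => ⟨hw.1, hw.2.1, kae hw.2.2.1⟩)
  have e4 := h3 _ _ G Ξ z (h.mono fun w hw => ⟨hw.1, hw.2.1, hw.2.2.2⟩) hM
  have s1 := (h0 _ _ G z hz.1 (h.mono fun w hw => hw.2.1)).1
  have s2 := (h0 _ _ _ z hsm.self_of_nhds hpd).1
  obtain ⟨W₀, hW₀⟩ := HS32.Mf.psd_factor hz.2.1.inv.posSemidef
  obtain ⟨W, hWW⟩ : ∃ W : Mat n, W * Wᴴ = (G z)⁻¹ :=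
    ⟨W₀ᴴ, by rw [Matrix.conjTranspose_conjTranspose, hW₀]⟩
  set K : Mat n := ∑ a, kM G z fun b => W b a with hK
  have hKu : ∀ u, qf K u = 4 * qf (G z - (N + B)) u := fun u => by
    have := lv_hess s1 u
    rw [show hess (fun w => ((ld G w : ℝ) : ℂ)) z = _ from hR] at this
    refine Eq.trans ?_ this
    rw [e2 u, ← hWW, Matrix.mul_assoc, Matrix.trace_mul_comm, tr_conj, qf, hK, Matrix.sum_mulVec,
      dotProduct_sum]
    exact congrArg re (Finset.sum_congr rfl fun a _ => e3 u _)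
  have hT := tr_nonneg (N := (Ξ z)ᴴ * K * Ξ z - ((4 : ℝ) : ℂ) • (M - (Ξ z)ᴴ * N * Ξ z))
    hM.inv.posSemidef fun u => by
      have := hKu (Ξ z *ᵥ u)
      simp only [qf] at this ⊢
      rw [Matrix.sub_mulVec, Matrix.add_mulVec, Matrix.mulVec_mulVec (M := B), hB,
        Matrix.zero_mulVec, add_zero, dotProduct_sub, Complex.sub_re] at this
      rw [Matrix.sub_mulVec, dotProduct_sub, Matrix.smul_mulVec, dotProduct_smul, Matrix.sub_mulVec,
        dotProduct_sub, hMd, SUBCK.qf_conj, SUBCK.qf_conj, SUBCK.qf_conj, Complex.sub_re,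
        smul_eq_mul,
        Complex.re_ofReal_mul, Complex.sub_re]
      linarith
  rw [Matrix.mul_sub, Matrix.trace_sub, Matrix.mul_smul, Matrix.mul_sub,
    Matrix.nonsing_inv_mul _ hM.det_pos.ne'.isUnit, Matrix.trace_smul, Matrix.trace_sub,
    Matrix.trace_one, Complex.sub_re, smul_eq_mul, Complex.re_ofReal_mul, Complex.sub_re,
    Complex.natCast_re, Fintype.card_fin, hK, Matrix.mul_sum, Matrix.sum_mul, Matrix.mul_sum,
    Matrix.trace_sum, Complex.re_sum] at hT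
  have t2 := Finset.sum_le_sum (s := Finset.univ) fun a _ =>
    (e4 fun b => W b a).trans_eq ((e1 _).symm.trans (lv_hess s2 _))
  rw [← Finset.mul_sum, ← LAPBK.tr_conj, hWW] at t2
  have t3 : hess (fun w => ((ld (fun x => (Ξ x)ᴴ * G x * Ξ x) w : ℝ) : ℂ)) z =
    hess (fun w => (Real.log ((Ξ w)ᴴ * G w * Ξ w).det.re : ℝ)) z := rfl
  rw [t3] at t2
  linarith

end Pool.Agent.Lib.HN9
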