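import Pool.Agent.Lib.HN9.Kit

/-! From a small ball to a fixed ball. -/

open scoped Topology
open Set Filter Metric

noncomputable section

namespace Pool.Agent.Lib.HN9

open Pool.Agent.Lib.HS95

theorem st_TB (h1 : St_J0) (h2 : St_ODE) : St_TB := by
  intro ι _ _ g j z hz
  obtain ⟨R₀, hR₀, hsub⟩ := nhds_basis_closedBall.mem_iff.1 (g.ev_target hz)
  obtain ⟨r, hr, L, -, hrR, hrt, -, hJ⟩ := h1 ι g j j z hz z hz R₀ hR₀
  obtain ⟨K, hK, hO⟩ := h2 ι (g.G j) z R₀ L fun w hw =>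
    ⟨(g.met j w (hsub hw)).sm, (g.met j w (hsub hw)).pos⟩
  refine ⟨r / 2, by positivity, (closedBall_subset_closedBall (by linarith)).trans hrt,
    fun ρ hρ => ⟨K * (1 + 2 / ρ), by positivity, r / 4, by positivity, ?_⟩⟩
  intro f hf w₀ ε hb h0 hε hN
  have hw₀ : w₀ ∈ ball z (r / 2) := hb (mem_ball_self hρ)
  have hs : ball z (r / 2) ⊆ ball z r := ball_subset_ball (by linarith)
  obtain ⟨hs₀, hd₀⟩ := hN w₀ (mem_ball_self hρ)
  have hT : g.T f j j w₀ ∈ ball z r := by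
    have := dist_triangle (g.T f j j w₀) w₀ z
    rw [dist_eq_norm (g.T f j j w₀) w₀] at this
    rw [mem_ball] at hw₀ ⊢
    linarith
  obtain ⟨hA, -⟩ := hJ f hf w₀ (hs hw₀) hs₀ hT
  have hI : ∀ w ∈ ball z r, IsoAt (g.G j) (g.G j) (g.T f j j) w := fun w hw =>
    hf.at (hrt (ball_subset_closedBall hw)) (hA w hw).1
  have hC : ‖fderiv ℂ (fun w => g.T f j j w - w) w₀‖ ≤ 2 * ε / ρ :=
    SV.H85.norm_fderiv_le hρ
      (fun w hw => ((hI w (hs (hb hw))).hol.sub differentiableAt_id).differentiableWithinAt)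
      fun w hw => (hN w hw).2
  have hE : fderiv ℂ (fun w => g.T f j j w - w) w₀ =
      fderiv ℂ (g.T f j j) w₀ - ContinuousLinearMap.id ℂ (ι → ℂ) :=
    ((hI w₀ (hs hw₀)).hol.hasFDerivAt.sub (hasFDerivAt_id w₀)).fderiv
  rw [hE] at hC
  intro w hw
  refine ⟨(hA w (hs hw)).1, ?_⟩
  refine (hO r (g.T f j j) hrR (fun w hw => ⟨hI w hw, ball_subset_closedBall (hA w hw).2.1,
    (hA w hw).2.2⟩) w₀ (hs hw₀) w (hs hw)).trans ?_
  rw [mul_assoc]
  refine mul_le_mul_of_nonneg_left ?_ hK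
  have : (1 + 2 / ρ) * ε = ε + 2 * ε / ρ := by ring
  linarith

end Pool.Agent.Lib.HN9
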