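import Pool.Agent.Lib.HN9.R_ALG
import Pool.Agent.Lib.HN9.R_COM
import Pool.Agent.Lib.HN9.R_COMP
import Pool.Agent.Lib.HN9.R_DENS
import Pool.Agent.Lib.HN9.R_FD
import Pool.Agent.Lib.HN9.R_HOL
import Pool.Agent.Lib.HN9.R_IN
import Pool.Agent.Lib.HN9.R_J0
import Pool.Agent.Lib.HN9.R_LAT
import Pool.Agent.Lib.HN9.R_LFE
import Pool.Agent.Lib.HN9.R_LFU
import Pool.Agent.Lib.HN9.R_LIM1
import Pool.Agent.Lib.HN9.R_LIM2
import Pool.Agent.Lib.HN9.R_LIM3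
import Pool.Agent.Lib.HN9.R_NEG
import Pool.Agent.Lib.HN9.R_NG
import Pool.Agent.Lib.HN9.R_NOD
import Pool.Agent.Lib.HN9.R_PC
import Pool.Agent.Lib.HN9.R_PROP
import Pool.Agent.Lib.HN9.R_SUB
import Pool.Agent.Lib.HN9.R_TB
import Pool.Agent.Lib.HN9.R_TR0

/-! Project hn, compact leaves: assembly. -/

namespace Pool.Agent.Lib.HN9

open Pool.Agent.Lib.HS Pool.Agent.Lib.HS32

theorem aCL : St_CL :=
  cl_of (st_TR0 st_LFU (st_LFE st_LFU) (st_HOL st_LFU)) st_COMP st_PC (st_NOD st_PC)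
    (st_LAT afBUS (st_COM st_J0 (st_TB st_J0 afODE)) (st_DENS st_J0)
      (st_LIM1 (st_PROP st_J0 (st_TB st_J0 afODE))) (st_ALG st_LIM2 st_LIM3 afTR st_FD))

theorem aIN : St_IN := st_IN mTR afIN0 afHB afLD1 afIN2

theorem aNEG : St_NEG :=
  st_NEG (st_NG2 (st_NG1 afNG0 afLOC mLAP mGRN mMU) afLOC mLAP mCOV mTR) afLOC
    (st_SUB afLD1 afLD2 afKSY afGRM)

/-- The leaves are compact. -/
theorem leaf : St_LEAF := leaf_of aCL aIN st_PT aNEG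

end Pool.Agent.Lib.HN9
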