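import Pool.Agent.Lib.HN9.Defs

/-! Project hn, compact leaves for a Hermitian metric: blueprint. -/

open scoped Topology ContDiff ComplexOrder Matrix
open Set Filter Metric Complex

noncomputable section

namespace Pool.Agent.Lib.HN9

open Pool.Agent.Lib.HS95

/-! ### Isometries of the transversal -/

/-- An isometry that sends one point near `z` close to `p` is under control on a fixed ball. -/
def St_J0 : Prop := ∀ (ι : Type) [Fintype ι] [DecidableEq ι] (g : Geo ι) (j j' : g.J),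
  ∀ z ∈ (g.c j).target, ∀ p ∈ (g.c j').target, ∀ R > 0, ∃ r > 0, ∃ L ≥ 0, r ≤ R ∧
  closedBall z r ⊆ (g.c j).target ∧ closedBall p r ⊆ (g.c j').target ∧ ∀ f, g.Iso f →
    ∀ w₀ ∈ ball z r, f ((g.c j).symm w₀) ∈ (g.c j').source → g.T f j j' w₀ ∈ ball p r →
    (∀ w ∈ ball z r, f ((g.c j).symm w) ∈ (g.c j').source ∧ g.T f j j' w ∈ ball p R ∧
      ‖fderiv ℂ (g.T f j j') w‖ ≤ L) ∧
    ∀ w ∈ ball z r, ∀ w' ∈ ball z r, ‖g.T f j j' w - g.T f j j' w'‖ ≤ L * ‖w - w'‖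

/-- From a small ball to a fixed ball. -/
def St_TB : Prop := ∀ (ι : Type) [Fintype ι] [DecidableEq ι] (g : Geo ι) (j : g.J),
  ∀ z ∈ (g.c j).target, ∃ R > 0, closedBall z R ⊆ (g.c j).target ∧ ∀ ρ > 0, ∃ C ≥ 0, ∃ d > 0,
    ∀ f, g.Iso f → ∀ w₀ ε, ball w₀ ρ ⊆ ball z R → 0 ≤ ε → ε ≤ d → g.Near f j w₀ ρ ε →
      g.Near f j z R (C * ε)

/-- From one ball to a neighbourhood of every point. -/
def St_PROP : Prop := ∀ (ι : Type) [Fintype ι] [DecidableEq ι] (g : Geo ι) [PreconnectedSpace g.Y]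
  (j₀ : g.J) (z₀ : ι → ℂ) (r₀ : ℝ), 0 < r₀ → ball z₀ r₀ ⊆ (g.c j₀).target →
  ∀ j, ∀ z ∈ (g.c j).target, ∃ ρ > 0, ∃ C ≥ 0, ∃ d > 0, ball z ρ ⊆ (g.c j).target ∧
    ∀ f, g.Iso f → ∀ ε, 0 ≤ ε → ε ≤ d → g.Near f j₀ z₀ r₀ ε → g.Near f j z ρ (C * ε)

/-- The commutator of two small elements is small. -/
def St_COM : Prop := ∀ (ι : Type) [Fintype ι] [DecidableEq ι] (g : Geo ι) (a : Act g) (j : g.J),
  ∀ z ∈ (g.c j).target, ∃ r₁ > 0, closedBall z r₁ ⊆ (g.c j).target ∧ ∀ r, 0 < r → r ≤ r₁ →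
    ∃ d₁ > 0, ∀ d, 0 ≤ d → d ≤ d₁ → ∀ α β : a.Γ, g.Near (a.f α) j z r d → g.Near (a.f β) j z r d →
      g.Near (a.f (α * β * α⁻¹ * β⁻¹)) j z r d

/-- Small elements are relatively dense. -/
def St_DENS : Prop := ∀ (V ι : Type) [NormedAddCommGroup V] [InnerProductSpace ℂ V]
  [FiniteDimensional ℂ V] [Fintype ι] [DecidableEq ι] (g : Geo ι) (T : Tr V g), T.Coc →
  ∀ j, ∀ z ∈ (g.c j).target, ∃ r₁ > 0, ∀ r, r ≤ r₁ → ∀ ε > 0, ∃ R : ℝ, ∀ v, ∃ γ : T.Γ,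
    g.Near (T.toAct.f γ) j z r ε ∧ (∀ u, ‖T.A γ u - u‖ ≤ ε * ‖u‖) ∧ ‖T.b γ - v‖ ≤ R

/-! ### Limit fields -/

/-- Existence of a non-zero limit field. -/
def St_LIM1 : Prop := ∀ (ι : Type) [Fintype ι] [DecidableEq ι] (g : Geo ι) [PreconnectedSpace g.Y]
  (a : Act g) (P : a.Γ → Prop) (j : g.J) (z : ι → ℂ) (r : ℝ), 0 < r →
  closedBall z r ⊆ (g.c j).target →
  (∀ ε > 0, ∃ γ, P γ ∧ g.Near (a.f γ) j z r ε ∧ ∃ y : g.Y, γ • y ≠ y) → ∃ ξ, ξ ≠ 0 ∧ a.Gen P ξ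

/-- Limit fields are holomorphic Killing fields; they commute if the group elements do. -/
def St_LIM2 : Prop := ∀ (ι : Type) [Fintype ι] [DecidableEq ι] (g : Geo ι) (a : Act g)
  (P : a.Γ → Prop) (ξ : g.Y → ι → ℂ), a.Gen P ξ →
  g.Hol ξ ∧ (∀ j, ∀ z ∈ (g.c j).target, Kil (g.G j) (g.cmp ξ j) z) ∧
  ((∀ γ δ, P γ → P δ → γ * δ = δ * γ) → ∀ η, a.Gen P η → ∀ j, ∀ z ∈ (g.c j).target,
    fderiv ℂ (g.cmp ξ j) z (g.cmp η j z) = fderiv ℂ (g.cmp η j) z (g.cmp ξ j z))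

/-- The set of limit fields is invariant. -/
def St_LIM3 : Prop := ∀ (ι : Type) [Fintype ι] [DecidableEq ι] (g : Geo ι) (a : Act g)
  (P : a.Γ → Prop) (ξ : g.Y → ι → ℂ), (∀ δ γ, P γ → P (δ * γ * δ⁻¹)) → a.Gen P ξ →
  ∀ δ, a.Gen P (a.push δ ξ)

/-- A totally real space of holomorphic fields is finite dimensional. -/
def St_FD : Prop := ∀ (ι : Type) [Fintype ι] [DecidableEq ι] (g : Geo ι) [ConnectedSpace g.Y]
  (𝔞 : Submodule ℝ (g.Y → ι → ℂ)) (U : Set g.Y), IsOpen U → U.Nonempty → (∀ ξ ∈ 𝔞, g.Hol ξ) →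
  (∀ ξ ∈ 𝔞, ∀ η ∈ 𝔞, ∀ y ∈ U, ξ y + I • η y = 0 → η y = 0) →
  ∃ (ρ : ℕ) (ξ : Fin ρ → g.Y → ι → ℂ), (∀ s, ξ s ∈ 𝔞) ∧
    (∀ η ∈ 𝔞, ∃ c : Fin ρ → ℝ, η = ∑ s, c s • ξ s) ∧ ∃ y, LinearIndependent ℂ fun s => ξ s y

/-- Commuting invariant limit fields give a bad family. -/
def St_ALG : Prop := ∀ (ι : Type) [Fintype ι] [DecidableEq ι] (g : Geo ι) [ConnectedSpace g.Y]
  (a : Act g) (P : a.Γ → Prop), g.Pp → (∀ γ δ, P γ → P δ → γ * δ = δ * γ) →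
  (∀ δ γ, P γ → P (δ * γ * δ⁻¹)) → (∃ ξ, ξ ≠ 0 ∧ a.Gen P ξ) → a.Bad

/-- The lattice of translations. -/
def St_LAT : Prop := ∀ (V ι : Type) [NormedAddCommGroup V] [InnerProductSpace ℂ V]
  [FiniteDimensional ℂ V] [Fintype ι] [DecidableEq ι] (g : Geo ι) [ConnectedSpace g.Y]
  (T : Tr V g), g.Pp → T.Prp → T.Coc → ¬ T.toAct.Bad → T.Lat

/-! ### The orbifold quotient -/

/-- The effective quotient acts properly. -/
def St_ORBQ : Prop := ∀ (V ι : Type) [NormedAddCommGroup V] [InnerProductSpace ℂ V]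
  [FiniteDimensional ℂ V] [Fintype ι] [DecidableEq ι] (g : Geo ι) (T : Tr V g), T.Prp → T.Lat →
  ∃ (a : Act g) (χ : a.Γ →* ℂ), a.PD ∧ ∀ γ : T.Γ, ∃ κ : a.Γ, χ κ = T.chi γ ∧ ∀ y : g.Y, κ • y = γ • y

/-! ### The covering -/

/-- Change of chart and uniqueness for leaves. -/
def St_LFU : Prop := ∀ (V ι X : Type) [NormedAddCommGroup V] [InnerProductSpace ℂ V] [Fintype ι]
  [DecidableEq ι] [TopologicalSpace X] [T2Space X] (S : Split V ι X),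
  (∀ ℓ i A v j, S.Fr ℓ i A v → ℓ v ∈ (S.e j).source → ∃ B, S.Fr ℓ j B v) ∧
  (∀ ℓ i A B v, S.Fr ℓ i A v → S.Fr ℓ i B v → A = B) ∧
  (∀ ℓ i A v, S.Fr ℓ i A v → ContinuousAt ℓ v ∧ ∀ᶠ w in 𝓝 v, S.Fr ℓ i A w) ∧
  (∀ ℓ ℓ' i A v, S.Fr ℓ i A v → S.Fr ℓ' i A v → ℓ v = ℓ' v → ℓ =ᶠ[𝓝 v] ℓ') ∧
  ∀ ℓ ℓ' (U : Set V) v, IsOpen U → IsPreconnected U → S.Lf ℓ U → S.Lf ℓ' U → v ∈ U →
    ℓ =ᶠ[𝓝 v] ℓ' → EqOn ℓ ℓ' U

/-- Existence of leaves. -/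
def St_LFE : Prop := ∀ (V ι X : Type) [NormedAddCommGroup V] [InnerProductSpace ℂ V] [Fintype ι]
  [DecidableEq ι] [TopologicalSpace X] [T2Space X] [CompactSpace X] (S : Split V ι X) (i : S.I)
  (x : X) (A : V ≃ₗᵢ[ℂ] V) (v : V), x ∈ (S.e i).source →
  ∃ ℓ, S.Lf ℓ univ ∧ ℓ v = x ∧ S.Fr ℓ i A v

/-- Holonomy. -/
def St_HOL : Prop := ∀ (V ι X : Type) [NormedAddCommGroup V] [InnerProductSpace ℂ V] [Fintype ι]
  [DecidableEq ι] [TopologicalSpace X] [T2Space X] (S : Split V ι X) (L : (ι → ℂ) → V → X)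
  (i : S.I) (A : V ≃ₗᵢ[ℂ] V) (t₀ v₀ : V) (z₀ : ι → ℂ), (t₀, z₀) ∈ (S.e i).target →
  (∀ z, (t₀, z) ∈ (S.e i).target →
    S.Lf (L z) univ ∧ L z v₀ = (S.e i).symm (t₀, z) ∧ S.Fr (L z) i A v₀) →
  ∀ v i' A', S.Fr (L z₀) i' A' v → ∃ φ, (∀ᶠ z in 𝓝 z₀, IsoAt (S.G i) (S.G i') φ z) ∧
    ∀ᶠ p : (ι → ℂ) × V in 𝓝 (z₀, v), L p.1 p.2 ∈ (S.e i').source ∧
      S.e i' (L p.1 p.2) = (A' (p.2 - v) + (S.e i' (L z₀ v)).1, φ p.1)

/-- The space of parametrized leaves. -/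
def St_TR0 : Prop := ∀ (V ι X : Type) [NormedAddCommGroup V] [InnerProductSpace ℂ V] [Fintype ι]
  [DecidableEq ι] [TopologicalSpace X] [T2Space X] [CompactSpace X] [Nonempty X]
  (S : Split V ι X), ∃ (g : Geo ι) (T : Tr V g), Nonempty (Dev S T)

/-- Passage to a component. -/
def St_COMP : Prop := ∀ (V ι X : Type) [NormedAddCommGroup V] [InnerProductSpace ℂ V] [Fintype ι]
  [DecidableEq ι] [TopologicalSpace X] [ConnectedSpace X] (S : Split V ι X) (g : Geo ι)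
  (T : Tr V g), Dev S T → ∃ (g' : Geo ι) (T' : Tr V g'), ConnectedSpace g'.Y ∧ Nonempty (Dev S T')

/-- The action is free, local sections differ by a constant element, the action is proper and
cocompact. -/
def St_PC : Prop := ∀ (V ι X : Type) [NormedAddCommGroup V] [InnerProductSpace ℂ V]
  [FiniteDimensional ℂ V] [Fintype ι] [DecidableEq ι] [TopologicalSpace X] [T2Space X]
  [CompactSpace X] (S : Split V ι X) (g : Geo ι) (T : Tr V g) (D : Dev S T),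
  (∀ γ δ p, T.mv γ p = T.mv δ p → γ = δ) ∧
  (∀ (s s' : X → V × g.Y) (x : X) (γ : T.Γ), ContinuousAt s x → ContinuousAt s' x →
    (∀ᶠ x' in 𝓝 x, D.q (s x') = x' ∧ D.q (s' x') = x') → s' x = T.mv γ (s x) →
    ∀ᶠ x' in 𝓝 x, s' x' = T.mv γ (s x')) ∧ T.Prp ∧ T.Coc

/-- There is no bad family. -/
def St_NOD : Prop := ∀ (V ι X : Type) [NormedAddCommGroup V] [InnerProductSpace ℂ V]
  [FiniteDimensional ℂ V] [Fintype ι] [DecidableEq ι] [TopologicalSpace X] [T2Space X]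
  [CompactSpace X] (S : Split V ι X) (g : Geo ι) (T : Tr V g), Dev S T → S.Neg → ¬ T.toAct.Bad

/-- The leaves are compact. -/
def St_CL : Prop := ∀ (V ι X : Type) [NormedAddCommGroup V] [InnerProductSpace ℂ V]
  [FiniteDimensional ℂ V] [Fintype ι] [DecidableEq ι] [TopologicalSpace X] [T2Space X]
  [CompactSpace X] [ConnectedSpace X] (S : Split V ι X), S.Neg → S.Pp →
  ∃ (g : Geo ι) (T : Tr V g), ConnectedSpace g.Y ∧ Nonempty (Dev S T) ∧ T.Prp ∧ T.Coc ∧ T.Lat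

/-- Assembly. -/
theorem cl_of (h1 : St_TR0) (h2 : St_COMP) (h3 : St_PC) (h4 : St_NOD) (h5 : St_LAT) : St_CL := by
  intro V ι X _ _ _ _ _ _ _ _ _ S hN ⟨i, p, hp, hP⟩
  obtain ⟨g0, T0, ⟨D0⟩⟩ := h1 V ι X S
  obtain ⟨g, T, hc, ⟨D⟩⟩ := h2 V ι X S g0 T0 D0
  obtain ⟨-, -, hq, hco⟩ := h3 V ι X S g T D
  obtain ⟨B, v, j, a1, a2, -⟩ := D.sec i _ ((S.e i).map_target hp)
  rw [(S.e i).right_inv hp] at a2
  exact ⟨g, T, hc, ⟨D⟩, hq, hco, h5 V ι g T ⟨j, _, a2, a1 ▸ hP⟩ hq hco (h4 V ι X S g T D hN)⟩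

end Pool.Agent.Lib.HN9
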