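import Pool.Agent.Lib.HN9.Kit
import Pool.Agent.Lib.HS95.Blue2
import Pool.Agent.Lib.HQ.Blue

/-! Project hn, compact leaves: the bridge between the manifold layer and the split atlases. -/

open scoped Topology ContDiff ComplexOrder Matrix
open Set Filter Metric Complex MeasureTheory

set_option linter.unusedVariables false

noncomputable section

namespace Pool.Agent.Lib.HN9

open Pool.Agent.Lib.HS95
open Pool.Agent.Lib.SV (E)
open Pool.Agent.Lib.HS32 (Mat Mf pr nq hess dz dzb HolN ClM)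

/-! ### The link -/

/-- The split atlas `S` consists of product charts of `M`. -/
structure Lnk {n : ℕ} (M : Mf n) (h P : M.Fam (Mat n)) (k : ℕ)
    (S : Split (Vk n k) (Hi n k) M.X) where
  ch : S.I → M.Ch
  inj : Function.Injective ch
  prod : ∀ i, M.Prod h P k (ch i)
  cvx : ∀ i, Convex ℝ (ch i).target
  eq : ∀ i, S.e i = (ch i).transHomeomorph (spl k).toHomeomorph
  met : ∀ i, ∀ z ∈ (ch i).target, S.G i (up k z) = lb k (h (ch i) z)
  lvl : ∀ i, ∀ z ∈ (ch i).target, ∀ v,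
    lv (ld (S.G i)) (up k z) (up k v) = 4 * nq (hess (HS32.ld (h (ch i))) z) v

namespace Lnk

variable {n : ℕ} {M : Mf n} {h P : M.Fam (Mat n)} {k : ℕ} {S : Split (Vk n k) (Hi n k) M.X}
  (L : Lnk M h P k S)

theorem src (i : S.I) : (S.e i).source = (L.ch i).source := by rw [L.eq]; rfl

theorem app (i : S.I) (x : M.X) : S.e i x = (lo k (L.ch i x), up k (L.ch i x)) := by
  rw [L.eq]; rfl

theorem snd (i : S.I) (x : M.X) : (S.e i x).2 = up k (L.ch i x) := by rw [L.app]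

theorem symm (i : S.I) (p : Vk n k × (Hi n k → ℂ)) :
    (S.e i).symm p = (L.ch i).symm (jn k p.1 p.2) := by rw [L.eq]; rfl

theorem tgt (i : S.I) (p : Vk n k × (Hi n k → ℂ)) :
    p ∈ (S.e i).target ↔ jn k p.1 p.2 ∈ (L.ch i).target := by rw [L.eq]; rfl

theorem mem (i : S.I) : L.ch i ∈ M.C := (L.prod i).mem

theorem sub : M.Sub (range L.ch) :=
  ⟨by rintro _ ⟨i, rfl⟩; exact L.mem i, fun x => by
    obtain ⟨i, hi⟩ := S.cov x
    exact ⟨_, ⟨i, rfl⟩, L.src i ▸ hi⟩⟩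

theorem bas {β : Type} {i : S.I} {z : E n} (hz : z ∈ (L.ch i).target) {u : M.X → β}
    {f : (Hi n k → ℂ) → β} (hb : S.Bas i ((L.ch i).symm z) u f) :
    u ∘ (L.ch i).symm =ᶠ[𝓝 z] fun w => f (up k w) := by
  filter_upwards [((L.ch i).continuousAt_symm hz).eventually hb,
    (L.ch i).open_target.mem_nhds hz] with w h1 h2
  rw [Function.comp_apply, h1, L.snd, (L.ch i).right_inv h2]

end Lnk

/-- The split atlas. -/
def St_IN : Prop := ∀ (n : ℕ) (M : Mf n) (h P : M.Fam (Mat n)) (k : ℕ), M.Met h → M.End P →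
  M.PA h P k → ∃ S, Nonempty (Lnk M h P k S)

/-- The integral argument. -/
def St_NG1 : Prop := ∀ (n : ℕ) (M : Mf n) [M.Cpt] (G : M.Fam (Mat n)) (t : M.X → M.X → ℝ)
  (F b κ : M.X → ℝ) (c : ℝ), M.Kae G → Pot M t → M.Sm F → (∀ x, 0 ≤ F x) → 0 ≤ c →
  Continuous b → (∀ x, 0 ≤ b x) →
  (∀ x, 0 < F x → c - b x + M.lap G (t x) x ≤ M.lap G (fun y => Real.log (F y)) x) →
  Continuous κ → (∀ x, 0 ≤ κ x ∧ κ x ≤ 1 ∧ (κ x ≠ 0 → 0 < F x)) →
  c * ∫ x, κ x ∂M.mu G ≤ ∫ x, b x ∂M.mu G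

/-- Sections of a flat real line bundle. -/
def St_NG2 : Prop := ∀ (n : ℕ) (M : Mf n) [M.Cpt] (G : M.Fam (Mat n)), M.Kae G →
  ∀ (c : ℝ) (b κ : M.X → ℝ) (O : M.X → Set M.X) (D : M.X → M.X → ℝ) (a : M.X → M.X → M.X → ℝ),
  0 ≤ c → Continuous b → (∀ x, 0 ≤ b x) → (∀ x, IsOpen (O x) ∧ x ∈ O x) →
  (∀ x x' w, w ∈ O x → w ∈ O x' →
    (∀ᶠ w' in 𝓝 w, a x x' w' = a x x' w) ∧ D x' w = Real.exp (a x x' w) * D x w) →
  (∀ x x' x'' w, w ∈ O x → w ∈ O x' → w ∈ O x'' → a x x'' w = a x x' w + a x' x'' w) →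
  (∀ x, ∀ w ∈ O x, 0 ≤ D x w ∧ SmAt M (D x) w ∧
    (0 < D x w → c - b w ≤ M.lap G (fun y => Real.log (D x y)) w)) →
  Continuous κ → (∀ x, 0 ≤ κ x ∧ κ x ≤ 1 ∧ (κ x ≠ 0 → 0 < D x x)) →
  c * ∫ x, κ x ∂M.mu G ≤ ∫ x, b x ∂M.mu G

/-- The inequality of Bochner for the Gram determinant. -/
def St_SUB : Prop := ∀ (n ρ : ℕ) (G : E n → Mat n) (Ξ : E n → Matrix (Fin n) (Fin ρ) ℂ) (z : E n)
  (N B : Mat n), (∀ᶠ w in 𝓝 z, HS32.SmM G w ∧ (G w).PosDef ∧ ClM G w ∧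
    ∀ p q, DifferentiableAt ℂ (fun y => Ξ y p q) w) →
  ContDiffAt ℝ ∞ (fun w => ((Ξ w)ᴴ * G w * Ξ w).det.re) z ∧
  (N.PosSemidef → B * Ξ z = 0 → hess (HS32.ld G) z = G z - (N + B) →
    0 < ((Ξ z)ᴴ * G z * Ξ z).det.re → ρ - ((G z)⁻¹ * N).trace.re ≤
      ((G z)⁻¹ * hess (fun w => (Real.log ((Ξ w)ᴴ * G w * Ξ w).det.re : ℝ)) z).trace.re)

/-- A point where the twisted Ricci form is negative. -/
def St_PT : Prop := ∀ (n : ℕ) (M : Mf n) [M.Cpt] (H h B : M.Fam (Mat n)), 0 < n → M.Kae H →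
  M.Met h → M.Clo B → M.NefB H B → 0 < M.vB H B 0 →
  ∃ x, ∀ e ∈ M.C, x ∈ e.source → ∀ᶠ w in 𝓝 (e x), (B e w - M.ric h e w).PosDef

/-- The hypothesis of the theorem on split atlases. -/
def St_NEG : Prop := ∀ (n : ℕ) (M : Mf n) [M.Cpt] (H h P : M.Fam (Mat n)) (k : ℕ)
  (S : Split (Vk n k) (Hi n k) M.X), 0 < n → M.Kae H → M.End P → M.Clo (h * P) →
  M.NefB H (h * P) → 0 < M.vB H (h * P) 0 → Lnk M h P k S → S.Neg

/-- The leaves are compact. -/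
def St_LEAF : Prop := ∀ (n : ℕ) (M : Mf n) [M.Cpt] (H h P : M.Fam (Mat n)) (k : ℕ), 0 < n →
  M.Kae H → M.Met h → M.End P → M.PA h P k → M.Clo (h * P) → M.NefB H (h * P) →
  0 < M.vB H (h * P) 0 →
  ∃ (S : Split (Vk n k) (Hi n k) M.X) (g : Geo (Hi n k)) (T : Tr (Vk n k) g),
    Nonempty (Lnk M h P k S) ∧ ConnectedSpace g.Y ∧ Nonempty (Dev S T) ∧ T.Prp ∧ T.Coc ∧ T.Lat

/-- Assembly. -/
theorem leaf_of (h1 : St_CL) (h2 : St_IN) (h3 : St_PT) (h4 : St_NEG) : St_LEAF := by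
  intro n M _ H h P k hn hH hh hP hA hB hN hv
  obtain ⟨S, ⟨L⟩⟩ := h2 n M h P k hh hP hA
  obtain ⟨x, hx⟩ := h3 n M H h _ hn hH hh hB hN hv
  obtain ⟨i, hi⟩ := S.cov x
  have hi' : x ∈ (L.ch i).source := L.src i ▸ hi
  obtain ⟨g, T, a⟩ := h1 _ _ _ S (h4 n M H h P k S hn hH hP hB hN hv L)
    ⟨i, _, (S.e i).map_source hi, by
      have hc : Tendsto (fun y => jn k (lo k (L.ch i x)) y) (𝓝 (up k (L.ch i x)))
          (𝓝 (L.ch i x)) := by
        have := ((continuous_jn k).comp (Continuous.prodMk_right (lo k (L.ch i x)))).tendsto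
          (up k (L.ch i x))
        simpa only [Function.comp_def, jn_lo_up] using this
      rw [L.snd]
      filter_upwards [hc.eventually ((hx _ (L.mem i) hi').and
        ((L.ch i).open_target.mem_nhds ((L.ch i).map_source hi')))] with y hy v hv
      have e1 := L.lvl i _ hy.2 (jn k 0 v)
      rw [up_jn, up_jn] at e1
      have e2 : jn k 0 v ≠ 0 := fun e => hv (by rw [← up_jn k 0 v, e]; rfl)
      have e3 := (Complex.pos_iff.1 (hy.1.dotProduct_mulVec_pos e2)).1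
      have e4 : (pr k : Mat n) *ᵥ jn k 0 v = 0 := by
        ext j
        by_cases hj : j.val < k <;> simp [pr, Matrix.mulVec_diagonal, jn, hj]
      rw [Pi.mul_apply, Pi.mul_apply, (L.prod i).prj _ hy.2, Matrix.sub_mulVec,
        ← Matrix.mulVec_mulVec, e4, Matrix.mulVec_zero, zero_sub, Mf.ric, Matrix.neg_mulVec,
        neg_neg] at e3
      rw [e1]
      exact mul_pos four_pos e3⟩
  exact ⟨S, g, T, ⟨L⟩, a⟩

end Pool.Agent.Lib.HN9
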