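import Pool.Agent.Lib.HS95.Kit

/-! Project hn, compact leaves for a Hermitian metric: definitions. -/

open scoped Topology ContDiff ComplexOrder Matrix
open Set Filter Metric Complex

set_option linter.unusedVariables false

noncomputable section

namespace Pool.Agent.Lib.HN9

open Pool.Agent.Lib.HS95

/-- Smooth Hermitian metric. -/
structure Met {ι : Type} [Fintype ι] [DecidableEq ι] (G : (ι → ℂ) → Matrix ι ι ℂ) (z : ι → ℂ) :
    Prop where
  sm : SmM G z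
  pos : (G z).PosDef

/-- The logarithm of the determinant is strictly plurisubharmonic near `z`. -/
def Pp {ι : Type} [Fintype ι] [DecidableEq ι] (G : (ι → ℂ) → Matrix ι ι ℂ) (z : ι → ℂ) : Prop :=
  ∀ᶠ w in 𝓝 z, ∀ v, v ≠ 0 → 0 < lv (ld G) w v

/-! ### Split atlases -/

/-- An atlas in which the metric is the product of a flat one and of a Hermitian one. -/
structure Split (V ι X : Type) [NormedAddCommGroup V] [InnerProductSpace ℂ V] [Fintype ι]
    [DecidableEq ι] [TopologicalSpace X] where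
  I : Type
  e : I → OpenPartialHomeomorph X (V × (ι → ℂ))
  G : I → (ι → ℂ) → Matrix ι ι ℂ
  cov : ∀ x, ∃ i, x ∈ (e i).source
  met : ∀ i, ∀ p ∈ (e i).target, Met (G i) p.2
  tr : ∀ i j x, x ∈ (e i).source → x ∈ (e j).source →
    ∃ (A : V ≃ₗᵢ[ℂ] V) (φ : (ι → ℂ) → ι → ℂ),
      (∀ᶠ x' in 𝓝 x, e j x' = (A ((e i x').1 - (e i x).1) + (e j x).1, φ (e i x').2)) ∧
      ∀ᶠ z in 𝓝 (e i x).2, IsoAt (G i) (G j) φ z

namespace Split

variable {V ι X : Type} [NormedAddCommGroup V] [InnerProductSpace ℂ V] [Fintype ι]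
  [DecidableEq ι] [TopologicalSpace X] (S : Split V ι X)

/-- Near `x`, `u` is the function `f` of the second coordinate of the chart `i`. -/
def Bas {β : Type} (i : S.I) (x : X) (u : X → β) (f : (ι → ℂ) → β) : Prop :=
  ∀ᶠ x' in 𝓝 x, u x' = f (S.e i x').2

/-- Jacobian determinant of the change of charts. -/
def jac (i j : S.I) (x : X) : ℂ := (fderiv ℂ (S.e j ∘ (S.e i).symm) (S.e i x)).det

/-- The Jacobian matrix of the change of charts in the second factor. -/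
def hj (i j : S.I) (x : X) : Matrix ι ι ℂ :=
  jm (fun y => (S.e j ((S.e i).symm ((S.e i x).1, y))).2) (S.e i x).2

/-- There is no flat real bundle of holomorphic fields that are transverse to the leaves. -/
def Neg : Prop := ∀ (ρ : ℕ) (O : X → Set X) (i : X → S.I)
  (Ξ : X → (ι → ℂ) → Matrix ι (Fin ρ) ℂ) (c : X → X → X → Matrix (Fin ρ) (Fin ρ) ℝ)
  (a : X → X → X → ℝ), 0 < ρ →
  (∀ x, IsOpen (O x) ∧ x ∈ O x ∧ O x ⊆ (S.e (i x)).source) →
  (∀ x, ∀ w ∈ O x, ∀ᶠ z in 𝓝 (S.e (i x) w).2, ∀ p q, DifferentiableAt ℂ (fun y => Ξ x y p q) z) →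
  (∀ x x' w, w ∈ O x → w ∈ O x' → (∀ᶠ w' in 𝓝 w, a x x' w' = a x x' w) ∧
    Real.exp (a x x' w) * (c x x' w).det ^ 2 = 1 ∧
    S.hj (i x) (i x') w * Ξ x (S.e (i x) w).2 =
      Ξ x' (S.e (i x') w).2 * (c x x' w).map ((↑) : ℝ → ℂ)) →
  (∀ x x' x'' w, w ∈ O x → w ∈ O x' → w ∈ O x'' → a x x'' w = a x x' w + a x' x'' w) →
  ∀ x, ¬ LinearIndependent ℂ fun q p => Ξ x (S.e (i x) x).2 p q

/-- The Ricci form of the second factor is negative at some point. -/
def Pp : Prop := ∃ i, ∃ p ∈ (S.e i).target, HN9.Pp (S.G i) p.2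

/-- Near `v`, the map `ℓ` is a parametrization of a leaf with frame `A` in the chart `i`. -/
def Fr (ℓ : V → X) (i : S.I) (A : V ≃ₗᵢ[ℂ] V) (v : V) : Prop :=
  ∀ᶠ w in 𝓝 v, ℓ w ∈ (S.e i).source ∧
    S.e i (ℓ w) = (A (w - v) + (S.e i (ℓ v)).1, (S.e i (ℓ v)).2)

/-- Isometric parametrization of a leaf. -/
def Lf (ℓ : V → X) (U : Set V) : Prop := ∀ v ∈ U, ∃ i A, S.Fr ℓ i A v

end Split

/-! ### The transversal -/

/-- A complex manifold with a Hermitian metric. -/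
structure Geo (ι : Type) [Fintype ι] [DecidableEq ι] where
  Y : Type
  [tY : TopologicalSpace Y]
  [hY : T2Space Y]
  J : Type
  c : J → OpenPartialHomeomorph Y (ι → ℂ)
  G : J → (ι → ℂ) → Matrix ι ι ℂ
  cov : ∀ y, ∃ j, y ∈ (c j).source
  met : ∀ j, ∀ z ∈ (c j).target, Met (G j) z
  chg : ∀ j j' y, y ∈ (c j).source → y ∈ (c j').source →
    IsoAt (G j) (G j') (fun z => c j' ((c j).symm z)) (c j y)

attribute [instance] Geo.tY Geo.hY

namespace Geo

variable {ι : Type} [Fintype ι] [DecidableEq ι] (g : Geo ι)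

/-- A map read in charts. -/
def T (f : g.Y → g.Y) (j j' : g.J) (z : ι → ℂ) : ι → ℂ := g.c j' (f ((g.c j).symm z))

/-- Holomorphic isometry. -/
structure Iso (f : g.Y → g.Y) : Prop where
  cont : Continuous f
  loc : ∀ j j' y, y ∈ (g.c j).source → f y ∈ (g.c j').source →
    IsoAt (g.G j) (g.G j') (g.T f j j') (g.c j y)

/-- On the ball, `f` is `ε`-close to the identity. -/
def Near (f : g.Y → g.Y) (j : g.J) (z : ι → ℂ) (r ε : ℝ) : Prop :=
  ∀ w ∈ ball z r, f ((g.c j).symm w) ∈ (g.c j).source ∧ ‖g.T f j j w - w‖ ≤ ε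

/-- Preferred chart. -/
def pc (y : g.Y) : g.J := (g.cov y).choose

/-- Components in the chart `j` of a vector field given in the preferred charts. -/
def cmp (ξ : g.Y → ι → ℂ) (j : g.J) (z : ι → ℂ) : ι → ℂ :=
  fderiv ℂ (g.T id (g.pc ((g.c j).symm z)) j) (g.c (g.pc ((g.c j).symm z)) ((g.c j).symm z))
    (ξ ((g.c j).symm z))

/-- Holomorphic vector field. -/
def Hol (ξ : g.Y → ι → ℂ) : Prop := ∀ j, ∀ z ∈ (g.c j).target, DifferentiableAt ℂ (g.cmp ξ j) z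

/-- The Ricci form is negative at some point. -/
def Pp : Prop := ∃ j, ∃ z ∈ (g.c j).target, HN9.Pp (g.G j) z

open Classical in
/-- Extension by zero of a function on a chart. -/
def ext {β : Type} [Zero β] (j : g.J) (u : (ι → ℂ) → β) (y : g.Y) : β :=
  if y ∈ (g.c j).source then u (g.c j y) else 0

end Geo

/-- A group of holomorphic isometries. -/
structure Act {ι : Type} [Fintype ι] [DecidableEq ι] (g : Geo ι) where
  Γ : Type
  [gΓ : Group Γ]
  [aΓ : MulAction Γ g.Y]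
  iso : ∀ γ : Γ, g.Iso fun y => γ • y

attribute [instance] Act.gΓ Act.aΓ

namespace Act

variable {ι : Type} [Fintype ι] [DecidableEq ι] {g : Geo ι} (a : Act g)

/-- The map given by a group element. -/
abbrev f (γ : a.Γ) : g.Y → g.Y := fun y => γ • y

/-- Direct image of a vector field. -/
def push (γ : a.Γ) (ξ : g.Y → ι → ℂ) (y : g.Y) : ι → ℂ :=
  fderiv ℂ (g.T (a.f γ) (g.pc (γ⁻¹ • y)) (g.pc y)) (g.c (g.pc (γ⁻¹ • y)) (γ⁻¹ • y)) (ξ (γ⁻¹ • y))

/-- `ξ` is a limit of rescaled displacements of elements that satisfy `P`. -/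
def Gen (P : a.Γ → Prop) (ξ : g.Y → ι → ℂ) : Prop :=
  ∃ (l : Filter ℕ) (γ : ℕ → a.Γ) (r : ℕ → ℝ), l.NeBot ∧ (∀ m, P (γ m)) ∧ Tendsto r l atTop ∧
    ∀ j, ∀ z ∈ (g.c j).target,
      (∃ ρ > 0, ∃ C, ∀ᶠ m in l, ∀ w ∈ ball z ρ, γ m • (g.c j).symm w ∈ (g.c j).source ∧
        ‖r m • (g.T (a.f (γ m)) j j w - w)‖ ≤ C) ∧
      Tendsto (fun m => r m • (g.T (a.f (γ m)) j j z - z)) l (𝓝 (g.cmp ξ j z))

/-- Holomorphic fields, independent at some point, whose real span is invariant. -/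
def Bad : Prop := ∃ (ρ : ℕ) (ξ : Fin ρ → g.Y → ι → ℂ), 0 < ρ ∧ (∀ s, g.Hol (ξ s)) ∧
  (∀ γ s, ∃ c : Fin ρ → ℝ, a.push γ (ξ s) = ∑ t, c t • ξ t) ∧
  ∃ y, LinearIndependent ℂ fun s => ξ s y

/-- Properly discontinuous. -/
def PD : Prop := ∀ K : Set g.Y, IsCompact K → {γ : a.Γ | ∃ y ∈ K, γ • y ∈ K}.Finite

end Act

/-- A group of isometries of the product of a flat space and the transversal. -/
structure Tr (V : Type) [NormedAddCommGroup V] [InnerProductSpace ℂ V] {ι : Type} [Fintype ι]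
    [DecidableEq ι] (g : Geo ι) extends Act g where
  A : Γ →* (V ≃ₗᵢ[ℂ] V)
  b : Γ → V
  bmul : ∀ γ δ, b (γ * δ) = b γ + A γ (b δ)
  inj : ∀ γ, A γ = 1 → b γ = 0 → γ = 1

namespace Tr

variable {V : Type} [NormedAddCommGroup V] [InnerProductSpace ℂ V] {ι : Type} [Fintype ι]
  [DecidableEq ι] {g : Geo ι} (T : Tr V g)

/-- The action on the product. -/
def mv (γ : T.Γ) (p : V × g.Y) : V × g.Y := (T.A γ p.1 + T.b γ, γ • p.2)

/-- Determinant of the linear part. -/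
def chi (γ : T.Γ) : ℂ := LinearMap.det ((T.A γ).toLinearEquiv : V →ₗ[ℂ] V)

/-- The action on the product is proper. -/
def Prp : Prop := ∀ K : Set g.Y, IsCompact K → ∀ R : ℝ,
  {γ : T.Γ | ‖T.b γ‖ ≤ R ∧ ∃ y ∈ K, γ • y ∈ K}.Finite

/-- The action on the product is cocompact. -/
def Coc : Prop := ∃ K : Set g.Y, IsCompact K ∧ ∃ R : ℝ, ∀ (v : V) (y : g.Y), ∃ γ : T.Γ,
  ‖T.b γ - v‖ ≤ R ∧ γ⁻¹ • y ∈ K

/-- The pure translations are relatively dense. -/
def Lat : Prop := ∃ R : ℝ, ∀ v : V, ∃ γ : T.Γ, T.A γ = 1 ∧ (∀ y : g.Y, γ • y = y) ∧ ‖T.b γ - v‖ ≤ R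

end Tr

/-- The manifold is the quotient of the product. -/
structure Dev {V ι X : Type} [NormedAddCommGroup V] [InnerProductSpace ℂ V] [Fintype ι]
    [DecidableEq ι] [TopologicalSpace X] (S : Split V ι X) {g : Geo ι} (T : Tr V g) where
  q : V × g.Y → X
  cont : Continuous q
  inv : ∀ γ p, q (T.mv γ p) = q p
  orb : ∀ p p', q p = q p' → ∃ γ, p' = T.mv γ p
  linj : ∀ p, ∃ O ∈ 𝓝 p, InjOn q O
  sec : ∀ i x, x ∈ (S.e i).source → ∃ (B : V ≃ₗᵢ[ℂ] V) (v : V) (j : g.J), g.G j = S.G i ∧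
    (S.e i x).2 ∈ (g.c j).target ∧
    ∀ᶠ x' in 𝓝 x, q (B (S.e i x').1 + v, (g.c j).symm (S.e i x').2) = x'

end Pool.Agent.Lib.HN9
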