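import Pool.Agent.Lib.HN9.Blue

/-! Project hn, compact leaves: basic lemmas. -/

open scoped Topology ContDiff ComplexOrder Matrix
open Set Filter Metric Complex

set_option linter.unusedSectionVars false

noncomputable section

namespace Pool.Agent.Lib.HN9

open Pool.Agent.Lib.HS95

namespace Geo

variable {ι : Type} [Fintype ι] [DecidableEq ι] (g : Geo ι)

theorem pc_mem (y : g.Y) : y ∈ (g.c (g.pc y)).source := (g.cov y).choose_spec

theorem iso_id : g.Iso id := ⟨continuous_id, fun j j' y h h' => g.chg j j' y h h'⟩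

theorem T_apply (f : g.Y → g.Y) {j : g.J} (j' : g.J) {y : g.Y} (h : y ∈ (g.c j).source) :
    g.T f j j' (g.c j y) = g.c j' (f y) := by
  unfold T; rw [(g.c j).left_inv h]

theorem symm_T (f : g.Y → g.Y) (j : g.J) {j' : g.J} {z : ι → ℂ}
    (h : f ((g.c j).symm z) ∈ (g.c j').source) :
    (g.c j').symm (g.T f j j' z) = f ((g.c j).symm z) := (g.c j').left_inv h

theorem T_mem (f : g.Y → g.Y) (j : g.J) {j' : g.J} {z : ι → ℂ}
    (h : f ((g.c j).symm z) ∈ (g.c j').source) : g.T f j j' z ∈ (g.c j').target :=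
  (g.c j').map_source h

theorem ev_target {j : g.J} {z : ι → ℂ} (hz : z ∈ (g.c j).target) :
    ∀ᶠ w in 𝓝 z, w ∈ (g.c j).target := (g.c j).open_target.mem_nhds hz

theorem ev_met {j : g.J} {z : ι → ℂ} (hz : z ∈ (g.c j).target) :
    ∀ᶠ w in 𝓝 z, Met (g.G j) w := (g.ev_target hz).mono (g.met j)

theorem tendsto_symm {j : g.J} {z : ι → ℂ} (hz : z ∈ (g.c j).target) :
    Tendsto (g.c j).symm (𝓝 z) (𝓝 ((g.c j).symm z)) := (g.c j).continuousAt_symm hz

theorem ev_source {f : g.Y → g.Y} (hf : Continuous f) {j j' : g.J} {z : ι → ℂ}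
    (hz : z ∈ (g.c j).target) (h : f ((g.c j).symm z) ∈ (g.c j').source) :
    ∀ᶠ w in 𝓝 z, f ((g.c j).symm w) ∈ (g.c j').source :=
  (hf.continuousAt.tendsto.comp (g.tendsto_symm hz)).eventually
    ((g.c j').open_source.mem_nhds h)

theorem T_id_ev {j : g.J} {z : ι → ℂ} (hz : z ∈ (g.c j).target) :
    g.T id j j =ᶠ[𝓝 z] fun w => w :=
  (g.ev_target hz).mono fun _ hw => (g.c j).right_inv hw

theorem T_comp_ev {f : g.Y → g.Y} (f' : g.Y → g.Y) (hf : Continuous f) {j j' : g.J} (j'' : g.J)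
    {z : ι → ℂ} (hz : z ∈ (g.c j).target) (h : f ((g.c j).symm z) ∈ (g.c j').source) :
    g.T (fun y => f' (f y)) j j'' =ᶠ[𝓝 z] fun w => g.T f' j' j'' (g.T f j j' w) :=
  (g.ev_source hf hz h).mono fun w hw => by
    show g.c j'' _ = g.c j'' (f' _)
    rw [g.symm_T f j hw]

variable {g}

theorem Iso.at {f : g.Y → g.Y} (hf : g.Iso f) {j j' : g.J} {z : ι → ℂ} (hz : z ∈ (g.c j).target)
    (h : f ((g.c j).symm z) ∈ (g.c j').source) : IsoAt (g.G j) (g.G j') (g.T f j j') z := by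
  have := hf.loc j j' _ ((g.c j).map_target hz) h
  rwa [(g.c j).right_inv hz] at this

theorem Iso.ev {f : g.Y → g.Y} (hf : g.Iso f) {j j' : g.J} {z : ι → ℂ} (hz : z ∈ (g.c j).target)
    (h : f ((g.c j).symm z) ∈ (g.c j').source) :
    ∀ᶠ w in 𝓝 z, IsoAt (g.G j) (g.G j') (g.T f j j') w := by
  filter_upwards [g.ev_target hz, g.ev_source hf.cont hz h] with w h1 h2 using hf.at h1 h2

theorem Iso.smooth {f : g.Y → g.Y} (hf : g.Iso f) {j j' : g.J} {z : ι → ℂ}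
    (hz : z ∈ (g.c j).target) (h : f ((g.c j).symm z) ∈ (g.c j').source) :
    ContDiffAt ℝ ∞ (g.T f j j') z := contDiffAt_of_hol ((hf.ev hz h).mono fun _ h => h.hol)

theorem Iso.comp {f f' : g.Y → g.Y} (hf' : g.Iso f') (hf : g.Iso f) : g.Iso fun y => f' (f y) := by
  refine ⟨hf'.cont.comp hf.cont, fun j j' y h h' => ?_⟩
  have hz := (g.c j).map_source h
  have e : (g.c j).symm (g.c j y) = y := (g.c j).left_inv h
  have h1 : f ((g.c j).symm (g.c j y)) ∈ (g.c (g.pc (f y))).source := by rw [e]; exact g.pc_mem _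
  refine IsoAt.congr (IsoAt.comp ?_ (hf.at hz h1)) (g.T_comp_ev f' hf.cont j' hz h1)
  exact hf'.at (g.T_mem f j h1) (by rw [g.symm_T f j h1, e]; exact h')

/-- Chain rule in charts. -/
theorem fderiv_T_comp {f f' : g.Y → g.Y} (hf' : g.Iso f') (hf : g.Iso f) {j j' j'' : g.J}
    {y : g.Y} (h : y ∈ (g.c j).source) (h' : f y ∈ (g.c j').source)
    (h'' : f' (f y) ∈ (g.c j'').source) (v : ι → ℂ) :
    fderiv ℂ (g.T (fun y => f' (f y)) j j'') (g.c j y) v =
      fderiv ℂ (g.T f' j' j'') (g.c j' (f y)) (fderiv ℂ (g.T f j j') (g.c j y) v) := by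
  have hz := (g.c j).map_source h
  have e : (g.c j).symm (g.c j y) = y := (g.c j).left_inv h
  rw [(g.T_comp_ev f' hf.cont j'' hz (by rw [e]; exact h')).fderiv_eq, ← g.T_apply f j' h]
  have h2 := (hf'.loc j' j'' _ h' h'').hol
  rw [← g.T_apply f j' h] at h2
  exact congrArg (fun L : (ι → ℂ) →L[ℂ] ι → ℂ => L v)
    (fderiv_comp _ h2 (hf.loc j j' y h h').hol)

theorem fderiv_T_id {j : g.J} {z : ι → ℂ} (hz : z ∈ (g.c j).target) (v : ι → ℂ) :
    fderiv ℂ (g.T id j j) z v = v := by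
  rw [(g.T_id_ev hz).fderiv_eq]; simp

theorem cmp_apply (ξ : g.Y → ι → ℂ) {j : g.J} {y : g.Y} (h : y ∈ (g.c j).source) :
    g.cmp ξ j (g.c j y) = fderiv ℂ (g.T id (g.pc y) j) (g.c (g.pc y) y) (ξ y) := by
  unfold cmp; rw [(g.c j).left_inv h]

theorem cmp_pc (ξ : g.Y → ι → ℂ) (y : g.Y) : g.cmp ξ (g.pc y) (g.c (g.pc y) y) = ξ y := by
  rw [cmp_apply ξ (g.pc_mem y), fderiv_T_id ((g.c _).map_source (g.pc_mem y))]

/-- Change of chart for the components of a field. -/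
theorem cmp_chg (ξ : g.Y → ι → ℂ) {j j' : g.J} {y : g.Y} (h : y ∈ (g.c j).source)
    (h' : y ∈ (g.c j').source) :
    g.cmp ξ j' (g.c j' y) = fderiv ℂ (g.T id j j') (g.c j y) (g.cmp ξ j (g.c j y)) := by
  rw [cmp_apply ξ h, cmp_apply ξ h']
  exact fderiv_T_comp (f := id) (f' := id) g.iso_id g.iso_id (g.pc_mem y) h h' _

theorem cmp_add (ξ η : g.Y → ι → ℂ) (j : g.J) : g.cmp (ξ + η) j = g.cmp ξ j + g.cmp η j := by
  funext z; simp [cmp]

theorem cmp_smul (c : ℂ) (ξ : g.Y → ι → ℂ) (j : g.J) : g.cmp (c • ξ) j = c • g.cmp ξ j := by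
  funext z; simp [cmp]

theorem cmp_rsmul (c : ℝ) (ξ : g.Y → ι → ℂ) (j : g.J) : g.cmp (c • ξ) j = c • g.cmp ξ j := by
  funext z; simp [cmp]

theorem cmp_zero (j : g.J) : g.cmp 0 j = 0 := by
  funext z; simp [cmp]

theorem cmp_sum {κ : Type} (s : Finset κ) (ξ : κ → g.Y → ι → ℂ) (j : g.J) (z : ι → ℂ) :
    g.cmp (∑ t ∈ s, ξ t) j z = ∑ t ∈ s, g.cmp (ξ t) j z := by
  simp [cmp]

theorem cmp_eq_zero {ξ : g.Y → ι → ℂ} {j : g.J} {y : g.Y} (h : y ∈ (g.c j).source) :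
    g.cmp ξ j (g.c j y) = 0 ↔ ξ y = 0 := by
  rw [cmp_apply ξ h]
  exact ⟨(g.iso_id.loc _ _ y (g.pc_mem y) h).inj
    (g.met _ _ ((g.c _).map_source (g.pc_mem y))).pos, fun h0 => by rw [h0, map_zero]⟩

theorem Near.mono {f : g.Y → g.Y} {j : g.J} {z z' : ι → ℂ} {r r' ε ε' : ℝ} (h : g.Near f j z r ε)
    (hb : ball z' r' ⊆ ball z r) (he : ε ≤ ε') : g.Near f j z' r' ε' :=
  fun w hw => ⟨(h w (hb hw)).1, (h w (hb hw)).2.trans he⟩

instance : LocallyCompactSpace g.Y := by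
  refine ⟨fun y n hn => ?_⟩
  obtain ⟨j, hj⟩ := g.cov y
  have h1 : (g.c j).target ∩ (g.c j).symm ⁻¹' n ∈ 𝓝 (g.c j y) :=
    inter_mem ((g.c j).open_target.mem_nhds ((g.c j).map_source hj))
      (((g.c j).continuousAt_symm ((g.c j).map_source hj)).preimage_mem_nhds
        (by rw [(g.c j).left_inv hj]; exact hn))
  obtain ⟨K, hK, hs, hc⟩ := local_compact_nhds h1
  refine ⟨(g.c j).symm '' K, ?_, ?_, hc.image_of_continuousOn
    ((g.c j).continuousOn_symm.mono fun w hw => (hs hw).1)⟩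
  · have := (g.c j).symm.image_mem_nhds ((g.c j).map_source hj) hK
    rwa [(g.c j).left_inv hj] at this
  · rintro _ ⟨w, hw, rfl⟩; exact (hs hw).2

end Geo

namespace Act

variable {ι : Type} [Fintype ι] [DecidableEq ι] {g : Geo ι} (a : Act g)

theorem f_mul (γ δ : a.Γ) : a.f (γ * δ) = fun y => a.f γ (a.f δ y) := funext fun y => mul_smul γ δ y

theorem f_one : a.f 1 = id := funext fun y => one_smul _ y

theorem cont (γ : a.Γ) : Continuous fun y : g.Y => γ • y := (a.iso γ).cont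

/-- Components of the direct image. -/
theorem cmp_push (γ : a.Γ) (ξ : g.Y → ι → ℂ) {j j' : g.J} {y : g.Y} (h : y ∈ (g.c j).source)
    (h' : γ • y ∈ (g.c j').source) :
    g.cmp (a.push γ ξ) j' (g.c j' (γ • y)) =
      fderiv ℂ (g.T (a.f γ) j j') (g.c j y) (g.cmp ξ j (g.c j y)) := by
  rw [Geo.cmp_apply _ h', Geo.cmp_apply _ h]
  unfold push
  rw [inv_smul_smul]
  rw [← Geo.fderiv_T_comp (f := a.f γ) (f' := id) g.iso_id (a.iso γ) (g.pc_mem y) (g.pc_mem _) h']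
  exact Geo.fderiv_T_comp (f := id) (f' := a.f γ) (a.iso γ) g.iso_id (g.pc_mem y) h h' _

theorem push_add (γ : a.Γ) (ξ η : g.Y → ι → ℂ) : a.push γ (ξ + η) = a.push γ ξ + a.push γ η := by
  funext y; simp [push]

theorem push_rsmul (γ : a.Γ) (c : ℝ) (ξ : g.Y → ι → ℂ) : a.push γ (c • ξ) = c • a.push γ ξ := by
  funext y; simp [push]

theorem push_zero (γ : a.Γ) : a.push γ 0 = 0 := by
  funext y; simp [push]

end Act

namespace Tr

variable {V : Type} [NormedAddCommGroup V] [InnerProductSpace ℂ V] {ι : Type} [Fintype ι]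
  [DecidableEq ι] {g : Geo ι} (T : Tr V g)

theorem b_one : T.b 1 = 0 := by
  have := T.bmul 1 1
  rw [mul_one, map_one] at this
  simpa using this

theorem mv_one (p : V × g.Y) : T.mv 1 p = p := by
  simp [mv, b_one]

theorem mv_mul (γ δ : T.Γ) (p : V × g.Y) : T.mv (γ * δ) p = T.mv γ (T.mv δ p) := by
  simp only [mv, T.bmul, map_mul, mul_smul, map_add, Prod.mk.injEq, and_true]
  show T.A γ (T.A δ p.1) + _ = _
  abel

theorem b_inv (γ : T.Γ) : T.b γ⁻¹ = -(T.A γ)⁻¹ (T.b γ) := by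
  have := T.bmul γ⁻¹ γ
  rw [inv_mul_cancel, b_one, map_inv] at this
  exact eq_neg_of_add_eq_zero_left this.symm

theorem continuous_mv (γ : T.Γ) : Continuous (T.mv γ) :=
  (((T.A γ).continuous.comp continuous_fst).add continuous_const).prodMk
    ((T.toAct.cont γ).comp continuous_snd)

theorem chi_mul (γ δ : T.Γ) : T.chi (γ * δ) = T.chi γ * T.chi δ := by
  unfold chi
  rw [← LinearMap.det_comp, map_mul]
  rfl

end Tr

end Pool.Agent.Lib.HN9
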