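import Pool.Agent.Lib.HN9.Blue

/-! The set of limit fields is invariant under the group. -/

open scoped Topology ContDiff ComplexOrder Matrix
open Set Filter Metric Complex

noncomputable section

namespace Pool.Agent.Lib.HN9

open Pool.Agent.Lib.HS95

namespace LIM3K

variable {ι : Type} [Fintype ι] [DecidableEq ι]

omit [DecidableEq ι] in
lemma rescale {φ : (ι → ℂ) → ι → ℂ} {z v : ι → ℂ} (hφ : DifferentiableAt ℂ φ z) {l : Filter ℕ}
    {r : ℕ → ℝ} {u : ℕ → ι → ℂ} (hu : Tendsto u l (𝓝 z))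
    (hv : Tendsto (fun m => r m • (u m - z)) l (𝓝 v)) :
    Tendsto (fun m => r m • (φ (u m) - φ z)) l (𝓝 (fderiv ℂ φ z v)) := by
  have h1 := (hφ.hasFDerivAt.isLittleO).comp_tendsto hu
  have h2 := (Asymptotics.isBigO_refl r l).smul_isLittleO h1
  have h3 := (Asymptotics.isLittleO_one_iff ℝ).1 (h2.trans_isBigO (hv.isBigO_one ℝ))
  have h4 := ((fderiv ℂ φ z).continuous.tendsto v).comp hv
  have h5 := h3.add h4
  rw [zero_add] at h5
  refine h5.congr fun m => ?_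
  simp only [Function.comp, ContinuousLinearMap.map_smul_of_tower, ← smul_add, sub_add_cancel]

omit [DecidableEq ι] in
lemma small {l : Filter ℕ} {r : ℕ → ℝ} (hr : Tendsto r l atTop) (C : ℝ) {ε : ℝ} (hε : 0 < ε) :
    ∀ᶠ m in l, ∀ x : ι → ℂ, ‖r m • x‖ ≤ C → ‖x‖ < ε := by
  filter_upwards [hr.eventually_gt_atTop (max 0 (C / ε))] with m hm x hx
  have h0 : 0 < r m := (le_max_left _ _).trans_lt hm
  have h1 : C < r m * ε := (div_lt_iff₀ hε).1 ((le_max_right _ _).trans_lt hm)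
  rw [norm_smul, Real.norm_of_nonneg h0.le] at hx
  exact lt_of_mul_lt_mul_left (hx.trans_lt h1) h0.le

variable {g : Geo ι}

lemma ev_src {f : g.Y → g.Y} (hf : Continuous f) {j j' : g.J} {y : g.Y}
    (hy : y ∈ (g.c j).source) (hy' : f y ∈ (g.c j').source) :
    ∀ᶠ w in 𝓝 (g.c j y), w ∈ (g.c j).target ∧ f ((g.c j).symm w) ∈ (g.c j').source := by
  have hz := (g.c j).map_source hy
  refine ((g.c j).open_target.eventually_mem hz).and ?_
  have hc := hf.continuousAt.comp ((g.c j).continuousAt_symm hz)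
  refine hc.eventually (p := fun y => y ∈ (g.c j').source) ?_
  simp only [Function.comp, (g.c j).left_inv hy]
  exact (g.c j').open_source.mem_nhds hy'

lemma pc_src (y : g.Y) : y ∈ (g.c (g.pc y)).source := (g.cov y).choose_spec

lemma cmp_pc (ξ : g.Y → ι → ℂ) (y : g.Y) : g.cmp ξ (g.pc y) (g.c (g.pc y) y) = ξ y := by
  unfold Geo.cmp
  rw [(g.c (g.pc y)).left_inv (pc_src y)]
  have : g.T id (g.pc y) (g.pc y) =ᶠ[𝓝 (g.c (g.pc y) y)] id := by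
    filter_upwards [(g.c (g.pc y)).open_target.mem_nhds ((g.c (g.pc y)).map_source (pc_src y))]
      with w hw
    exact (g.c (g.pc y)).right_inv hw
  rw [this.fderiv_eq, fderiv_id]
  rfl

lemma cmp_push (a : Act g) (δ : a.Γ) (ξ : g.Y → ι → ℂ) {j : g.J} {y : g.Y}
    (hy : y ∈ (g.c j).source) : g.cmp (a.push δ ξ) j (g.c j y) =
      fderiv ℂ (g.T (a.f δ) (g.pc (δ⁻¹ • y)) j) (g.c (g.pc (δ⁻¹ • y)) (δ⁻¹ • y)) (ξ (δ⁻¹ • y)) := by
  have h0 := pc_src (δ⁻¹ • y)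
  have h1 : a.f δ (δ⁻¹ • y) ∈ (g.c (g.pc y)).source := by
    simpa only [Act.f, smul_inv_smul] using pc_src y
  have h2 : g.T (a.f δ) (g.pc (δ⁻¹ • y)) (g.pc y) (g.c (g.pc (δ⁻¹ • y)) (δ⁻¹ • y)) =
      g.c (g.pc y) y := by
    simp only [Geo.T, Act.f, (g.c _).left_inv h0, smul_inv_smul]
  have h3 : g.T (a.f δ) (g.pc (δ⁻¹ • y)) j =ᶠ[𝓝 (g.c (g.pc (δ⁻¹ • y)) (δ⁻¹ • y))]
      g.T id (g.pc y) j ∘ g.T (a.f δ) (g.pc (δ⁻¹ • y)) (g.pc y) := by
    filter_upwards [ev_src (a.iso δ).cont h0 h1] with w hw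
    simp only [Geo.T, Function.comp, id, (g.c _).left_inv hw.2]
  have h4 : DifferentiableAt ℂ (g.T id (g.pc y) j) (g.c (g.pc y) y) :=
    (g.chg _ _ y (pc_src y) hy).hol
  unfold Geo.cmp Act.push
  rw [(g.c j).left_inv hy, h3.fderiv_eq,
    fderiv_comp _ (by rw [h2]; exact h4) ((a.iso δ).loc _ _ _ h0 h1).hol, h2]
  rfl

end LIM3K

open LIM3K in
theorem st_LIM3 : St_LIM3 := by
  intro ι _ _ g a P ξ hP ⟨l, γ, r, hl, hγ, hr, h⟩ δ
  refine ⟨l, fun m => δ * γ m * δ⁻¹, r, hl, fun m => hP _ _ (hγ m), hr, fun j z hz => ?_⟩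
  obtain ⟨y, hy, rfl⟩ : ∃ y ∈ (g.c j).source, g.c j y = z :=
    ⟨_, (g.c j).map_target hz, (g.c j).right_inv hz⟩
  rw [cmp_push a δ ξ hy]
  have h0 := pc_src (δ⁻¹ • y)
  obtain ⟨⟨ρ, hρ, C, hb⟩, ht⟩ := h _ _ ((g.c _).map_source h0)
  rw [cmp_pc] at ht
  set j0 := g.pc (δ⁻¹ • y)
  set z0 := g.c j0 (δ⁻¹ • y) with hz0
  have h1 : a.f δ (δ⁻¹ • y) ∈ (g.c j).source := by simpa only [Act.f, smul_inv_smul] using hy
  have e1 := ev_src (a.iso δ).cont h0 h1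
  have e2 : ∀ᶠ w in 𝓝 z0, DifferentiableAt ℂ (g.T (a.f δ) j0 j) w := by
    filter_upwards [e1] with w hw
    have := ((a.iso δ).loc j0 j _ ((g.c j0).map_target hw.1) hw.2).hol
    rwa [(g.c j0).right_inv hw.1] at this
  obtain ⟨K, s, hs, hK⟩ := (SV.H85.contDiffAt_nat e2 1).exists_lipschitzOnWith
  obtain ⟨ε, hε, hεs⟩ := Metric.mem_nhds_iff.1 (inter_mem (inter_mem hs e1) (ball_mem_nhds z0 hρ))
  have hψ : ContinuousAt (g.T (a.f δ⁻¹) j j0) (g.c j y) :=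
    ((a.iso δ⁻¹).loc j j0 y hy h0).hol.continuousAt
  have hψ0 : g.T (a.f δ⁻¹) j j0 (g.c j y) = z0 := by
    simp only [Geo.T, Act.f, (g.c j).left_inv hy, hz0]
  have e3 : ∀ᶠ w in 𝓝 (g.c j y), g.T (a.f δ⁻¹) j j0 w ∈ ball z0 (ε / 2) :=
    hψ.eventually (p := fun w => w ∈ ball z0 (ε / 2))
      (by rw [hψ0]; exact ball_mem_nhds _ (half_pos hε))
  obtain ⟨ρ', hρ', hw⟩ := Metric.mem_nhds_iff.1 (e3.and (ev_src (a.iso δ⁻¹).cont hy h0))
  have key : ∀ᶠ m in l, ∀ w ∈ ball (g.c j y) ρ',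
      (δ * γ m * δ⁻¹) • (g.c j).symm w ∈ (g.c j).source ∧
      g.T (a.f (δ * γ m * δ⁻¹)) j j w =
        g.T (a.f δ) j0 j (g.T (a.f (γ m)) j0 j0 (g.T (a.f δ⁻¹) j j0 w)) ∧
      g.T (a.f δ) j0 j (g.T (a.f δ⁻¹) j j0 w) = w ∧
      ‖r m • (g.T (a.f δ) j0 j (g.T (a.f (γ m)) j0 j0 (g.T (a.f δ⁻¹) j j0 w)) -
        g.T (a.f δ) j0 j (g.T (a.f δ⁻¹) j j0 w))‖ ≤ K * C := by
    filter_upwards [hb, small (ι := ι) hr C (half_pos hε)] with m hm hsm w hw'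
    obtain ⟨a1, a2, a3⟩ := hw hw'
    have a4 := hεs (ball_subset_ball (half_le_self hε.le) a1)
    obtain ⟨b1, b2⟩ := hm _ a4.2
    have b3 : g.T (a.f (γ m)) j0 j0 (g.T (a.f δ⁻¹) j j0 w) ∈ ball z0 ε := by
      have := hsm _ b2
      rw [mem_ball] at a1 ⊢
      rw [← dist_eq_norm] at this
      linarith [dist_triangle (g.T (a.f (γ m)) j0 j0 (g.T (a.f δ⁻¹) j j0 w))
        (g.T (a.f δ⁻¹) j j0 w) z0]
    have b4 := hεs b3
    have c1 : (g.c j0).symm (g.T (a.f δ⁻¹) j j0 w) = δ⁻¹ • (g.c j).symm w := (g.c j0).left_inv a3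
    have c2 : (g.c j0).symm (g.T (a.f (γ m)) j0 j0 (g.T (a.f δ⁻¹) j j0 w)) =
        γ m • δ⁻¹ • (g.c j).symm w := by
      rw [← c1]; exact (g.c j0).left_inv b1
    refine ⟨?_, ?_, ?_, ?_⟩
    · have := b4.1.2.2
      rwa [c2, ← mul_smul, ← mul_smul] at this
    · show _ = g.c j (δ • (g.c j0).symm _)
      rw [c2, ← mul_smul, ← mul_smul]; rfl
    · show g.c j (δ • (g.c j0).symm _) = w
      rw [c1, smul_inv_smul, (g.c j).right_inv a2]
    · have := hK.norm_sub_le b4.1.1 a4.1.1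
      rw [norm_smul] at b2 ⊢
      calc _ ≤ ‖r m‖ * (K * _) := mul_le_mul_of_nonneg_left this (norm_nonneg _)
        _ = K * (‖r m‖ * _) := by ring
        _ ≤ K * C := mul_le_mul_of_nonneg_left b2 K.coe_nonneg
  refine ⟨⟨ρ', hρ', K * C, key.mono fun m hm w hw' => ?_⟩, ?_⟩
  · obtain ⟨k1, k2, k3, k4⟩ := hm w hw'
    rw [k3, ← k2] at k4
    exact ⟨k1, k4⟩
  · have hu : Tendsto (fun m => g.T (a.f (γ m)) j0 j0 z0) l (𝓝 z0) := by
      refine Metric.tendsto_nhds.2 fun η hη => ?_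
      filter_upwards [hb, small (ι := ι) hr C hη] with m hm hsm
      rw [dist_eq_norm]
      exact hsm _ (hm _ (mem_ball_self hρ)).2
    refine (rescale e2.self_of_nhds hu ht).congr' (key.mono fun m hm => ?_)
    obtain ⟨-, k2, k3, -⟩ := hm _ (mem_ball_self hρ')
    rw [hψ0] at k2 k3
    simp only [k2, k3]

end Pool.Agent.Lib.HN9
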