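import Pool.Agent.Lib.HN9.Blue2
import Pool.Agent.Lib.KR88.Mean
import Pool.Agent.Lib.GH.B_GSB
import Pool.Agent.Lib.RB.Nef
import Pool.Agent.Lib.HS.All

/-! Project hn, compact leaves: a point where the twisted Ricci form is negative. -/

open scoped Topology ContDiff ComplexOrder Matrix
open Set Filter Metric Complex MeasureTheory

noncomputable section

namespace Pool.Agent.Lib.HN9

open Pool.Agent.Lib.HS32 Pool.Agent.Lib.HS32.Mf

namespace PT9

variable {n : ℕ}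

theorem pd_ev {X : Type} [TopologicalSpace X] {T : X → Mat n} {z : X} (hc : ContinuousAt T z)
    (hh : ∀ᶠ w in 𝓝 z, (T w).IsHermitian) (hp : (T z).PosDef) : ∀ᶠ w in 𝓝 z, (T w).PosDef := by
  have h0 : ContinuousAt (fun w => (T z)⁻¹ * (T w - T z)) z :=
    continuousAt_const.mul (hc.sub continuousAt_const)
  have h1 : ContinuousAt (fun w => ((T z)⁻¹ * (T w - T z) * ((T z)⁻¹ * (T w - T z))).trace.re) z :=
    Complex.continuous_re.continuousAt.comp
      ((continuous_id.matrix_trace (R := ℂ)).continuousAt.comp (h0.mul h0))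
  filter_upwards [hh, h1.eventually (gt_mem_nhds (show _ < (1 : ℝ) by simp))] with w h2 h3
  obtain ⟨lam, h⟩ := HS76.eig hp (h2.sub hp.1)
  rw [h.tr2_re] at h3
  have := (h.pd 1 1).2 fun i => by
    have := (Finset.single_le_sum (fun j _ => sq_nonneg (lam j)) (Finset.mem_univ i)).trans_lt h3
    nlinarith
  simpa using this

theorem pd_of {H R G : Mat n} {ε C c : ℝ} (hH : H.PosDef) (hR : R.IsHermitian) (hG : G.PosDef)
    (h1 : (ε • H + R - G).PosSemidef) (h2 : (C • H - R).PosSemidef) (hε : ε ≤ 1) (hC : 0 ≤ C)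
    (e0 : 0 ≤ ε) (h3 : c * H.det.re ≤ G.det.re) (h4 : ε * (1 + C) ^ n < c) : R.PosDef := by
  obtain ⟨lam, h⟩ := HS76.eig hH hR
  have a1 := (h.le_iff C).1 h2
  have a2 := (h.pd ε 1).1 (by simpa using hG.add_posSemidef h1)
  have a3 := h3.trans (HS76.det_mono hG h1)
  have a4 := h.det ε 1
  simp only [one_smul, one_mul] at a2 a4
  rw [show ε • H = (ε : ℂ) • H from rfl, a4, mul_comm c] at a3
  norm_cast at a3
  rw [Complex.re_mul_ofReal] at a3
  have a5 := le_of_mul_le_mul_left a3 (pd_det_re hH)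
  have := (h.pd 0 1).2 fun j => by
    by_contra k
    have a6 : ∏ i, (ε + lam i) ≤ ∏ i, (if i = j then ε else 1) * (1 + C) :=
      Finset.prod_le_prod (fun i _ => (a2 i).le) fun i _ => by
        split_ifs with e
        · subst e
          nlinarith
        · linarith [a1 i]
    rw [Finset.prod_mul_distrib, Finset.prod_ite_eq', if_pos (Finset.mem_univ _),
      Finset.prod_const, Finset.card_univ, Fintype.card_fin] at a6
    linarith
  simpa using this

/-- The solutions have a large maximum. -/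
theorem fam {M : Mf n} [M.Cpt] {H B : M.Fam (Mat n)} (hn : 0 < n) (hH : M.Kae H) (hB : M.Clo B)
    (hN : M.NefB H B) (hv : 0 < M.vB H B 0) : ∃ c : ℝ, 0 < c ∧ ∀ᶠ ε in 𝓝[>] (0 : ℝ),
      ∃ u, M.SolB H B ε u ∧ ∀ a, (∀ x, u x ≤ a) → c ≤ Real.exp a := by
  obtain ⟨-, hf, -, hm, hi, -⟩ := mMU n M H hH.toMet
  have h1 : Tendsto (M.vB H B) (𝓝 0) (𝓝 (M.vB H B 0)) :=
    (K88.vol_cont hH.toMet (K88.clo_tw hH hB).toForm).tendsto 0
  refine ⟨M.vB H B 0 / 2 / (M.mu H).real univ, by positivity, ?_⟩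
  filter_upwards [(h1.eventually (lt_mem_nhds (half_lt_self hv))).filter_mono nhdsWithin_le_nhds,
    self_mem_nhdsWithin] with ε h2 hε
  obtain ⟨p, hp⟩ := hN ε hε
  obtain ⟨u, u1, u2, u3⟩ := RB.solve HS.asAUBIN hn hH.toMet (T := ε • H + B) hp.sm hp.kae
  refine ⟨u, ⟨u1, u2, u3⟩, fun a ha => ?_⟩
  have h3 := integral_mono (μ := M.mu H) (hi ℝ _ u1.exp.continuous)
    (integrable_const (Real.exp a)) fun x => Real.exp_le_exp.2 (ha x)
  rw [K88.mass hH hB ⟨u1, u2, u3⟩, integral_const, smul_eq_mul] at h3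
  rw [div_le_iff₀' hm]
  exact h2.le.trans h3

end PT9

open PT9 in
theorem st_PT : St_PT := by
  intro n M _ H h B hn hH hh hB hN hv
  obtain ⟨c, c0, hc⟩ := fam hn hH hB hN hv
  have hR := hB.sub ((mHES n M).2.2.2.2.2.2.2.2.1 h hh)
  obtain ⟨C, C0, hC, -⟩ := (mBD n M H hH.toMet).1 _ hR.toForm
  obtain ⟨s1, s2⟩ := (mHES n M).2.2.2.2.2.2.2.2.2 H h hH.toMet hh
  obtain ⟨y₁, hy₁⟩ := s1.exists_max
  obtain ⟨y₀, hy₀⟩ := s1.exists_min
  set f := fun x => Real.log (M.dq h H x)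
  have t1 : Tendsto (fun ε : ℝ => ε * (1 + C) ^ n) (𝓝 0) (𝓝 (0 * (1 + C) ^ n)) :=
    tendsto_id.mul_const _
  rw [zero_mul] at t1
  obtain ⟨ε, ⟨u, hu, ha⟩, h4, hε⟩ := (hc.and (((t1.eventually (gt_mem_nhds (mul_pos c0
    (Real.exp_pos (f y₀ - f y₁))))).filter_mono nhdsWithin_le_nhds).and
      (Ioc_mem_nhdsGT (zero_lt_one' ℝ)))).exists
  obtain ⟨x, hx⟩ := (hu.sm.add s1).exists_max
  have a1 := ha (u x + (f y₁ - f y₀)) fun y => by linarith [hx y, hy₁ x, hy₀ y]
  refine ⟨x, fun e he hxe => ?_⟩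
  have hz := e.map_source hxe
  refine pd_ev (T := fun w => (B - M.ric h) e w) (hR.sm e he _ hz).continuousAt
    (AllOn.ev hR.herm he hz) (pd_of (hH.pos e he _ hz) (hR.herm e he _ hz) (hu.kae.pos e he _ hz)
      ?_ (hC e he _ hz) hε.2 C0.le hε.1.le ?_ h4)
  · have a2 := ((((mLAP n M _ _ (hu.sm.add s1) s1).2.2 H hH.toMet).2.2.1 x
      0).2.2.2.2.2.2.2.2.1 (Eventually.of_forall hx)).2.2 e he hxe
    rw [((mLAP n M _ _ hu.sm s1).1 0 e he _ hz).2.1] at a2
    convert a2 using 1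
    simp only [gB, Pi.add_apply, Pi.sub_apply, Pi.smul_apply, s2 e he _ hz]
    abel
  · rw [GH.G34.sol_det hH hu e he _ hz, e.left_inv hxe]
    refine mul_le_mul_of_nonneg_right ?_ (pd_det_re (hH.pos e he _ hz)).le
    refine (mul_le_mul_of_nonneg_right a1 (Real.exp_pos _).le).trans_eq ?_
    rw [← Real.exp_add]
    congr 1
    ring

end Pool.Agent.Lib.HN9
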